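import Pool.Agent.P.MP_ea3df5_lc.Cont

/-!
Arcs and their basic properties.
-/

namespace Pool.Agent.P.MP_ea3df5_lc

open Set Metric Topology Filter

variable {P : Type*} [MetricSpace P]

/-- `J` is an arc from `y` to `z` -/
def Arc (J : Set P) (y z : P) : Prop :=
  ∃ (γ : ℝ → P) (a b : ℝ), Continuous γ ∧ a < b ∧ InjOn γ (Icc a b) ∧ γ a = y ∧ γ b = z ∧
    γ '' Icc a b = J

theorem cont_image {γ : ℝ → P} (hγ : Continuous γ) {a b : ℝ} (h : a ≤ b) : Cont (γ '' Icc a b) :=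
  ⟨isCompact_Icc.image hγ, (isConnected_Icc h).image _ hγ.continuousOn⟩

theorem arc_image {γ : ℝ → P} (hγ : Continuous γ) {a b s t : ℝ} (hi : InjOn γ (Icc a b))
    (hs : a ≤ s) (hst : s < t) (ht : t ≤ b) : Arc (γ '' Icc s t) (γ s) (γ t) :=
  ⟨γ, s, t, hγ, hst, hi.mono (Icc_subset_Icc hs ht), rfl, rfl, rfl⟩

theorem Arc.cont {J : Set P} {y z : P} (h : Arc J y z) : Cont J := by
  obtain ⟨γ, a, b, hγ, hab, -, -, -, rfl⟩ := h
  exact cont_image hγ hab.le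

theorem Arc.left_mem {J : Set P} {y z : P} (h : Arc J y z) : y ∈ J := by
  obtain ⟨γ, a, b, hγ, hab, -, rfl, -, rfl⟩ := h
  exact mem_image_of_mem _ (left_mem_Icc.2 hab.le)

theorem Arc.right_mem {J : Set P} {y z : P} (h : Arc J y z) : z ∈ J := by
  obtain ⟨γ, a, b, hγ, hab, -, -, rfl, rfl⟩ := h
  exact mem_image_of_mem _ (right_mem_Icc.2 hab.le)

theorem Arc.ne {J : Set P} {y z : P} (h : Arc J y z) : y ≠ z := by
  obtain ⟨γ, a, b, hγ, hab, hi, rfl, rfl, -⟩ := h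
  exact fun e => hab.ne (hi (left_mem_Icc.2 hab.le) (right_mem_Icc.2 hab.le) e)

theorem Arc.not_subset {J : Set P} {y z : P} (h : Arc J y z) : ¬ J ⊆ {y} :=
  fun e => h.ne (e h.right_mem).symm

theorem Arc.symm {J : Set P} {y z : P} (h : Arc J y z) : Arc J z y := by
  obtain ⟨γ, a, b, hγ, hab, hi, rfl, rfl, rfl⟩ := h
  refine ⟨fun t => γ (-t), -b, -a, by fun_prop, by linarith, ?_, by simp, by simp, ?_⟩
  · intro s hs t ht e
    have := hi (show -s ∈ Icc a b from ⟨by linarith [hs.2], by linarith [hs.1]⟩)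
      (show -t ∈ Icc a b from ⟨by linarith [ht.2], by linarith [ht.1]⟩) e
    linarith
  · ext x
    constructor
    · rintro ⟨t, ht, rfl⟩
      exact ⟨-t, ⟨by linarith [ht.2], by linarith [ht.1]⟩, rfl⟩
    · rintro ⟨t, ht, rfl⟩
      exact ⟨-t, ⟨by linarith [ht.2], by linarith [ht.1]⟩, by simp⟩

/-- subcontinua of a parametrised arc are images of intervals -/
theorem sub_param {γ : ℝ → P} (hγ : Continuous γ) {a b : ℝ} (hi : InjOn γ (Icc a b)) {K : Set P}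
    (hK : Cont K) (hs : K ⊆ γ '' Icc a b) :
    ∃ s t, a ≤ s ∧ s ≤ t ∧ t ≤ b ∧ Icc a b ∩ γ ⁻¹' K = Icc s t ∧ K = γ '' Icc s t := by
  set T := Icc a b ∩ γ ⁻¹' K with hT
  have hTc : IsCompact T := isCompact_Icc.inter_right (hK.closed.preimage hγ)
  have him : γ '' T = K := by
    apply Subset.antisymm
    · rintro _ ⟨t, ht, rfl⟩; exact ht.2
    · intro x hx
      obtain ⟨t, ht, rfl⟩ := hs hx
      exact ⟨t, ⟨ht, hx⟩, rfl⟩
  have hne : T.Nonempty := by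
    have := hK.nonempty
    rw [← him] at this
    exact this.of_image
  have hp : IsPreconnected T := by
    rw [isPreconnected_iff_subset_of_disjoint_closed]
    intro u v hu hv hcov hd
    have h := isPreconnected_iff_subset_of_disjoint_closed.1 hK.pre (γ '' (T ∩ u)) (γ '' (T ∩ v))
      ((hTc.inter_right hu).image hγ).isClosed ((hTc.inter_right hv).image hγ).isClosed
      (by
        rw [← image_union, ← inter_union_distrib_left, inter_eq_left.2 hcov, him])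
      (by
        rw [eq_empty_iff_forall_notMem]
        rintro x ⟨-, ⟨s, hs, rfl⟩, ⟨t, ht, e⟩⟩
        have := hi ht.1.1 hs.1.1 e
        subst this
        have : t ∈ T ∩ (u ∩ v) := ⟨hs.1, hs.2, ht.2⟩
        rw [hd] at this; exact this)
    rcases h with h | h
    · left
      intro t ht
      obtain ⟨s, hs, e⟩ := h ht.2
      rw [← hi hs.1.1 ht.1 e]; exact hs.2
    · right
      intro t ht
      obtain ⟨s, hs, e⟩ := h ht.2
      rw [← hi hs.1.1 ht.1 e]; exact hs.2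
  have he := eq_Icc_of_connected_compact ⟨hne, hp⟩ hTc
  have hle : sInf T ≤ sSup T := by
    rw [he] at hne; exact nonempty_Icc.1 hne
  have h1 : sInf T ∈ T := by rw [he]; simp [hle]
  have h2 : sSup T ∈ T := by rw [he]; simp [hle]
  exact ⟨sInf T, sSup T, h1.1.1, hle, h2.1.2, he, by rw [← he, him]⟩

theorem Arc.sub_cont {J K : Set P} {y z : P} (h : Arc J y z) (hK : Cont K) (hs : K ⊆ J) :
    (∃ x, K = {x}) ∨ ∃ u v, Arc K u v := by
  obtain ⟨γ, a, b, hγ, hab, hi, rfl, rfl, rfl⟩ := h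
  obtain ⟨s, t, h1, h2, h3, -, rfl⟩ := sub_param hγ hi hK hs
  rcases h2.eq_or_lt with rfl | h2
  · exact Or.inl ⟨γ s, by simp⟩
  · exact Or.inr ⟨_, _, arc_image hγ hi h1 h2 h3⟩

theorem init_param {γ : ℝ → P} (hγ : Continuous γ) {a b : ℝ} (hab : a ≤ b)
    (hi : InjOn γ (Icc a b)) {K : Set P} (hK : Cont K) (hs : K ⊆ γ '' Icc a b) (ha : γ a ∈ K) :
    ∃ t, a ≤ t ∧ t ≤ b ∧ K = γ '' Icc a t := by
  obtain ⟨s, t, h1, h2, h3, h4, rfl⟩ := sub_param hγ hi hK hs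
  have : a ∈ Icc s t := by rw [← h4]; exact ⟨left_mem_Icc.2 hab, ha⟩
  have e : s = a := le_antisymm this.1 h1
  subst e
  exact ⟨t, h2, h3, rfl⟩

theorem Arc.init {J K : Set P} {y z : P} (h : Arc J y z) (hK : Cont K) (hs : K ⊆ J) (hy : y ∈ K) :
    K = {y} ∨ ∃ w, Arc K y w := by
  obtain ⟨γ, a, b, hγ, hab, hi, rfl, rfl, rfl⟩ := h
  obtain ⟨t, h2, h3, rfl⟩ := init_param hγ hab.le hi hK hs hy
  rcases h2.eq_or_lt with rfl | h2
  · exact Or.inl (by simp)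
  · exact Or.inr ⟨_, arc_image hγ hi le_rfl h2 h3⟩

theorem Arc.irred {J K : Set P} {y z : P} (h : Arc J y z) (hK : Cont K) (hs : K ⊆ J) (hy : y ∈ K)
    (hz : z ∈ K) : J ⊆ K := by
  obtain ⟨γ, a, b, hγ, hab, hi, rfl, rfl, rfl⟩ := h
  obtain ⟨t, h2, h3, rfl⟩ := init_param hγ hab.le hi hK hs hy
  obtain ⟨s, hs, e⟩ := hz
  have := hi ⟨hs.1, hs.2.trans h3⟩ (right_mem_Icc.2 hab.le) e
  exact image_mono (Icc_subset_Icc_right (this ▸ hs.2))

theorem Arc.chain {J K L : Set P} {y z : P} (h : Arc J y z) (hK : Cont K) (hs : K ⊆ J) (hy : y ∈ K)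
    (hL : Cont L) (hs' : L ⊆ J) (hy' : y ∈ L) : K ⊆ L ∨ L ⊆ K := by
  obtain ⟨γ, a, b, hγ, hab, hi, rfl, rfl, rfl⟩ := h
  obtain ⟨t, -, -, rfl⟩ := init_param hγ hab.le hi hK hs hy
  obtain ⟨s, -, -, rfl⟩ := init_param hγ hab.le hi hL hs' hy'
  rcases le_total t s with h | h
  · exact Or.inl (image_mono (Icc_subset_Icc_right h))
  · exact Or.inr (image_mono (Icc_subset_Icc_right h))

omit [MetricSpace P] in
theorem inter_param {γ : ℝ → P} {a b s t u : ℝ} (hi : InjOn γ (Icc a b)) (hs : a ≤ s) (hu : u ≤ b)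
    (h1 : s ≤ t) (h2 : t ≤ u) : γ '' Icc s t ∩ γ '' Icc t u ⊆ {γ t} := by
  rintro _ ⟨⟨x, hx, rfl⟩, ⟨x', hx', e⟩⟩
  have := hi ⟨by linarith [hx'.1], hx'.2.trans hu⟩ ⟨hs.trans hx.1, by linarith [hx.2]⟩ e
  subst this
  rw [le_antisymm hx.2 hx'.1]; rfl

theorem Arc.split {J : Set P} {y z w : P} (h : Arc J y z) (hw : w ∈ J) (hy : w ≠ y) (hz : w ≠ z) :
    ∃ A B, Arc A y w ∧ Arc B w z ∧ A ∪ B = J ∧ A ∩ B ⊆ {w} := by
  obtain ⟨γ, a, b, hγ, hab, hi, rfl, rfl, rfl⟩ := h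
  obtain ⟨t, ht, rfl⟩ := hw
  have h1 : a < t := lt_of_le_of_ne ht.1 fun e => hy (by rw [e])
  have h2 : t < b := lt_of_le_of_ne ht.2 fun e => hz (by rw [e])
  exact ⟨_, _, arc_image hγ hi le_rfl h1 ht.2, arc_image hγ hi ht.1 h2 le_rfl,
    by rw [← image_union, Icc_union_Icc_eq_Icc ht.1 ht.2], inter_param hi le_rfl le_rfl ht.1 ht.2⟩

theorem Arc.concat {A B : Set P} {y w z : P} (hA : Arc A y w) (hB : Arc B w z)
    (hAB : A ∩ B ⊆ {w}) : Arc (A ∪ B) y z := by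
  obtain ⟨γ, a, b, hγ, hab, hi, rfl, rfl, rfl⟩ := hA
  obtain ⟨δ, c, d, hδ, hcd, hj, e, rfl, rfl⟩ := hB
  classical
  refine ⟨fun t => if t ≤ b then γ t else δ (t - b + c), a, b + (d - c), ?_, by linarith, ?_,
    by simp [hab.le], ?_, ?_⟩
  · exact Continuous.if_le hγ (by fun_prop) continuous_id continuous_const
      (fun x hx => by have hx' : x = b := hx; subst hx'; simp [e])
  · have key : ∀ s t, s ∈ Icc a (b + (d - c)) → t ∈ Icc a (b + (d - c)) → s ≤ b → ¬ t ≤ b →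
        γ s ≠ δ (t - b + c) := by
      intro s t hs ht h1 h2 e'
      have ht' : t - b + c ∈ Icc c d := ⟨by linarith, by linarith [ht.2]⟩
      have : γ s ∈ ({γ b} : Set P) := hAB ⟨⟨s, ⟨hs.1, h1⟩, rfl⟩, ⟨_, ht', e'.symm⟩⟩
      have := hj ht' (left_mem_Icc.2 hcd.le) (by rw [← e', e]; exact this)
      linarith
    intro s hs t ht e'
    by_cases h1 : s ≤ b <;> by_cases h2 : t ≤ b <;> simp only [h1, h2, if_true, if_false] at e'
    · exact hi ⟨hs.1, h1⟩ ⟨ht.1, h2⟩ e'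
    · exact absurd e' (key s t hs ht h1 h2)
    · exact absurd e'.symm (key t s ht hs h2 h1)
    · have := hj (show s - b + c ∈ Icc c d from ⟨by linarith, by linarith [hs.2]⟩)
        (show t - b + c ∈ Icc c d from ⟨by linarith, by linarith [ht.2]⟩) e'
      linarith
  · have : ¬ b + (d - c) ≤ b := by linarith
    simp only [this, if_false]
    congr 1; ring
  · ext x
    constructor
    · rintro ⟨t, ht, rfl⟩
      by_cases h : t ≤ b
      · exact Or.inl ⟨t, ⟨ht.1, h⟩, by simp [h]⟩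
      · exact Or.inr ⟨t - b + c, ⟨by linarith, by linarith [ht.2]⟩, by simp [h]⟩
    · rintro (⟨t, ht, rfl⟩ | ⟨t, ht, rfl⟩)
      · exact ⟨t, ⟨ht.1, by linarith [ht.2]⟩, by simp [ht.2]⟩
      · refine ⟨t - c + b, ⟨by linarith [ht.1], by linarith [ht.2]⟩, ?_⟩
        by_cases h : t - c + b ≤ b
        · have : t = c := by linarith [ht.1]
          subst this
          simp [e]
        · simp only [h, if_false]
          congr 1; ring

theorem Arc.sub {J : Set P} {y z u v : P} (h : Arc J y z) (hu : u ∈ J) (hv : v ∈ J) (huv : u ≠ v) :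
    ∃ A, Arc A u v ∧ A ⊆ J := by
  obtain ⟨γ, a, b, hγ, hab, hi, rfl, rfl, rfl⟩ := h
  obtain ⟨s, hs, rfl⟩ := hu
  obtain ⟨t, ht, rfl⟩ := hv
  rcases lt_trichotomy s t with h | h | h
  · exact ⟨_, arc_image hγ hi hs.1 h ht.2, image_mono (Icc_subset_Icc hs.1 ht.2)⟩
  · exact absurd (by rw [h]) huv
  · exact ⟨_, (arc_image hγ hi ht.1 h hs.2).symm, image_mono (Icc_subset_Icc ht.1 hs.2)⟩

/-- of three points of an arc one lies between the others -/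
theorem Arc.middle {J M : Set P} {y z u v w : P} (h : Arc J y z) (hu : u ∈ J ∩ M) (hv : v ∈ J ∩ M)
    (hw : w ∈ J ∩ M) (huv : u ≠ v) (huw : u ≠ w) (hvw : v ≠ w) :
    ∃ m ∈ M, ∃ p ∈ M, ∃ q ∈ M, ∃ A B, Arc A m p ∧ Arc B m q ∧ A ∩ B ⊆ {m} ∧ A ⊆ J ∧ B ⊆ J := by
  obtain ⟨γ, a, b, hγ, hab, hi, rfl, rfl, rfl⟩ := h
  have key : ∀ r s t, r ∈ Icc a b → t ∈ Icc a b → r < s → s < t → γ r ∈ M → γ s ∈ M → γ t ∈ M →
      ∃ m ∈ M, ∃ p ∈ M, ∃ q ∈ M, ∃ A B, Arc A m p ∧ Arc B m q ∧ A ∩ B ⊆ {m} ∧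
        A ⊆ γ '' Icc a b ∧ B ⊆ γ '' Icc a b := fun r s t hr ht h1 h2 m1 m2 m3 =>
    ⟨_, m2, _, m1, _, m3, _, _, (arc_image hγ hi hr.1 h1 (h2.le.trans ht.2)).symm,
      arc_image hγ hi (hr.1.trans h1.le) h2 ht.2, inter_param hi hr.1 ht.2 h1.le h2.le,
      image_mono (Icc_subset_Icc hr.1 (h2.le.trans ht.2)),
      image_mono (Icc_subset_Icc (hr.1.trans h1.le) ht.2)⟩
  obtain ⟨⟨r, hr, rfl⟩, m1⟩ := hu
  obtain ⟨⟨s, hs, rfl⟩, m2⟩ := hv
  obtain ⟨⟨t, ht, rfl⟩, m3⟩ := hw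
  have n1 : r ≠ s := fun e => huv (by rw [e])
  have n2 : r ≠ t := fun e => huw (by rw [e])
  have n3 : s ≠ t := fun e => hvw (by rw [e])
  rcases lt_or_gt_of_ne n1 with h1 | h1 <;> rcases lt_or_gt_of_ne n2 with h2 | h2 <;>
    rcases lt_or_gt_of_ne n3 with h3 | h3
  · exact key r s t hr ht h1 h3 m1 m2 m3
  · exact key r t s hr hs h2 h3 m1 m3 m2
  · linarith
  · exact key t r s ht hs h2 h1 m3 m1 m2
  · exact key s r t hs ht h1 h2 m2 m1 m3
  · linarith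
  · exact key s t r hs hr h3 h2 m2 m3 m1
  · exact key t s r ht hr h3 h1 m3 m2 m1

/-- first hit of a closed set -/
theorem Arc.first_hit {J S : Set P} {y z : P} (h : Arc J y z) (hS : IsClosed S) (hy : y ∉ S)
    (hJS : (J ∩ S).Nonempty) : ∃ I u, Arc I y u ∧ I ⊆ J ∧ u ∈ S ∧ I ∩ S ⊆ {u} := by
  obtain ⟨I, hI, hIJ⟩ := exists_minC hS h.cont h.left_mem hJS
  rcases h.init hI.1 hIJ hI.2.1 with e | ⟨u, hu⟩
  · obtain ⟨x, hx, hxS⟩ := hI.2.2.1
    rw [e] at hx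
    exact absurd (hx ▸ hxS) hy
  have key : I ∩ S ⊆ {u} := by
    rintro v ⟨hv, hvS⟩
    by_contra hvu
    obtain ⟨A, B, hA, hB, e, hAB⟩ := hu.split hv (fun e => hy (e ▸ hvS)) hvu
    have : I ⊆ A := hI.2.2.2 A hA.cont hA.left_mem ⟨v, hA.right_mem, hvS⟩
      (e ▸ subset_union_left)
    exact hvu (hAB ⟨this hu.right_mem, hB.right_mem⟩).symm
  obtain ⟨x, hx⟩ := hI.2.2.1
  have e : x = u := key hx
  exact ⟨I, u, hu, hIJ, e ▸ hx.2, key⟩

theorem Arc.trans {A B : Set P} {y w z : P} (hA : Arc A y w) (hB : Arc B w z) (hyz : y ≠ z) :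
    ∃ J, Arc J y z ∧ J ⊆ A ∪ B := by
  by_cases hy : y ∈ B
  · obtain ⟨J, h1, h2⟩ := hB.sub hy hB.right_mem hyz
    exact ⟨J, h1, h2.trans subset_union_right⟩
  obtain ⟨I, u, hI, hIA, huB, hIB⟩ := hA.first_hit hB.cont.closed hy ⟨w, hA.right_mem, hB.left_mem⟩
  by_cases huz : u = z
  · subst huz
    exact ⟨I, hI, hIA.trans subset_union_left⟩
  obtain ⟨J, h1, h2⟩ := hB.sub huB hB.right_mem huz
  exact ⟨I ∪ J, hI.concat h1 ((inter_subset_inter_right _ h2).trans hIB), union_subset_union hIA h2⟩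

theorem Arc.end_eq {J : Set P} {y z w : P} (h : Arc J y z) (h' : Arc J y w) : z = w := by
  by_contra hne
  obtain ⟨A, B, hA, hB, e, hAB⟩ := h.split h'.right_mem h'.ne.symm (Ne.symm hne)
  have : J ⊆ A := h'.irred hA.cont (e ▸ subset_union_left) hA.left_mem hA.right_mem
  exact hne (hAB ⟨this h.right_mem, hB.right_mem⟩)

/-- a finite union of continua of diameter less than `ε` -/
def FinU (ε : ℝ) (K : Set P) : Prop :=
  ∃ 𝒮 : Set (Set P), 𝒮.Finite ∧ (∀ s ∈ 𝒮, Cont s ∧ diam s < ε) ∧ ⋃₀ 𝒮 = K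

theorem FinU.union {ε : ℝ} {K L : Set P} (hK : FinU ε K) (hL : FinU ε L) : FinU ε (K ∪ L) := by
  obtain ⟨𝒮, h1, h2, rfl⟩ := hK
  obtain ⟨𝒯, h3, h4, rfl⟩ := hL
  exact ⟨𝒮 ∪ 𝒯, h1.union h3, fun s hs => hs.elim (h2 s) (h4 s), sUnion_union _ _⟩

theorem finU_single {ε : ℝ} {K : Set P} (hK : Cont K) (h : diam K < ε) : FinU ε K :=
  ⟨{K}, finite_singleton _, fun s hs => by rw [hs]; exact ⟨hK, h⟩, sUnion_singleton _⟩

theorem FinU.mono {ε δ : ℝ} {K : Set P} (hK : FinU ε K) (h : ε ≤ δ) : FinU δ K := by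
  obtain ⟨𝒮, h1, h2, rfl⟩ := hK
  exact ⟨𝒮, h1, fun s hs => ⟨(h2 s hs).1, (h2 s hs).2.trans_le h⟩, rfl⟩

theorem diam_lt_of_ball {K : Set P} {x : P} {r ε : ℝ} (hr : 0 ≤ r) (h : K ⊆ ball x r)
    (hε : 2 * r < ε) : diam K < ε :=
  (diam_le_of_subset_closedBall hr (h.trans ball_subset_closedBall)).trans_lt hε

theorem Arc.finU {J : Set P} {y z : P} (h : Arc J y z) {ε : ℝ} (hε : 0 < ε) : FinU ε J := by
  obtain ⟨γ, a, b, hγ, hab, hi, rfl, rfl, rfl⟩ := h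
  have : ∀ t : ℝ, ∃ δ > 0, ∀ s, dist s t < δ → dist (γ s) (γ t) < ε / 3 := fun t =>
    Metric.continuous_iff.1 hγ t _ (by positivity)
  choose δ hδ hδ' using this
  obtain ⟨T, hT, hcov⟩ := (isCompact_Icc (a := a) (b := b)).elim_nhds_subcover
    (fun t => Icc (t - δ t / 2) (t + δ t / 2))
    (fun t _ => Icc_mem_nhds (by linarith [hδ t]) (by linarith [hδ t]))
  refine ⟨(fun t => γ '' Icc (max a (t - δ t / 2)) (min b (t + δ t / 2))) '' T,
    T.finite_toSet.image _, ?_, ?_⟩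
  · rintro _ ⟨t, ht, rfl⟩
    have ht' := hT t ht
    refine ⟨cont_image hγ ?_, diam_lt_of_ball (x := γ t) (r := ε / 3) (by positivity) ?_
      (by linarith)⟩
    · exact (max_le ht'.1 (by linarith [hδ t])).trans (le_min ht'.2 (by linarith [hδ t]))
    · rintro _ ⟨s, hs, rfl⟩
      refine hδ' t s ?_
      rw [Real.dist_eq, abs_lt]
      have h1 := (le_max_right _ _).trans hs.1
      have h2 := hs.2.trans (min_le_right _ _)
      constructor <;> linarith [hδ t]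
  · rw [sUnion_image]
    apply Subset.antisymm
    · refine iUnion₂_subset fun t _ => image_mono (Icc_subset_Icc (le_max_left _ _) (min_le_left _ _))
    · rintro _ ⟨s, hs, rfl⟩
      obtain ⟨t, ht, hst⟩ := mem_iUnion₂.1 (hcov hs)
      exact mem_iUnion₂.2 ⟨t, ht, s, ⟨max_le hs.1 hst.1, le_min hs.2 hst.2⟩, rfl⟩

/-- connectedness im kleinen -/
def LC (K : Set P) : Prop :=
  ∀ w ∈ K, ∀ δ > 0, ∃ N, Cont N ∧ w ∈ N ∧ N ⊆ K ∧ diam N < δ ∧ N ∈ 𝓝[K] w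

theorem lc_of_finU {K : Set P} (h : ∀ ε > 0, FinU ε K) : LC K := by
  intro w hw δ hδ
  obtain ⟨𝒮, h1, h2, rfl⟩ := h (δ / 3) (by positivity)
  obtain ⟨s₀, hs₀, hws₀⟩ := hw
  have hN : w ∈ ⋃₀ {s ∈ 𝒮 | w ∈ s} := ⟨s₀, ⟨hs₀, hws₀⟩, hws₀⟩
  refine ⟨⋃₀ {s ∈ 𝒮 | w ∈ s}, ⟨(h1.subset (sep_subset _ _)).isCompact_sUnion
    fun s hs => (h2 s hs.1).1.compact, ⟨w, hN⟩,
    isPreconnected_sUnion w _ (fun s hs => hs.2) fun s hs => (h2 s hs.1).1.pre⟩, hN,
    sUnion_mono (sep_subset _ _), diam_lt_of_ball (x := w) (r := δ / 3) (by positivity) ?_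
      (by linarith), ?_⟩
  · rintro x ⟨s, hs, hx⟩
    exact (dist_le_diam_of_mem (h2 s hs.1).1.compact.isBounded hx hs.2).trans_lt (h2 s hs.1).2
  · have hc : IsClosed (⋃₀ {s ∈ 𝒮 | w ∉ s}) := ((h1.subset (sep_subset _ _)).isCompact_sUnion
      fun s hs => (h2 s hs.1).1.compact).isClosed
    refine mem_nhdsWithin.2 ⟨_, hc.isOpen_compl, fun ⟨s, hs, h⟩ => hs.2 h, ?_⟩
    rintro x ⟨hx, s, hs, hxs⟩
    by_cases hws : w ∈ s
    · exact ⟨s, ⟨hs, hws⟩, hxs⟩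
    · exact absurd ⟨s, ⟨hs, hws⟩, hxs⟩ hx

theorem Arc.lc {J : Set P} {y z : P} (h : Arc J y z) : LC J := lc_of_finU fun _ hε => h.finU hε

end Pool.Agent.P.MP_ea3df5_lc
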