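import Pool.Agent.P.MP_ea3df5_lc.NLB

/-!
Coding arcs by canonical parametrisations; Borel sets of the smooth part.
-/

namespace Pool.Agent.P.MP_ea3df5_lc

open Set Metric Topology Filter TopologicalSpace

variable {P : Type*} [MetricSpace P] {X : Set P}

/-- extension of a path to the real line -/
noncomputable def ext (c : C(Icc (0 : ℝ) 1, P)) : ℝ → P := fun t => c (projIcc 0 1 zero_le_one t)

theorem ext_cont2 : Continuous fun q : C(Icc (0 : ℝ) 1, P) × ℝ => ext q.1 q.2 :=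
  continuous_eval.comp (continuous_fst.prodMk
    ((continuous_projIcc (h := zero_le_one)).comp continuous_snd))

theorem ext_cont (c : C(Icc (0 : ℝ) 1, P)) : Continuous (ext c) :=
  c.continuous.comp continuous_projIcc

theorem ext_cont_left (t : ℝ) : Continuous fun c : C(Icc (0 : ℝ) 1, P) => ext c t :=
  ext_cont2.comp (continuous_id.prodMk continuous_const)

theorem ext_coe (c : C(Icc (0 : ℝ) 1, P)) (t : Icc (0 : ℝ) 1) : ext c t = c t := by
  simp [ext]

theorem ext_mem (c : C(Icc (0 : ℝ) 1, P)) (t : ℝ) : ext c t ∈ ext c '' Icc 0 1 :=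
  ⟨_, (projIcc 0 1 zero_le_one t).2, ext_coe c _⟩

/-- image of an interval as a point of the hyperspace -/
noncomputable def seg (c : C(Icc (0 : ℝ) 1, P)) (a b : ℝ) : NonemptyCompacts P :=
  NonemptyCompacts.map (ext c) (ext_cont c) ⟨⟨uIcc a b, isCompact_uIcc⟩, nonempty_uIcc⟩

theorem coe_seg (c : C(Icc (0 : ℝ) 1, P)) {a b : ℝ} (h : a ≤ b) :
    (seg c a b : Set P) = ext c '' Icc a b := by
  rw [← uIcc_of_le h]; rfl

theorem seg_cont (a b : ℝ) : Continuous fun c : C(Icc (0 : ℝ) 1, P) => seg c a b :=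
  Continuous.nonemptyCompacts_map' (g := fun c : C(Icc (0 : ℝ) 1, P) => ext c) continuous_const
    ext_cont2

theorem exists_ext {γ : ℝ → P} (hγ : Continuous γ) :
    ∃ c : C(Icc (0 : ℝ) 1, P), ∀ t ∈ Icc (0 : ℝ) 1, ext c t = γ t :=
  ⟨⟨fun t => γ t, hγ.comp continuous_subtype_val⟩, fun t ht => ext_coe _ ⟨t, ht⟩⟩

variable [SecondCountableTopology P] [Nonempty P]

theorem continuous_nu : Continuous fun B : NonemptyCompacts P => nu (B : Set P) := by
  refine (LipschitzWith.of_le_add_mul 2 fun A B => ?_).continuous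
  have := nu_le_add (A := A) B.nonempty (dist_nonneg (x := B) (y := A)) fun x hx => near_of_dist hx
  rw [dist_comm] at this
  simpa using this

theorem Arc.exists_code {J : Set P} {y z : P} (h : Arc J y z) :
    ∃ c : C(Icc (0 : ℝ) 1, P), Can (ext c) ∧ ext c 0 = y ∧ ext c 1 = z ∧ ext c '' Icc 0 1 = J := by
  obtain ⟨γ, h1, h2, h3, h4, h5⟩ := h.exists_can
  obtain ⟨c, hc⟩ := exists_ext h1
  have m0 : (0 : ℝ) ∈ Icc (0 : ℝ) 1 := left_mem_Icc.2 zero_le_one
  have m1 : (1 : ℝ) ∈ Icc (0 : ℝ) 1 := right_mem_Icc.2 zero_le_one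
  have him : ∀ t ∈ Icc (0 : ℝ) 1, ext c '' Icc 0 t = γ '' Icc 0 t := fun t ht =>
    image_congr fun s hs => hc s ⟨hs.1, hs.2.trans ht.2⟩
  refine ⟨c, ⟨fun s hs t ht e => h2.1 hs ht (by rwa [hc s hs, hc t ht] at e), fun t ht => ?_⟩,
    (hc 0 m0).trans h3, (hc 1 m1).trans h4, (him 1 m1).trans h5⟩
  rw [him t ht, him 1 m1, hc 0 m0]
  exact h2.2 t ht

variable [MeasurableSpace C(Icc (0 : ℝ) 1, P)] [BorelSpace C(Icc (0 : ℝ) 1, P)]

theorem meas_can : Measurable fun c : C(Icc (0 : ℝ) 1, P) => Can (ext c) := by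
  refine Measurable.and ?_ ?_
  · have : (fun c : C(Icc (0 : ℝ) 1, P) => InjOn (ext c) (Icc 0 1)) = fun c => ∀ k : ℕ,
        c ∉ Prod.fst '' {q : C(Icc (0 : ℝ) 1, P) × (Icc (0 : ℝ) 1 × Icc (0 : ℝ) 1) |
          1 / ((k : ℝ) + 1) ≤ dist q.2.1 q.2.2 ∧ q.1 q.2.1 = q.1 q.2.2} := by
      funext c
      refine propext ⟨?_, fun h s hs t ht e => ?_⟩
      · rintro h k ⟨⟨c', s, t⟩, ⟨h1, h2⟩, rfl⟩
        have := Subtype.ext (h s.2 t.2 (by rw [ext_coe, ext_coe]; exact h2))
        dsimp only at h1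
        rw [this, dist_self] at h1
        exact absurd h1 (not_le.2 (by positivity))
      · by_contra hne
        obtain ⟨k, hk⟩ := exists_nat_one_div_lt (dist_pos.2 hne)
        exact h k ⟨(c, ⟨s, hs⟩, ⟨t, ht⟩), ⟨hk.le,
          (ext_coe c ⟨s, hs⟩).symm.trans (e.trans (ext_coe c ⟨t, ht⟩))⟩, rfl⟩
    rw [this]
    refine Measurable.forall fun k => (MeasurableSet.mem (IsClosed.measurableSet
      (isClosedMap_fst_of_compactSpace _ ?_))).not
    exact (isClosed_le continuous_const ((continuous_fst.comp continuous_snd).dist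
      (continuous_snd.comp continuous_snd))).inter (isClosed_eq
      (continuous_eval.comp (continuous_fst.prodMk (continuous_fst.comp continuous_snd)))
      (continuous_eval.comp (continuous_fst.prodMk (continuous_snd.comp continuous_snd))))
  · refine measurableSet_setOfPred.1 (IsClosed.measurableSet ?_)
    simp only [ofPred_forall]
    refine isClosed_iInter fun t => isClosed_iInter fun ht => ?_
    have h1 := continuous_nu.comp (seg_cont (P := P) 0 t)
    have h2 := continuous_nu.comp (seg_cont (P := P) 0 0)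
    have h3 := continuous_nu.comp (seg_cont (P := P) 0 1)
    simp only [Function.comp_def, coe_seg _ ht.1, coe_seg _ le_rfl, coe_seg _ zero_le_one,
      Icc_self, image_singleton] at h1 h2 h3
    exact isClosed_eq h1 ((continuous_const.mul h2).add (continuous_const.mul h3))

variable [CompleteSpace P] [MeasurableSpace P] [BorelSpace P]

/-- quantification over arcs of which at most two start at each point -/
theorem meas_arc {Φ : P → Set P → P → Prop} {Ψ : C(Icc (0 : ℝ) 1, P) → Prop} (hΨ : Measurable Ψ)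
    (h : ∀ c, Can (ext c) → (Ψ c ↔ Φ (ext c 0) (ext c '' Icc 0 1) (ext c 1)))
    (h2 : ∀ y J₁ z₁ J₂ z₂ J₃ z₃, Arc J₁ y z₁ → Φ y J₁ z₁ → Arc J₂ y z₂ → Φ y J₂ z₂ →
      Arc J₃ y z₃ → Φ y J₃ z₃ → J₁ = J₂ ∨ J₁ = J₃ ∨ J₂ = J₃) :
    (Measurable fun q : P × P => ∃ J, Arc J q.1 q.2 ∧ Φ q.1 J q.2) ∧
      Measurable fun y => ∃ J z, Arc J y z ∧ Φ y J z := by
  have key : ∀ a b c : C(Icc (0 : ℝ) 1, P), Can (ext a) ∧ Ψ a → Can (ext b) ∧ Ψ b →
      Can (ext c) ∧ Ψ c → ext a 0 = ext b 0 → ext a 0 = ext c 0 → a = b ∨ a = c ∨ b = c := by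
    have u : ∀ a b : C(Icc (0 : ℝ) 1, P), Can (ext a) → Can (ext b) → ext a 0 = ext b 0 →
        ext a '' Icc 0 1 = ext b '' Icc 0 1 → a = b := fun a b ha hb e0 e =>
      ContinuousMap.ext fun t => by
        rw [← ext_coe, ← ext_coe]
        exact ha.unique (ext_cont a) (ext_cont b) hb e0 e t t.2
    intro a b c ha hb hc e1 e2
    rcases h2 (ext a 0) _ _ _ _ _ _ (ha.1.arc (ext_cont a)) ((h a ha.1).1 ha.2)
      (e1 ▸ hb.1.arc (ext_cont b)) (e1 ▸ (h b hb.1).1 hb.2)
      (e2 ▸ hc.1.arc (ext_cont c)) (e2 ▸ (h c hc.1).1 hc.2) with e | e | e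
    · exact Or.inl (u a b ha.1 hb.1 e1 e)
    · exact Or.inr (Or.inl (u a c ha.1 hc.1 e2 e))
    · exact Or.inr (Or.inr (u b c hb.1 hc.1 (e1.symm.trans e2) e))
  have m0 := (ext_cont_left (P := P) 0).measurable
  have m1 := (ext_cont_left (P := P) 1).measurable
  constructor
  · have := meas_ex2 (meas_can.and hΨ) (m0.prodMk m1) fun a b c ha hb hc e1 e2 =>
      key a b c ha hb hc (congrArg Prod.fst e1) (congrArg Prod.fst e2)
    convert this using 2 with q
    constructor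
    · rintro ⟨J, h1, h2⟩
      obtain ⟨c, c1, c2, c3, c4⟩ := h1.exists_code
      exact ⟨c, ⟨c1, (h c c1).2 (by rw [c2, c3, c4]; exact h2)⟩, Prod.ext c2 c3⟩
    · rintro ⟨c, hc, rfl⟩
      exact ⟨_, hc.1.arc (ext_cont c), (h c hc.1).1 hc.2⟩
  · have := meas_ex2 (meas_can.and hΨ) m0 key
    convert this using 2 with y
    constructor
    · rintro ⟨J, z, h1, h2⟩
      obtain ⟨c, c1, c2, c3, c4⟩ := h1.exists_code
      exact ⟨c, ⟨c1, (h c c1).2 (by rw [c2, c3, c4]; exact h2)⟩, c2⟩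
    · rintro ⟨c, hc, rfl⟩
      exact ⟨_, _, hc.1.arc (ext_cont c), (h c hc.1).1 hc.2⟩

variable [MeasurableSpace (NonemptyCompacts P)] [BorelSpace (NonemptyCompacts P)]

omit [Nonempty P] [MeasurableSpace C(Icc (0 : ℝ) 1, P)] [BorelSpace C(Icc (0 : ℝ) 1, P)] in
theorem meas_G (hX : IsGδ X) (hM : Moore P) : Measurable fun w => w ∈ G X := by
  have h1 := (nl_borel hX hM).1.comp (NonemptyCompacts.continuous_singleton (α := P)).measurable
  have := hX.measurableSet.mem.and h1.not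
  convert this using 2 with w
  simp only [G, Function.comp, NonemptyCompacts.coe_singleton, singleton_subset_iff, mem_ofPred_eq]
  tauto

omit [SecondCountableTopology P] [Nonempty P] [CompleteSpace P] [MeasurableSpace P]
  [BorelSpace P] in
theorem meas_imX (hX : IsGδ X) :
    Measurable fun c : C(Icc (0 : ℝ) 1, P) => ext c '' Icc 0 1 ⊆ X := by
  have := (meas_subset hX).comp (seg_cont (P := P) 0 1).measurable
  simpa only [Function.comp_def, coe_seg _ zero_le_one] using this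

omit [Nonempty P] [MeasurableSpace P] [BorelSpace P] in
theorem meas_imG (hX : IsGδ X) (hM : Moore P) :
    Measurable fun c : C(Icc (0 : ℝ) 1, P) => ext c '' Icc 0 1 ⊆ G X := by
  have hpos : ∀ k : ℕ, (0 : ℝ) < 1 / ((k : ℝ) + 1) := fun k => by positivity
  have := (meas_imX hX).and (Measurable.exists fun k : ℕ => Measurable.forall fun a : ℚ =>
    (measurable_const (a := (a : ℝ) ∈ Icc (0 : ℝ) 1)).imp ((nl_borel hX hM).1.comp
      (seg_cont (P := P) (a - 1 / ((k : ℝ) + 1)) (a + 1 / ((k : ℝ) + 1))).measurable).not)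
  convert this using 2 with c
  have hsub : ∀ S, ext c '' S ⊆ ext c '' Icc 0 1 := by
    rintro S _ ⟨t, -, rfl⟩; exact ext_mem c t
  have hle : ∀ (a : ℝ) (k : ℕ), a - 1 / ((k : ℝ) + 1) ≤ a + 1 / ((k : ℝ) + 1) := fun a k => by
    linarith [hpos k]
  simp only [Function.comp, coe_seg _ (hle _ _)]
  constructor
  · intro h
    refine ⟨h.trans G_sub, ?_⟩
    have : ∀ t : ℝ, ∃ δ > 0, ¬ NL X (ext c '' Icc (t - δ) (t + δ)) := by
      intro t
      by_contra hcon
      push Not at hcon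
      refine (h (ext_mem c t)).2 (nl_of_approx fun ε hε => ?_)
      obtain ⟨δ, hδ, hδ'⟩ := Metric.continuous_iff.1 (ext_cont c) t ε hε
      refine ⟨ext c '' Icc (t - δ / 2) (t + δ / 2), singleton_subset_iff.2
        (mem_image_of_mem _ ⟨by linarith, by linarith⟩), ?_, hcon (δ / 2) (by positivity)⟩
      rintro _ ⟨s, hs, rfl⟩
      rw [thickening_singleton]
      refine hδ' s ?_
      rw [Real.dist_eq, abs_lt]
      constructor <;> linarith [hs.1, hs.2]
    choose δ hδ hδ' using this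
    obtain ⟨η, hη, hη'⟩ := lebesgue_number_lemma_of_metric (isCompact_Icc (a := (0 : ℝ)) (b := 1))
      (c := fun t => ball t (δ t)) (fun _ => isOpen_ball)
      fun t _ => mem_iUnion.2 ⟨t, mem_ball_self (hδ t)⟩
    obtain ⟨k, hk⟩ := exists_nat_one_div_lt hη
    refine ⟨k, fun a ha hh => ?_⟩
    obtain ⟨t, ht⟩ := hη' a ha
    refine hδ' t (hh.2.mono (cont_image (ext_cont c) (hle _ _)).nonempty (image_mono fun s hs => ?_)
      (cont_image (ext_cont c) (by linarith [hδ t])) ((hsub _).trans (h.trans G_sub)))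
    have : s ∈ ball t (δ t) := ht (by
      rw [mem_ball, Real.dist_eq, abs_lt]
      constructor <;> linarith [hs.1, hs.2])
    rw [mem_ball, Real.dist_eq, abs_lt] at this
    constructor <;> linarith [this.1, this.2]
  · rintro ⟨h1, k, hk⟩ _ ⟨t, ht, rfl⟩
    obtain ⟨a, a1, a2⟩ := exists_rat_btwn (show max 0 (t - 1 / ((k : ℝ) + 1)) <
      min 1 (t + 1 / ((k : ℝ) + 1)) from max_lt (lt_min one_pos (by linarith [ht.1, hpos k]))
        (lt_min (by linarith [ht.2, hpos k]) (by linarith [hpos k])))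
    rw [max_lt_iff] at a1
    rw [lt_min_iff] at a2
    exact mem_G (cont_image (ext_cont c) (hle a k)) ((hsub _).trans h1)
      (fun h => hk a ⟨a1.1.le, a2.1.le⟩ ⟨(hsub _).trans h1, h⟩)
      ⟨t, ⟨by linarith [a2.2], by linarith [a1.2]⟩, rfl⟩

theorem meas_bad (hX : IsGδ X) (hM : Moore P) (r : ℝ) (hr : 0 < r) (t : P) :
    Measurable fun w => Bad X r w ∧ En X r w t := by
  have m1 := ((nl_borel hX hM).2.1 r t).comp (seg_cont (P := P) 0 1).measurable
  have m2 := Measurable.forall fun q : ℚ => (measurable_const (a := (q : ℝ) ∈ Ico (0 : ℝ) 1)).imp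
    ((nl_borel hX hM).1.comp (seg_cont (P := P) 0 q).measurable).not
  have := (meas_arc (Φ := fun w J z => MinBad X w J z ∧ diam J < r ∧ En X r w t) (m1.and m2)
    ?_ ?_).2
  · convert this using 2 with w
    constructor
    · rintro ⟨⟨J, z, h1, h2, h3⟩, h4⟩
      obtain ⟨J', z', k1, k2⟩ := h1.exists_minBad h2
      exact ⟨J', z', k1.1, k1, (diam_mono k2 h1.1.cont.compact.isBounded).trans_lt h3, h4⟩
    · rintro ⟨J, z, -, h1, h2, h3⟩
      exact ⟨⟨J, z, h1.ja, h1.2.2.1, h2⟩, h3⟩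
  · intro c hc
    have ha := hc.arc (ext_cont c)
    simp only [Function.comp, coe_seg _ zero_le_one]
    constructor
    · rintro ⟨⟨h1, h2, h3, h4⟩, h5⟩
      refine ⟨⟨ha, h1, h2, fun K k1 k2 k3 k4 k5 => ?_⟩, h3, h4 _ ha.left_mem⟩
      obtain ⟨s, s1, s2, rfl⟩ := init_param (ext_cont c) zero_le_one hc.1 k1 k3 k2
      obtain ⟨q, q1, q2⟩ := exists_rat_btwn (lt_of_le_of_ne s2 fun e => k4 (by rw [e]))
      have q0 : (0 : ℝ) ≤ q := s1.trans q1.le
      have hX' : ext c '' Icc 0 q ⊆ X := (image_mono (Icc_subset_Icc_right q2.le)).trans h1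
      refine h5 q ⟨q0, q2⟩ ?_
      rw [coe_seg _ q0]
      exact ⟨hX', k5.mono k1.nonempty (image_mono (Icc_subset_Icc_right q1.le))
        (cont_image (ext_cont c) q0) hX'⟩
    · rintro ⟨⟨-, h1, h2, h3⟩, h4, h5⟩
      refine ⟨⟨h1, h2, h4, fun b hb => (ha.ec h1 hb ha.left_mem r hr).trans h5⟩, fun q hq => ?_⟩
      rw [coe_seg _ hq.1]
      refine fun h => h3 _ (cont_image (ext_cont c) hq.1) ⟨0, left_mem_Icc.2 hq.1, rfl⟩
        (image_mono (Icc_subset_Icc_right hq.2.le)) (fun hh => ?_) h.2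
      obtain ⟨s, hs, e⟩ := hh ha.right_mem
      have := hc.1 ⟨hs.1, hs.2.trans hq.2.le⟩ (right_mem_Icc.2 zero_le_one) e
      linarith [hs.2, hq.2]
  · have key : ∀ {y J z J' z'}, MinBad X y J z → MinBad X y J' z' → J ⊆ J' → J = J' := by
      intro y J z J' z' h h' hs
      by_contra hne
      exact h'.2.2.2 J h.1.cont h.1.left_mem hs (fun hh => hne (hs.antisymm hh)) h.2.2.1
    intro y J₁ z₁ J₂ z₂ J₃ z₃ _ h1 _ h2 _ h3
    rcases h1.1.ja.three h2.1.ja h3.1.ja with (h | h) | (h | h) | (h | h)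
    · exact Or.inl (key h1.1 h2.1 h)
    · exact Or.inl (key h2.1 h1.1 h).symm
    · exact Or.inr (Or.inl (key h1.1 h3.1 h))
    · exact Or.inr (Or.inl (key h3.1 h1.1 h).symm)
    · exact Or.inr (Or.inr (key h2.1 h3.1 h))
    · exact Or.inr (Or.inr (key h3.1 h2.1 h).symm)

theorem meas_reach (hX : IsGδ X) (hM : Moore P) {Q : P → Prop} (hQ : Measurable Q) :
    Measurable fun y => ∃ q : ℚ, ∃ A w, Arc A y w ∧ A ⊆ G X ∧ nu A = q ∧ Q w := by
  refine Measurable.exists fun q => ?_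
  have m1 := ((continuous_nu.comp (seg_cont (P := P) 0 1)).measurable.eq_const (q : ℝ))
  refine (meas_arc (Φ := fun _ A w => A ⊆ G X ∧ nu A = q ∧ Q w) ((meas_imG hX hM).and
    (m1.and (hQ.comp (ext_cont_left 1).measurable))) ?_ ?_).2
  · intro c _
    simp only [Function.comp, coe_seg _ zero_le_one]
  · intro y J₁ z₁ J₂ z₂ J₃ z₃ a1 h1 a2 h2 a3 h3
    rcases (a1.ja h1.1).three (a2.ja h2.1) (a3.ja h3.1) with (h | h) | (h | h) | (h | h)
    · exact Or.inl (nu_eq a1.cont h (h1.2.1.trans h2.2.1.symm))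
    · exact Or.inl (nu_eq a2.cont h (h2.2.1.trans h1.2.1.symm)).symm
    · exact Or.inr (Or.inl (nu_eq a1.cont h (h1.2.1.trans h3.2.1.symm)))
    · exact Or.inr (Or.inl (nu_eq a3.cont h (h3.2.1.trans h1.2.1.symm)).symm)
    · exact Or.inr (Or.inr (nu_eq a2.cont h (h2.2.1.trans h3.2.1.symm)))
    · exact Or.inr (Or.inr (nu_eq a3.cont h (h3.2.1.trans h2.2.1.symm)).symm)

/-- points whose leaf has no short non-atriodic arcs -/
def Yp (X : Set P) (y : P) : Prop := y ∈ G X ∧ ∃ r > 0, ∀ w, Lf X y w → ¬ Bad X r w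

/-- the set `Yp` is Borel and the chain relation is smooth on its complement -/
theorem smooth_part (hX : IsGδ X) (hM : Moore P) :
    Measurable (Yp X) ∧ Red (fun y => y ∈ X ∧ ¬ Yp X y) (Ec X) := by
  obtain ⟨-, m2, T, hT, hT'⟩ := nl_borel hX hM
  have : Countable T := hT.to_subtype
  have hpos : ∀ k : ℕ, (0 : ℝ) < 1 / ((k : ℝ) + 1) := fun k => by positivity
  set B : ℕ × T → P → Prop := fun k y => (y ∈ X ∧ NL X {y} ∧ En X (1 / ((k.1 : ℝ) + 1)) y k.2) ∨
    ∃ q : ℚ, ∃ A w, Arc A y w ∧ A ⊆ G X ∧ nu A = q ∧ Bad X (1 / ((k.1 : ℝ) + 1)) w ∧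
      En X (1 / ((k.1 : ℝ) + 1)) w k.2 with hB
  have Bm : ∀ k, Measurable (B k) := by
    intro k
    refine Measurable.or ?_ (meas_reach hX hM (meas_bad hX hM _ (hpos k.1) k.2))
    have := (m2 (1 / ((k.1 : ℝ) + 1)) k.2).comp
      (NonemptyCompacts.continuous_singleton (α := P)).measurable
    convert this using 2 with y
    have := hpos k.1
    simp only [Function.comp, NonemptyCompacts.coe_singleton, singleton_subset_iff, diam_singleton,
      mem_singleton_iff, forall_eq]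
    tauto
  have B1 : ∀ k y, B k y → En X (1 / ((k.1 : ℝ) + 1)) y k.2 := by
    rintro k y (h | ⟨q, A, w, h1, h2, -, -, h5⟩)
    · exact h.2.2
    · exact (h1.ec (h2.trans G_sub) h1.left_mem h1.right_mem _ (hpos _)).trans h5
  have B2 : ∀ n t t' y, B (n, t) y → En X (1 / ((n : ℝ) + 1)) y t'.1 → B (n, t') y := by
    rintro n t t' y (h | ⟨q, A, w, h1, h2, h3, h4, -⟩) he
    · exact Or.inl ⟨h.1, h.2.1, he⟩
    · exact Or.inr ⟨q, A, w, h1, h2, h3, h4,
        (h1.ec (h2.trans G_sub) h1.right_mem h1.left_mem _ (hpos _)).trans he⟩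
  have B3 : ∀ y ∈ X, ¬ Yp X y ↔ ∀ n, ∃ t, B (n, t) y := by
    intro y hy
    constructor
    · intro h n
      by_cases hG : y ∈ G X
      · have : ∀ r > 0, ∃ w, Lf X y w ∧ Bad X r w := by
          intro r hr
          by_contra hcon
          push Not at hcon
          exact h ⟨hG, r, hr, hcon⟩
        obtain ⟨w, A, q, h1, h2, h3, J, z, h4, h5, h6⟩ := rat_reach hG this (hpos n)
        obtain ⟨t, ht, ht'⟩ := hT' _ J h4.1.cont.compact h5 h6
        exact ⟨⟨t, ht⟩, Or.inr ⟨q, A, w, h1, h2, h3, ⟨J, z, h4, h5, h6⟩, ht' w h4.1.left_mem⟩⟩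
      · have hnl : NL X {y} := by
          by_contra h'
          exact hG ⟨hy, h'⟩
        obtain ⟨t, ht, ht'⟩ := hT' _ {y} isCompact_singleton hnl
          (by rw [diam_singleton]; exact hpos n)
        exact ⟨⟨t, ht⟩, Or.inl ⟨hy, hnl, ht' y rfl⟩⟩
    · rintro h ⟨hG, r, hr, H⟩
      obtain ⟨n, hn⟩ := exists_nat_one_div_lt hr
      obtain ⟨t, h | ⟨q, A, w, h1, h2, -, h4, -⟩⟩ := h n
      · exact hG.2 h.2.1
      · exact H w (Or.inr ⟨A, h1, h2⟩) (h4.mono hn.le)
  constructor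
  · have := hX.measurableSet.mem.and
      (Measurable.forall fun n => Measurable.exists fun t => Bm (n, t)).not
    convert this using 2 with y
    constructor
    · intro h
      exact ⟨h.1.1, fun h' => (B3 y h.1.1).2 h' h⟩
    · rintro ⟨h1, h2⟩
      by_contra h
      exact h2 ((B3 y h1).1 h)
  · refine red_smooth B Bm fun x y hx hy => ⟨fun h k => ⟨fun hk => ?_, fun hk => ?_⟩,
      fun h ε hε => ?_⟩
    · obtain ⟨t, ht⟩ := (B3 y hy.1).1 hy.2 k.1
      exact B2 _ t k.2 y ht ((h _ (hpos _)).symm.trans (B1 k x hk))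
    · obtain ⟨t, ht⟩ := (B3 x hx.1).1 hx.2 k.1
      exact B2 _ t k.2 x ht ((h _ (hpos _)).trans (B1 k y hk))
    · obtain ⟨n, hn⟩ := exists_nat_one_div_lt hε
      obtain ⟨t, ht⟩ := (B3 x hx.1).1 hx.2 n
      exact ((B1 _ x ht).trans (B1 _ y ((h _).1 ht)).symm).mono hn.le

end Pool.Agent.P.MP_ea3df5_lc
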