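import Mathlib

/-!
Elementary continuum theory: cut-wire lemma, boundary bumping, weak triods.
-/

namespace Pool.Agent.P.MP_ea3df5_lc

open Set Metric

variable {P : Type*} [MetricSpace P]

/-- a continuum -/
def Cont (K : Set P) : Prop := IsCompact K ∧ IsConnected K

theorem Cont.compact {K : Set P} (h : Cont K) : IsCompact K := h.1
theorem Cont.conn {K : Set P} (h : Cont K) : IsConnected K := h.2
theorem Cont.pre {K : Set P} (h : Cont K) : IsPreconnected K := h.2.2
theorem Cont.nonempty {K : Set P} (h : Cont K) : K.Nonempty := h.2.1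
theorem Cont.closed {K : Set P} (h : Cont K) : IsClosed K := h.1.isClosed

theorem cont_singleton (x : P) : Cont ({x} : Set P) := ⟨isCompact_singleton, isConnected_singleton⟩

theorem Cont.union {K L : Set P} (hK : Cont K) (hL : Cont L) (h : (K ∩ L).Nonempty) :
    Cont (K ∪ L) := ⟨hK.1.union hL.1, IsConnected.union h hK.2 hL.2⟩

theorem Cont.union' {K L : Set P} (hK : Cont K) (hL : Cont L) {x : P} (h1 : x ∈ K) (h2 : x ∈ L) :
    Cont (K ∪ L) := hK.union hL ⟨x, h1, h2⟩

/-- component of a point -/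
abbrev comp (S : Set P) (a : P) : Set P := connectedComponentIn S a

theorem comp_sub (S : Set P) (a : P) : comp S a ⊆ S := connectedComponentIn_subset S a

theorem mem_comp {S : Set P} {a : P} (h : a ∈ S) : a ∈ comp S a := mem_connectedComponentIn h

theorem sub_comp {S C : Set P} {a : P} (hC : IsPreconnected C) (ha : a ∈ C) (h : C ⊆ S) :
    C ⊆ comp S a := hC.subset_connectedComponentIn ha h

theorem comp_cont {S : Set P} {a : P} (hS : IsCompact S) (ha : a ∈ S) : Cont (comp S a) := by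
  refine ⟨?_, isConnected_connectedComponentIn_iff.2 ha⟩
  have hcl : closure (comp S a) ⊆ comp S a :=
    sub_comp isPreconnected_connectedComponentIn.closure (subset_closure (mem_comp ha))
      (closure_minimal (comp_sub S a) hS.isClosed)
  exact hS.of_isClosed_subset (closure_subset_iff_isClosed.1 hcl) (comp_sub S a)

/-- `D` is a maximal connected subset of `S` -/
def Mx (D S : Set P) : Prop := ∀ C, IsPreconnected C → D ⊆ C → C ⊆ S → C ⊆ D

theorem mx_comp {S : Set P} {a : P} (ha : a ∈ S) : Mx (comp S a) S := fun _ hC h1 h2 =>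
  sub_comp hC (h1 (mem_comp ha)) h2

theorem Mx.mono {D S T : Set P} (h : Mx D S) (hT : T ⊆ S) : Mx D T := fun C hC h1 h2 =>
  h C hC h1 (h2.trans hT)

theorem mx_of_subset {D S : Set P} (h : S ⊆ D) : Mx D S := fun _ _ _ h2 => h2.trans h

theorem Mx.comp_eq {D S : Set P} (h : Mx D S) (hD : IsPreconnected D) (hDS : D ⊆ S) {a : P}
    (ha : a ∈ D) : comp S a = D :=
  Subset.antisymm (h _ isPreconnected_connectedComponentIn (sub_comp hD ha hDS) (comp_sub _ _))
    (sub_comp hD ha hDS)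

theorem comp_disjoint {S : Set P} {a b : P} (h : b ∉ comp S a) (hb : b ∈ S) :
    Disjoint (comp S a) (comp S b) := by
  rw [Set.disjoint_left]
  intro x hx hx'
  apply h
  have h1 := connectedComponentIn_eq hx
  have h2 := connectedComponentIn_eq hx'
  have : b ∈ comp S b := mem_comp hb
  unfold comp at *
  rw [h1, ← h2]; exact this

/-- a connected set covered by two disjoint closed sets lies in one of them -/
theorem sub_of_closed {C A B : Set P} (hC : IsPreconnected C) (hA : IsClosed A) (hB : IsClosed B)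
    (hcov : C ⊆ A ∪ B) (hd : Disjoint (C ∩ A) B) {x : P} (hx : x ∈ C) (hxA : x ∈ A) : C ⊆ A := by
  rcases isPreconnected_iff_subset_of_disjoint_closed.1 hC A B hA hB hcov (by
    rw [← inter_assoc]; exact hd.inter_eq) with h | h
  · exact h
  · exact absurd (h hx) (Set.disjoint_left.1 hd ⟨hx, hxA⟩)

/-- cut-wire lemma -/
theorem cut_wire {K B : Set P} {a : P} (hK : IsCompact K) (ha : a ∈ K) (hB : IsClosed B)
    (hd : Disjoint (comp K a) B) :
    ∃ W V : Set P, IsClosed W ∧ IsClosed V ∧ Disjoint W V ∧ W ∪ V = K ∧ a ∈ W ∧ Disjoint W B := by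
  have : CompactSpace K := isCompact_iff_compactSpace.1 hK
  have hc := connectedComponent_eq_iInter_isClopen (⟨a, ha⟩ : K)
  have hB' : IsCompact ((↑) ⁻¹' B : Set K) := (hB.preimage continuous_subtype_val).isCompact
  have hcov : ((↑) ⁻¹' B : Set K) ∩
      ⋂ s : {s : Set K // IsClopen s ∧ (⟨a, ha⟩ : K) ∈ s}, (s : Set K) = ∅ := by
    rw [← hc]
    ext x
    simp only [mem_inter_iff, mem_preimage, mem_empty_iff_false, iff_false, not_and]
    intro hx hx'
    refine Set.disjoint_left.1 hd ?_ hx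
    unfold comp
    rw [connectedComponentIn_eq_image ha]
    exact mem_image_of_mem _ hx'
  obtain ⟨u, hu⟩ := hB'.elim_finite_subfamily_closed _ (fun s => s.2.1.1) hcov
  set Z : Set K := ⋂ s ∈ u, (s : Set K) with hZ
  have hZc : IsClopen Z := isClopen_biInter_finset fun s _ => s.2.1
  have haZ : (⟨a, ha⟩ : K) ∈ Z := mem_iInter₂.2 fun s _ => s.2.2
  have hcl : ∀ T : Set K, IsClosed T → IsClosed ((↑) '' T : Set P) := fun T hT =>
    (hT.isCompact.image continuous_subtype_val).isClosed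
  refine ⟨(↑) '' Z, (↑) '' Zᶜ, hcl _ hZc.1, hcl _ hZc.compl.1, ?_, ?_, ⟨_, haZ, rfl⟩, ?_⟩
  · exact (disjoint_image_iff Subtype.val_injective).2 disjoint_compl_right
  · rw [← image_union, union_compl_self, image_univ, Subtype.range_coe]
  · rw [Set.disjoint_left]
    rintro _ ⟨x, hx, rfl⟩ hxB
    have : x ∈ ((↑) ⁻¹' B : Set K) ∩ Z := ⟨hxB, hx⟩
    rw [hu] at this; exact this

/-- boundary bumping -/
theorem enlarge {A K U : Set P} (hA : Cont A) (hK : Cont K) (hAK : A ⊆ K) (hne : ¬ K ⊆ A)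
    (hU : IsOpen U) (hAU : A ⊆ U) :
    ∃ A', Cont A' ∧ A ⊆ A' ∧ ¬ A' ⊆ A ∧ A' ⊆ K ∧ A' ⊆ U := by
  obtain ⟨z, hzK, hzA⟩ := not_subset.1 hne
  obtain ⟨δ, hδ, hδU⟩ := hA.compact.exists_cthickening_subset_open
    (hU.inter (isOpen_compl_singleton (x := z)))
    (subset_inter hAU (subset_compl_singleton_iff.2 hzA))
  obtain ⟨a, ha⟩ := hA.nonempty
  have hK' : IsCompact (K ∩ cthickening δ A) := hK.compact.inter_right isClosed_cthickening
  have hAK' : A ⊆ K ∩ cthickening δ A := subset_inter hAK (self_subset_cthickening A)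
  refine ⟨comp (K ∩ cthickening δ A) a, comp_cont hK' (hAK' ha), sub_comp hA.pre ha hAK', ?_,
    (comp_sub _ _).trans inter_subset_left,
    ((comp_sub _ _).trans inter_subset_right).trans (hδU.trans inter_subset_left)⟩
  intro hsub
  obtain ⟨W, V, hW, hV, hWV, hun, haW, hWB⟩ := cut_wire hK' (hAK' ha)
    (B := (thickening δ A)ᶜ) isOpen_thickening.isClosed_compl
    (disjoint_compl_right_iff_subset.2 (hsub.trans (self_subset_thickening hδ A)))
  have hKW : K ⊆ W := by
    refine sub_of_closed hK.pre hW (B := V ∪ (thickening δ A)ᶜ)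
      (hV.union isOpen_thickening.isClosed_compl) ?_ ?_ (hAK ha) haW
    · intro x hx
      by_cases hx' : x ∈ thickening δ A
      · have : x ∈ W ∪ V := by rw [hun]; exact ⟨hx, thickening_subset_cthickening δ A hx'⟩
        rcases this with h | h
        · exact Or.inl h
        · exact Or.inr (Or.inl h)
      · exact Or.inr (Or.inr hx')
    · exact Disjoint.mono_left inter_subset_right (disjoint_union_right.2 ⟨hWV, hWB⟩)
  have : z ∈ K ∩ cthickening δ A := by rw [← hun]; exact Or.inl (hKW hzK)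
  exact (hδU this.2).2 rfl

/-- a closed piece of a connected union meeting the rest in one point is connected -/
theorem piece {A B : Set P} {x : P} (hA : IsClosed A) (hB : IsClosed B)
    (hAB : IsPreconnected (A ∪ B)) (hx : A ∩ B ⊆ {x}) (hxA : x ∈ A) : IsPreconnected A := by
  have key : ∀ u v : Set P, IsClosed u → IsClosed v → A ⊆ u ∪ v → A ∩ (u ∩ v) = ∅ → x ∈ u →
      A ⊆ u := by
    intro u v hu hv hcov hd hxu
    have h := sub_of_closed hAB (A := (A ∩ u) ∪ B) (B := A ∩ v) ((hA.inter hu).union hB)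
      (hA.inter hv) (by
        rintro y (hy | hy)
        · rcases hcov hy with h | h
          · exact Or.inl (Or.inl ⟨hy, h⟩)
          · exact Or.inr ⟨hy, h⟩
        · exact Or.inl (Or.inr hy)) (by
        rw [Set.disjoint_left]
        rintro y ⟨-, hy | hy⟩ ⟨hyA, hyv⟩
        · have : y ∈ A ∩ (u ∩ v) := ⟨hyA, hy.2, hyv⟩
          rw [hd] at this; exact this
        · have hyx : y = x := hx ⟨hyA, hy⟩
          subst hyx
          have : y ∈ A ∩ (u ∩ v) := ⟨hyA, hxu, hyv⟩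
          rw [hd] at this; exact this) (Or.inl hxA) (Or.inl ⟨hxA, hxu⟩)
    intro y hy
    rcases h (Or.inl hy) with h | h
    · exact h.2
    · have hyx : y = x := hx ⟨hy, h⟩
      rw [hyx]; exact hxu
  rw [isPreconnected_iff_subset_of_disjoint_closed]
  intro u v hu hv hcov hd
  rcases hcov hxA with h | h
  · exact Or.inl (key u v hu hv hcov hd h)
  · exact Or.inr (key v u hv hu (by rwa [union_comm]) (by rwa [inter_comm v u]) h)

/-- a directed intersection of continua is a continuum -/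
theorem cont_sInter {c : Set (Set P)} (hne : c.Nonempty) (hc : ∀ K ∈ c, Cont K)
    (hd : DirectedOn (· ⊇ ·) c) : Cont (⋂₀ c) := by
  obtain ⟨K₀, hK₀⟩ := hne
  have : Nonempty c := ⟨⟨K₀, hK₀⟩⟩
  have hcl : IsClosed (⋂₀ c) := isClosed_sInter fun K hK => (hc K hK).closed
  have hcp : IsCompact (⋂₀ c) := (hc K₀ hK₀).compact.of_isClosed_subset hcl (sInter_subset_of_mem hK₀)
  have hn : (⋂₀ c).Nonempty := IsCompact.nonempty_sInter_of_directed_nonempty_isCompact_isClosed hd
    (fun K hK => (hc K hK).nonempty) (fun K hK => (hc K hK).compact) (fun K hK => (hc K hK).closed)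
  have hopen : ∀ O : Set P, IsOpen O → ⋂₀ c ⊆ O → ∃ K ∈ c, K ⊆ O := by
    intro O hO hsub
    have := exists_subset_nhds_of_isCompact' (V := fun K : c => (K : Set P))
      (directedOn_iff_directed.1 hd) (fun K => (hc K K.2).compact) (fun K => (hc K K.2).closed)
      (U := O) (by
        rw [← sInter_eq_iInter]
        exact fun x hx => hO.mem_nhds (hsub hx))
    obtain ⟨K, hK⟩ := this
    exact ⟨K, K.2, hK⟩
  refine ⟨hcp, hn, ?_⟩
  rw [isPreconnected_iff_subset_of_fully_disjoint_closed hcl]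
  intro u v hu hv hcov huv
  obtain ⟨U, V, hU, hV, huU, hvV, hUV⟩ := SeparatedNhds.of_isCompact_isCompact
    (hcp.inter_right hu) (hcp.inter_right hv)
    (huv.mono inter_subset_right inter_subset_right)
  obtain ⟨K, hK, hKO⟩ := hopen (U ∪ V) (hU.union hV) (fun x hx => by
    rcases hcov hx with h | h
    · exact Or.inl (huU ⟨hx, h⟩)
    · exact Or.inr (hvV ⟨hx, h⟩))
  rcases (hc K hK).pre.subset_or_subset hU hV hUV hKO with h | h
  · left
    intro x hx
    rcases hcov hx with h' | h'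
    · exact h'
    · exact absurd (hvV ⟨hx, h'⟩) (Set.disjoint_left.1 hUV (h (hx K hK)))
  · right
    intro x hx
    rcases hcov hx with h' | h'
    · exact absurd (h (hx K hK)) (Set.disjoint_left.1 hUV (huU ⟨hx, h'⟩))
    · exact h'

/-- `I` is a minimal continuum joining `p` to `S` -/
def MinC (p : P) (S I : Set P) : Prop :=
  Cont I ∧ p ∈ I ∧ (I ∩ S).Nonempty ∧
    ∀ K, Cont K → p ∈ K → (K ∩ S).Nonempty → K ⊆ I → I ⊆ K

theorem exists_minC {p : P} {S L : Set P} (hS : IsClosed S) (hL : Cont L) (hp : p ∈ L)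
    (hLS : (L ∩ S).Nonempty) : ∃ I, MinC p S I ∧ I ⊆ L := by
  obtain ⟨I, hIL, hI⟩ := zorn_superset_nonempty {K : Set P | Cont K ∧ p ∈ K ∧ (K ∩ S).Nonempty}
    (fun c hc hch hne => by
      have : Nonempty c := hne.to_subtype
      have hd : DirectedOn (· ⊇ ·) c := IsChain.directedOn hch.symm
      refine ⟨⋂₀ c, ⟨cont_sInter hne (fun K hK => (hc hK).1) hd, fun K hK => (hc hK).2.1, ?_⟩,
        fun K hK => sInter_subset_of_mem hK⟩
      have := IsCompact.nonempty_iInter_of_directed_nonempty_isCompact_isClosed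
        (fun K : c => (K : Set P) ∩ S)
        (fun a b => by
          obtain ⟨z, hz, h1, h2⟩ := hd a a.2 b b.2
          exact ⟨⟨z, hz⟩, inter_subset_inter_left _ h1, inter_subset_inter_left _ h2⟩)
        (fun K => (hc K.2).2.2) (fun K => (hc K.2).1.compact.inter_right hS)
        (fun K => (hc K.2).1.closed.inter hS)
      obtain ⟨x, hx⟩ := this
      rw [mem_iInter] at hx
      obtain ⟨K₀⟩ : Nonempty c := inferInstance
      exact ⟨x, fun K hK => (hx ⟨K, hK⟩).1, (hx K₀).2⟩) L ⟨hL, hp, hLS⟩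
  exact ⟨I, ⟨hI.1.1, hI.1.2.1, hI.1.2.2, fun K h1 h2 h3 h4 => hI.2 ⟨h1, h2, h3⟩ h4⟩, hIL⟩

/-- a set containing three continua with a common point, none inside the union of the others -/
def Triodic (S : Set P) : Prop :=
  ∃ A B C : Set P, Cont A ∧ Cont B ∧ Cont C ∧ (A ∩ B ∩ C).Nonempty ∧
    ¬ A ⊆ B ∪ C ∧ ¬ B ⊆ A ∪ C ∧ ¬ C ⊆ A ∪ B ∧ A ⊆ S ∧ B ⊆ S ∧ C ⊆ S

theorem Triodic.mono {S T : Set P} (h : Triodic S) (hST : S ⊆ T) : Triodic T := by
  obtain ⟨A, B, C, h1, h2, h3, h4, h5, h6, h7, h8, h9, h10⟩ := h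
  exact ⟨A, B, C, h1, h2, h3, h4, h5, h6, h7, h8.trans hST, h9.trans hST, h10.trans hST⟩

/-- three continua growing out of a common core in disjoint directions -/
theorem triodic_of_core {D A B C : Set P} (hA : Cont A) (hB : Cont B) (hC : Cont C)
    (hD : D.Nonempty) (hDA : D ⊆ A) (hDB : D ⊆ B) (hDC : D ⊆ C)
    (hAB : A ∩ B ⊆ D) (hAC : A ∩ C ⊆ D) (hBC : B ∩ C ⊆ D)
    (nA : ¬ A ⊆ D) (nB : ¬ B ⊆ D) (nC : ¬ C ⊆ D) : Triodic (A ∪ B ∪ C) := by
  obtain ⟨d, hd⟩ := hD
  refine ⟨A, B, C, hA, hB, hC, ⟨d, ⟨hDA hd, hDB hd⟩, hDC hd⟩, fun h => nA fun x hx => ?_,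
    fun h => nB fun x hx => ?_, fun h => nC fun x hx => ?_,
    subset_union_left.trans subset_union_left, subset_union_right.trans subset_union_left,
    subset_union_right⟩
  · rcases h hx with h | h
    · exact hAB ⟨hx, h⟩
    · exact hAC ⟨hx, h⟩
  · rcases h hx with h | h
    · exact hAB ⟨h, hx⟩
    · exact hBC ⟨hx, h⟩
  · rcases h hx with h | h
    · exact hAC ⟨h, hx⟩
    · exact hBC ⟨h, hx⟩

/-- the intersection of two continua with atriodic union has at most two components -/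
theorem two_comp {A B : Set P} {a : P} (hA : Cont A) (hB : Cont B) (hT : ¬ Triodic (A ∪ B))
    (ha : a ∈ A ∩ B) : ∃ E, IsCompact E ∧ IsPreconnected E ∧ Disjoint (comp (A ∩ B) a) E ∧
      A ∩ B = comp (A ∩ B) a ∪ E := by
  have hS : IsCompact (A ∩ B) := hA.compact.inter_right hB.closed
  by_cases h1 : A ∩ B ⊆ comp (A ∩ B) a
  · exact ⟨∅, isCompact_empty, isPreconnected_empty, disjoint_empty _,
      by rw [union_empty]; exact h1.antisymm (comp_sub _ _)⟩
  obtain ⟨b, hb, hba⟩ := not_subset.1 h1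
  refine ⟨comp (A ∩ B) b, (comp_cont hS hb).compact, (comp_cont hS hb).pre, comp_disjoint hba hb,
    Subset.antisymm ?_ (union_subset (comp_sub _ _) (comp_sub _ _))⟩
  by_contra h2
  obtain ⟨c, hc, hc'⟩ := not_subset.1 h2
  rw [mem_union, not_or] at hc'
  have d12 := comp_disjoint hba hb
  have d13 := comp_disjoint hc'.1 hc
  have d23 := comp_disjoint hc'.2 hc
  have c1 := comp_cont hS ha
  have c2 := comp_cont hS hb
  have c3 := comp_cont hS hc
  have sB : ∀ x, comp (A ∩ B) x ⊆ B := fun x => (comp_sub _ _).trans inter_subset_right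
  have sA : ∀ x, comp (A ∩ B) x ⊆ A := fun x => (comp_sub _ _).trans inter_subset_left
  obtain ⟨C1, k1, s1, n1, b1, u1⟩ := enlarge c1 hB (sB a) (fun h => hba (h hb.2))
    (c2.closed.union c3.closed).isOpen_compl
    (subset_compl_iff_disjoint_right.2 (disjoint_union_right.2 ⟨d12, d13⟩))
  have e1 := disjoint_union_right.1 (subset_compl_iff_disjoint_right.1 u1)
  obtain ⟨C2, k2, s2, n2, b2, u2⟩ := enlarge c2 hB (sB b) (fun h => hc'.2 (h hc.2))
    (k1.closed.union c3.closed).isOpen_compl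
    (subset_compl_iff_disjoint_right.2 (disjoint_union_right.2 ⟨e1.1.symm, d23⟩))
  have e2 := disjoint_union_right.1 (subset_compl_iff_disjoint_right.1 u2)
  obtain ⟨C3, k3, s3, n3, b3, u3⟩ := enlarge c3 hB (sB c)
    (fun h => Set.disjoint_left.1 d13 (mem_comp ha) (h ha.2))
    (k1.closed.union k2.closed).isOpen_compl
    (subset_compl_iff_disjoint_right.2 (disjoint_union_right.2 ⟨e1.2.symm, e2.2.symm⟩))
  have e3 := disjoint_union_right.1 (subset_compl_iff_disjoint_right.1 u3)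
  have nA : ∀ {x : P} {C : Set P}, x ∈ A ∩ B → Cont C → comp (A ∩ B) x ⊆ C →
      ¬ C ⊆ comp (A ∩ B) x → C ⊆ B → ¬ A ∪ C ⊆ A := fun hx hC s n b h =>
    n (mx_comp hx _ hC.pre s (subset_inter (subset_union_right.trans h) b))
  have key : ∀ {C C' : Set P}, Disjoint C C' → (A ∪ C) ∩ (A ∪ C') ⊆ A := by
    rintro C C' hd x ⟨h | h, h' | h'⟩
    · exact h
    · exact h
    · exact h'
    · exact absurd h' (Set.disjoint_left.1 hd h)
  refine hT ((triodic_of_core (D := A) (hA.union' k1 ha.1 (s1 (mem_comp ha)))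
    (hA.union' k2 hb.1 (s2 (mem_comp hb))) (hA.union' k3 hc.1 (s3 (mem_comp hc))) hA.nonempty
    subset_union_left subset_union_left subset_union_left (key e2.1.symm) (key e3.1.symm)
    (key e3.2.symm) (nA ha k1 s1 n1 b1) (nA hb k2 s2 n2 b2) (nA hc k3 s3 n3 b3)).mono ?_)
  exact union_subset (union_subset (union_subset_union_right _ b1) (union_subset_union_right _ b2))
    (union_subset_union_right _ b3)

theorem two_comp' {A B D : Set P} (hA : Cont A) (hB : Cont B) (hT : ¬ Triodic (A ∪ B))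
    (hD : Cont D) (hDA : D ⊆ A) (hDB : D ⊆ B) (hm : Mx D (A ∩ B)) :
    ∃ E, IsCompact E ∧ IsPreconnected E ∧ Disjoint D E ∧ A ∩ B = D ∪ E := by
  obtain ⟨d, hd⟩ := hD.nonempty
  have := two_comp hA hB hT (a := d) ⟨hDA hd, hDB hd⟩
  rwa [hm.comp_eq hD.pre (subset_inter hDA hDB) hd] at this

/-- three independent directions at a continuum give a triod -/
theorem three_dir {D A B C : Set P} (hD : Cont D) (hA : Cont A) (hB : Cont B) (hC : Cont C)
    (hDA : D ⊆ A) (hDB : D ⊆ B) (hDC : D ⊆ C)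
    (hAB : Mx D (A ∩ B)) (hAC : Mx D (A ∩ C)) (hBC : Mx D (B ∩ C))
    (nA : ¬ A ⊆ D) (nB : ¬ B ⊆ D) (nC : ¬ C ⊆ D) : Triodic (A ∪ B ∪ C) := by
  by_contra hT
  obtain ⟨E1, k1, -, d1, e1⟩ := two_comp' hA hB (fun h => hT (h.mono subset_union_left))
    hD hDA hDB hAB
  obtain ⟨E2, k2, -, d2, e2⟩ := two_comp' hA hC (fun h => hT (h.mono
    (union_subset_union_left _ subset_union_left))) hD hDA hDC hAC
  obtain ⟨E3, k3, -, d3, e3⟩ := two_comp' hB hC (fun h => hT (h.mono
    (union_subset_union_left _ subset_union_right))) hD hDB hDC hBC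
  have hU : IsOpen (E1 ∪ E2 ∪ E3)ᶜ := ((k1.union k2).union k3).isClosed.isOpen_compl
  have hDU : D ⊆ (E1 ∪ E2 ∪ E3)ᶜ := subset_compl_iff_disjoint_right.2
    (disjoint_union_right.2 ⟨disjoint_union_right.2 ⟨d1, d2⟩, d3⟩)
  obtain ⟨A', a1, a2, a3, a4, a5⟩ := enlarge hD hA hDA nA hU hDU
  obtain ⟨B', b1, b2, b3, b4, b5⟩ := enlarge hD hB hDB nB hU hDU
  obtain ⟨C', c1, c2, c3, c4, c5⟩ := enlarge hD hC hDC nC hU hDU
  refine hT ((triodic_of_core a1 b1 c1 hD.nonempty a2 b2 c2 ?_ ?_ ?_ a3 b3 c3).mono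
    (union_subset_union (union_subset_union a4 b4) c4))
  · intro x hx
    have : x ∈ D ∪ E1 := by rw [← e1]; exact ⟨a4 hx.1, b4 hx.2⟩
    exact this.resolve_right fun h => a5 hx.1 (Or.inl (Or.inl h))
  · intro x hx
    have : x ∈ D ∪ E2 := by rw [← e2]; exact ⟨a4 hx.1, c4 hx.2⟩
    exact this.resolve_right fun h => a5 hx.1 (Or.inl (Or.inr h))
  · intro x hx
    have : x ∈ D ∪ E3 := by rw [← e3]; exact ⟨b4 hx.1, c4 hx.2⟩
    exact this.resolve_right fun h => b5 hx.1 (Or.inr h)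

theorem MinC.eq_of_subset {p : P} {S I J : Set P} (hI : MinC p S I) (hJ : MinC p S J)
    (h : I ⊆ J) : I = J := h.antisymm (hJ.2.2.2 I hI.1 hI.2.1 hI.2.2.1 h)

theorem MinC.step {p : P} {S I J : Set P} (hI : MinC p S I) (hJ : MinC p S J) (hne : I ≠ J)
    (hT : ¬ Triodic (I ∪ J)) :
    Disjoint (comp (I ∩ J) p) S ∧ ∃ V, Cont V ∧ comp (I ∩ J) p ⊆ V ∧ V ⊆ J ∧
      V ∩ I ⊆ comp (I ∩ J) p ∧ ¬ V ⊆ I := by
  have hp : p ∈ I ∩ J := ⟨hI.2.1, hJ.2.1⟩
  have hD := comp_cont (hI.1.compact.inter_right hJ.1.closed) hp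
  have hJD : ¬ J ⊆ comp (I ∩ J) p := fun h =>
    hne (hJ.eq_of_subset hI (h.trans ((comp_sub _ _).trans inter_subset_left))).symm
  refine ⟨?_, ?_⟩
  · by_contra h
    exact hJD (hJ.2.2.2 _ hD (mem_comp hp) (not_disjoint_iff_nonempty_inter.1 h)
      ((comp_sub _ _).trans inter_subset_right))
  · obtain ⟨E, k, -, d, e⟩ := two_comp hI.1 hJ.1 hT hp
    obtain ⟨V, v1, v2, v3, v4, v5⟩ := enlarge hD hJ.1 ((comp_sub _ _).trans inter_subset_right) hJD
      k.isClosed.isOpen_compl (subset_compl_iff_disjoint_right.2 d)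
    have hVI : V ∩ I ⊆ comp (I ∩ J) p := by
      intro x hx
      have : x ∈ comp (I ∩ J) p ∪ E := by rw [← e]; exact ⟨hx.2, v4 hx.1⟩
      exact this.resolve_right (v5 hx.1)
    exact ⟨V, v1, v2, v4, hVI, fun h => v3 fun x hx => hVI ⟨hx, h hx⟩⟩

theorem MinC.aux {p : P} {S I J K : Set P} (hI : MinC p S I) (hJ : MinC p S J) (hK : MinC p S K)
    (hIJ : I ≠ J) (hIK : I ≠ K) (hT : ¬ Triodic (I ∪ J ∪ K)) (h23 : comp (J ∩ K) p ⊆ I) :
    False := by
  have sI : I ⊆ I ∪ J ∪ K := subset_union_left.trans subset_union_left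
  have sJ : J ⊆ I ∪ J ∪ K := subset_union_right.trans subset_union_left
  have sK : K ⊆ I ∪ J ∪ K := subset_union_right
  have hT' : ∀ {A : Set P}, A ⊆ I ∪ J ∪ K → ¬ Triodic A := fun h h' => hT (h'.mono h)
  obtain ⟨dJ, V, v1, v2, v3, v4, v5⟩ := hI.step hJ hIJ (hT' (union_subset sI sJ))
  obtain ⟨dK, W, w1, w2, w3, w4, w5⟩ := hI.step hK hIK (hT' (union_subset sI sK))
  set D2 := comp (I ∩ J) p with hD2
  set D3 := comp (I ∩ K) p with hD3
  have p2 : p ∈ D2 := mem_comp ⟨hI.2.1, hJ.2.1⟩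
  have p3 : p ∈ D3 := mem_comp ⟨hI.2.1, hK.2.1⟩
  have c2 : Cont D2 := comp_cont (hI.1.compact.inter_right hJ.1.closed) ⟨hI.2.1, hJ.2.1⟩
  have c3 : Cont D3 := comp_cont (hI.1.compact.inter_right hK.1.closed) ⟨hI.2.1, hK.2.1⟩
  have s2 : D2 ⊆ I := (comp_sub _ _).trans inter_subset_left
  have s3 : D3 ⊆ I := (comp_sub _ _).trans inter_subset_left
  have cD : Cont (D2 ∪ D3) := c2.union' c3 p2 p3
  have sD : D2 ∪ D3 ⊆ I := union_subset s2 s3
  have nm : ¬ Mx (D2 ∪ D3) ((D2 ∪ D3 ∪ V) ∩ (D2 ∪ D3 ∪ W)) := by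
    intro hm
    refine hT' ?_ (three_dir cD hI.1 (cD.union' v1 (Or.inl p2) (v2 p2))
      (cD.union' w1 (Or.inl p2) (w2 p3)) sD subset_union_left subset_union_left
      (mx_of_subset ?_) (mx_of_subset ?_) hm ?_ ?_ ?_)
    · exact union_subset (union_subset sI (union_subset (sD.trans sI) (v3.trans sJ)))
        (union_subset (sD.trans sI) (w3.trans sK))
    · rintro x ⟨hx, h | h⟩
      · exact h
      · exact Or.inl (v4 ⟨h, hx⟩)
    · rintro x ⟨hx, h | h⟩
      · exact h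
      · exact Or.inr (w4 ⟨h, hx⟩)
    · intro h
      obtain ⟨x, hx, hxS⟩ := hI.2.2.1
      rcases h hx with h | h
      · exact Set.disjoint_left.1 dJ h hxS
      · exact Set.disjoint_left.1 dK h hxS
    · exact fun h => v5 ((subset_union_right.trans h).trans sD)
    · exact fun h => w5 ((subset_union_right.trans h).trans sD)
  obtain ⟨H, kH, pH, dH, eH⟩ := two_comp v1 w1 (hT' (union_subset (v3.trans sJ) (w3.trans sK)))
    (a := p) ⟨v2 p2, w2 p3⟩
  have sD' : comp (V ∩ W) p ⊆ D2 := fun x hx =>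
    v4 ⟨(comp_sub _ _ hx).1, h23 (sub_comp isPreconnected_connectedComponentIn
      (mem_comp (show p ∈ V ∩ W from ⟨v2 p2, w2 p3⟩)) ((comp_sub _ _).trans (inter_subset_inter v3 w3)) hx)⟩
  have sH : H ⊆ V ∩ W := by rw [eH]; exact subset_union_right
  have hHI : H ∩ I ⊆ D2 ∩ D3 := fun x hx => ⟨v4 ⟨(sH hx.1).1, hx.2⟩, w4 ⟨(sH hx.1).2, hx.2⟩⟩
  unfold Mx at nm
  push Not at nm
  obtain ⟨C, pC, c1, c2', c3'⟩ := nm
  have hcov : C ⊆ (D2 ∪ D3) ∪ H := by
    intro x hx
    rcases c2' hx with ⟨h | h, h' | h'⟩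
    · exact Or.inl h
    · exact Or.inl h
    · exact Or.inl h'
    · have : x ∈ comp (V ∩ W) p ∪ H := by rw [← eH]; exact ⟨h, h'⟩
      rcases this with h | h
      · exact Or.inl (Or.inl (sD' h))
      · exact Or.inr h
  have nHI : ¬ H ⊆ I := fun h => c3' fun x hx => (hcov hx).elim id fun h' =>
    Or.inl (hHI ⟨h', h h'⟩).1
  have hmeet : ((D2 ∪ D3) ∩ H).Nonempty := by
    by_contra h
    refine c3' (sub_of_closed pC cD.closed kH.isClosed hcov ?_ (c1 (Or.inl p2)) (Or.inl p2))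
    exact Disjoint.mono_left inter_subset_right
      (disjoint_iff_inter_eq_empty.2 (not_nonempty_iff_eq_empty.1 h))
  obtain ⟨E, kE, pE, dE, eE⟩ := two_comp c2 c3 (hT' (sD.trans sI)) (a := p) ⟨p2, p3⟩
  have hHE : H ∩ I ⊆ E := by
    intro x hx
    have : x ∈ comp (D2 ∩ D3) p ∪ E := by rw [← eE]; exact hHI hx
    refine this.resolve_left fun h => Set.disjoint_left.1 dH ?_ hx.1
    exact sub_comp isPreconnected_connectedComponentIn (mem_comp (show p ∈ D2 ∩ D3 from ⟨p2, p3⟩))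
      ((comp_sub _ _).trans (inter_subset_inter v2 w2)) h
  obtain ⟨y, hy, hyH⟩ := hmeet
  have hyE : y ∈ E := hHE ⟨hyH, sD hy⟩
  have cE : Cont E := ⟨kE, ⟨y, hyE⟩, pE⟩
  have cH : Cont H := ⟨kH, ⟨y, hyH⟩, pH⟩
  have sE : E ⊆ D2 ∩ D3 := by rw [eE]; exact subset_union_right
  have npE : p ∉ E := Set.disjoint_left.1 dE (mem_comp ⟨p2, p3⟩)
  refine hT' ?_ (three_dir cE c2 c3 (cE.union' cH hyE hyH) (sE.trans inter_subset_left)
    (sE.trans inter_subset_right) subset_union_left ?_ (mx_of_subset ?_) (mx_of_subset ?_)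
    (fun h => npE (h p2)) (fun h => npE (h p3)) ?_)
  · exact union_subset (sD.trans sI) (union_subset ((sE.trans inter_subset_left).trans (s2.trans sI))
      ((sH.trans inter_subset_left).trans (v3.trans sJ)))
  · intro C' pC' h1 h2
    refine sub_of_closed pC' kE.isClosed
      (comp_cont (c2.compact.inter_right c3.closed) ⟨p2, p3⟩).closed ?_ ?_ (h1 hyE) hyE
    · rw [union_comm, ← eE]; exact h2
    · exact Disjoint.mono_left inter_subset_right dE.symm
  · rintro x ⟨hx, h | h⟩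
    · exact h
    · exact hHE ⟨h, s2 hx⟩
  · rintro x ⟨hx, h | h⟩
    · exact h
    · exact hHE ⟨h, s3 hx⟩
  · exact fun h => nHI ((subset_union_right.trans h).trans ((sE.trans inter_subset_left).trans s2))

/-- at most two minimal continua from a point to a set inside an atriodic set -/
theorem MinC.two {p : P} {S I J K : Set P} (hI : MinC p S I) (hJ : MinC p S J) (hK : MinC p S K)
    (hT : ¬ Triodic (I ∪ J ∪ K)) : I = J ∨ I = K ∨ J = K := by
  by_contra h
  push Not at h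
  obtain ⟨hIJ, hIK, hJK⟩ := h
  have pp : p ∈ I ∩ J ∩ K := ⟨⟨hI.2.1, hJ.2.1⟩, hK.2.1⟩
  have c0 := comp_cont ((hI.1.compact.inter_right hJ.1.closed).inter_right hK.1.closed) pp
  have s0 : ∀ {A : Set P}, I ∩ J ∩ K ⊆ A → comp (I ∩ J ∩ K) p ⊆ comp A p := fun h =>
    sub_comp c0.pre (mem_comp pp) ((comp_sub _ _).trans h)
  have n1 : ¬ comp (J ∩ K) p ⊆ I := hI.aux hJ hK hIJ hIK hT
  have n2 : ¬ comp (I ∩ K) p ⊆ J := hJ.aux hI hK hIJ.symm hJK (by rwa [union_comm J I])
  have n3 : ¬ comp (I ∩ J) p ⊆ K := hK.aux hI hJ hIK.symm hJK.symm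
    (by rwa [union_assoc, union_comm K])
  refine hT ((three_dir c0
    (comp_cont (hI.1.compact.inter_right hJ.1.closed) pp.1)
    (comp_cont (hI.1.compact.inter_right hK.1.closed) ⟨pp.1.1, pp.2⟩)
    (comp_cont (hJ.1.compact.inter_right hK.1.closed) ⟨pp.1.2, pp.2⟩)
    (s0 inter_subset_left) (s0 fun x hx => ⟨hx.1.1, hx.2⟩) (s0 fun x hx => ⟨hx.1.2, hx.2⟩)
    ((mx_comp pp).mono fun x hx => ⟨comp_sub _ _ hx.1, (comp_sub _ _ hx.2).2⟩)
    ((mx_comp pp).mono fun x hx => ⟨comp_sub _ _ hx.1, (comp_sub _ _ hx.2).2⟩)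
    ((mx_comp pp).mono fun x hx =>
      ⟨⟨(comp_sub _ _ hx.1).1, (comp_sub _ _ hx.2).1⟩, (comp_sub _ _ hx.2).2⟩)
    (fun h => n3 (h.trans fun x hx => (comp_sub _ _ hx).2))
    (fun h => n2 (h.trans fun x hx => (comp_sub _ _ hx).1.2))
    (fun h => n1 (h.trans fun x hx => (comp_sub _ _ hx).1.1))).mono ?_)
  rintro x ((hx | hx) | hx)
  · exact Or.inl (Or.inl (comp_sub _ _ hx).1)
  · exact Or.inl (Or.inl (comp_sub _ _ hx).1)
  · exact Or.inl (Or.inr (comp_sub _ _ hx).1)

end Pool.Agent.P.MP_ea3df5_lc
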