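import Mathlib

/-!
Descriptive set theory: two-to-one projections and reductions to eventual equality.
-/

namespace Pool.Agent.P.MP_ea3df5_lc

open Set MeasureTheory symmDiff

section two

variable {V W : Type*} [MeasurableSpace V] [StandardBorelSpace V] [MeasurableSpace W]
  [StandardBorelSpace W]

theorem meas_ex1 {A : W → Prop} {p : W → V} (hA : Measurable A) (hp : Measurable p)
    (h1 : ∀ a b, A a → A b → p a = p b → a = b) : Measurable fun v => ∃ a, A a ∧ p a = v :=
  measurableSet_setOfPred.1 (MeasurableSet.image_of_measurable_injOn hA.setOf hp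
    fun a ha b hb e => h1 a b ha hb e)

theorem split2 {A : W → Prop} {p : W → V} (hA : Measurable A) (hp : Measurable p)
    (h2 : ∀ a b c, A a → A b → A c → p a = p b → p a = p c → a = b ∨ a = c ∨ b = c) :
    ∃ B : W → Prop, Measurable B ∧ (∀ a b, A a ∧ B a → A b ∧ B b → p a = p b → a = b) ∧
      ∀ a b, A a ∧ ¬ B a → A b ∧ ¬ B b → p a = p b → a = b := by
  have he := measurableEmbedding_embeddingReal W
  set e := embeddingReal W
  have hm := he.measurable
  have key : ∀ a b a' : W, A a → A b → A a' → p a = p b → p a' = p b → e a < e b → e a' < e b →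
      a = a' := by
    intro a b a' ha hb ha' e1 e2 l1 l2
    rcases h2 a b a' ha hb ha' e1 (e1.trans e2.symm) with h | h | h
    · exact absurd (h ▸ l1) (lt_irrefl _)
    · exact h
    · exact absurd (h ▸ l2) (lt_irrefl _)
  refine ⟨fun b => ∃ q : W × W, (A q.1 ∧ A q.2 ∧ p q.1 = p q.2 ∧ e q.1 < e q.2) ∧ q.2 = b,
    meas_ex1 ?_ measurable_snd ?_, ?_, ?_⟩
  · refine (hA.comp measurable_fst).and ((hA.comp measurable_snd).and
      (((hp.comp measurable_fst).eq (hp.comp measurable_snd)).and ?_))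
    exact measurableSet_setOfPred.1
      (measurableSet_lt (hm.comp measurable_fst) (hm.comp measurable_snd))
  · rintro ⟨a, b⟩ ⟨a', b'⟩ ⟨h1, h2, h3, h4⟩ ⟨k1, k2, k3, k4⟩ (rfl : b = b')
    rw [key a b a' h1 h2 k1 h3 k3 h4 k4]
  · rintro b b' ⟨hb, ⟨a, _⟩, ⟨h1, -, h3, h4⟩, rfl⟩ ⟨hb', ⟨a', _⟩, ⟨k1, -, k3, k4⟩, rfl⟩ hp'
    dsimp only at *
    by_contra hne
    rcases lt_or_gt_of_ne (fun h => hne (he.injective h)) with h | h
    · have := key _ _ a hb hb' h1 hp' (h3.trans hp') h (h4.trans h)
      exact absurd (this ▸ h4) (lt_irrefl _)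
    · have := key _ _ a' hb' hb k1 hp'.symm (k3.trans hp'.symm) h (k4.trans h)
      exact absurd (this ▸ k4) (lt_irrefl _)
  · rintro a b ⟨ha, na⟩ ⟨hb, nb⟩ hp'
    by_contra hne
    rcases lt_or_gt_of_ne (fun h => hne (he.injective h)) with h | h
    · exact nb ⟨(a, b), ⟨ha, hb, hp', h⟩, rfl⟩
    · exact na ⟨(b, a), ⟨hb, ha, hp'.symm, h⟩, rfl⟩

theorem meas_ex2 {A : W → Prop} {p : W → V} (hA : Measurable A) (hp : Measurable p)
    (h2 : ∀ a b c, A a → A b → A c → p a = p b → p a = p c → a = b ∨ a = c ∨ b = c) :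
    Measurable fun v => ∃ a, A a ∧ p a = v := by
  obtain ⟨B, hB, h1, h1'⟩ := split2 hA hp h2
  have := (meas_ex1 (hA.and hB) hp h1).or (meas_ex1 (hA.and hB.not) hp h1')
  convert this using 2 with v
  constructor
  · rintro ⟨a, ha, e⟩
    by_cases h : B a
    · exact Or.inl ⟨a, ⟨ha, h⟩, e⟩
    · exact Or.inr ⟨a, ⟨ha, h⟩, e⟩
  · rintro (⟨a, ha, e⟩ | ⟨a, ha, e⟩) <;> exact ⟨a, ha.1, e⟩

theorem meas_ex2' {N : V → W → Prop} (hN : Measurable fun q : V × W => N q.1 q.2)
    (h2 : ∀ v a b c, N v a → N v b → N v c → a = b ∨ a = c ∨ b = c) :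
    Measurable fun v => ∃ a, N v a := by
  have := meas_ex2 hN measurable_fst (by
    rintro ⟨v, a⟩ ⟨_, b⟩ ⟨_, c⟩ ha hb hc (rfl : v = _) (rfl : v = _)
    simpa using h2 v a b c ha hb hc)
  convert this using 2 with v
  simp

theorem exists_sel {N : V → V → Prop} (hN : Measurable fun q : V × V => N q.1 q.2)
    (h1 : ∀ v a b, N v a → N v b → a = b) :
    ∃ f : V → V, Measurable f ∧ (∀ v a, N v a → f v = a) ∧ ∀ v, f v = v ∨ N v (f v) := by
  classical
  refine ⟨fun v => if h : ∃ a, N v a then h.choose else v, ?_, ?_, ?_⟩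
  · intro B hB
    have m1 := meas_ex2' (N := fun v a => N v a ∧ a ∈ B) (hN.and (hB.mem.comp measurable_snd))
      fun v a b c ha hb _ => Or.inl (h1 v a b ha.1 hb.1)
    have m2 := meas_ex2' hN fun v a b c ha hb _ => Or.inl (h1 v a b ha hb)
    have := (m1.or (m2.not.and hB.mem)).setOf
    convert this using 1
    ext v
    by_cases h : ∃ a, N v a
    · rw [mem_preimage, dif_pos h]
      exact ⟨fun hb => Or.inl ⟨_, h.choose_spec, hb⟩, fun hh => hh.elim
        (fun ⟨a, ha, hb⟩ => h1 v _ _ ha h.choose_spec ▸ hb) fun hh => absurd h hh.1⟩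
    · rw [mem_preimage, dif_neg h]
      exact ⟨fun hb => Or.inr ⟨h, hb⟩, fun hh => hh.elim (fun ⟨a, ha, _⟩ => absurd ⟨a, ha⟩ h)
        And.right⟩
  · intro v a ha
    have h : ∃ a, N v a := ⟨a, ha⟩
    simp only [dif_pos h]
    exact h1 v _ _ h.choose_spec ha
  · intro v
    by_cases h : ∃ a, N v a
    · simp only [dif_pos h]; exact Or.inr h.choose_spec
    · simp only [dif_neg h]; exact Or.inl trivial

theorem exists_sel2 {N : V → V → Prop} (hN : Measurable fun q : V × V => N q.1 q.2)
    (h2 : ∀ v a b c, N v a → N v b → N v c → a = b ∨ a = c ∨ b = c) :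
    ∃ f : Bool → V → V, (∀ b, Measurable (f b)) ∧ (∀ v a, N v a → ∃ b, f b v = a) ∧
      ∀ b v, f b v = v ∨ N v (f b v) := by
  obtain ⟨B, hB, h1, h1'⟩ := split2 hN measurable_fst (by
    rintro ⟨v, a⟩ ⟨_, b⟩ ⟨_, c⟩ ha hb hc (rfl : v = _) (rfl : v = _)
    simpa using h2 v a b c ha hb hc)
  obtain ⟨f, f1, f2, f3⟩ := exists_sel (N := fun v a => N v a ∧ B (v, a)) (hN.and hB)
    fun v a b ha hb => by simpa using h1 (v, a) (v, b) ha hb rfl
  obtain ⟨g, g1, g2, g3⟩ := exists_sel (N := fun v a => N v a ∧ ¬ B (v, a)) (hN.and hB.not)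
    fun v a b ha hb => by simpa using h1' (v, a) (v, b) ha hb rfl
  refine ⟨fun b => cond b f g, ?_, ?_, ?_⟩
  · rintro (_ | _)
    · exact g1
    · exact f1
  · intro v a ha
    by_cases h : B (v, a)
    · exact ⟨true, f2 v a ⟨ha, h⟩⟩
    · exact ⟨false, g2 v a ⟨ha, h⟩⟩
  · rintro (_ | _) v
    · exact (g3 v).imp id And.left
    · exact (f3 v).imp id And.left

end two

section red

variable {V W : Type*} [MeasurableSpace V] [MeasurableSpace W]

/-- `R` on `S` reduces to equality of subsets of `ℕ` up to finite sets -/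
def Red (S : V → Prop) (R : V → V → Prop) : Prop :=
  ∃ f : V → Set ℕ, (∀ k, Measurable fun v => k ∈ f v) ∧
    ∀ x y, S x → S y → (R x y ↔ (f x ∆ f y).Finite)

theorem red_of_countable {κ : Type*} [Countable κ] {S : V → Prop} {R : V → V → Prop}
    (f : V → Set κ) (hf : ∀ k, Measurable fun v => k ∈ f v)
    (h : ∀ x y, S x → S y → (R x y ↔ (f x ∆ f y).Finite)) : Red S R := by
  obtain ⟨e, he⟩ := exists_injective_nat κ
  refine ⟨fun v => e '' f v, fun k => Measurable.exists fun j => (hf j).and measurable_const,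
    fun x y hx hy => ?_⟩
  rw [h x y hx hy, ← image_symmDiff he, finite_image_iff he.injOn]

theorem Red.congr {S S' : V → Prop} {R R' : V → V → Prop} (h : Red S R) (hS : ∀ x, S' x → S x)
    (hR : ∀ x y, S' x → S' y → (R' x y ↔ R x y)) : Red S' R' := by
  obtain ⟨f, h1, h2⟩ := h
  exact ⟨f, h1, fun x y hx hy => (hR x y hx hy).trans (h2 x y (hS x hx) (hS y hy))⟩

theorem Red.comap {M : W → Prop} {R' : W → W → Prop} (h : Red M R') {S : V → Prop}
    {R : V → V → Prop} {s : V → W} (hs : Measurable s) (hM : ∀ x, S x → M (s x))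
    (hR : ∀ x y, S x → S y → (R x y ↔ R' (s x) (s y))) : Red S R := by
  obtain ⟨f, h1, h2⟩ := h
  exact ⟨f ∘ s, fun k => (h1 k).comp hs,
    fun x y hx hy => (hR x y hx hy).trans (h2 _ _ (hM x hx) (hM y hy))⟩

theorem finite_symmDiff_prod {κ : Type*} {A B : Set κ}
    (h : ((A ×ˢ (univ : Set ℕ)) ∆ (B ×ˢ univ)).Finite) : A = B := by
  ext k
  by_contra hk
  refine infinite_of_injective_forall_mem (f := fun j : ℕ => (k, j))
    (fun a b e => (Prod.ext_iff.1 e).2) (fun j => ?_) h
  simp only [mem_symmDiff, mem_prod, mem_univ, and_true]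
  tauto

theorem red_smooth {κ : Type*} [Countable κ] {S : V → Prop} {R : V → V → Prop}
    (B : κ → V → Prop) (hB : ∀ k, Measurable (B k))
    (h : ∀ x y, S x → S y → (R x y ↔ ∀ k, B k x ↔ B k y)) : Red S R := by
  refine red_of_countable (fun v => {k | B k v} ×ˢ (univ : Set ℕ))
    (fun k => (hB k.1).and measurable_const) fun x y hx hy => (h x y hx hy).trans ⟨fun hh => ?_,
      fun hh k => Set.ext_iff.1 (finite_symmDiff_prod hh) k⟩
  rw [show {k | B k x} = {k | B k y} from Set.ext hh, symmDiff_self]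
  exact finite_empty

theorem red_union {S : V → Prop} {R : V → V → Prop} (T : ℕ → V → Prop) (hT : ∀ j, Measurable (T j))
    (hcov : ∀ x, S x → ∃ j, T j x) (hinv : ∀ j x y, S x → S y → R x y → (T j x ↔ T j y))
    (h : ∀ j, Red (fun x => S x ∧ T j x) R) : Red S R := by
  classical
  choose f hf hR using h
  refine red_of_countable (κ := (ℕ × ℕ) ⊕ ℕ)
    (fun v => Sum.inl '' ({j | T j v} ×ˢ univ) ∪
      Sum.inr '' {k | ∃ j, T j v ∧ (∀ i < j, ¬ T i v) ∧ k ∈ f j v}) ?_ ?_
  · rintro (k | k)
    · simp only [mem_union, mem_image, Sum.inl.injEq, exists_eq_right, reduceCtorEq, and_false,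
        exists_false, or_false]
      exact (hT k.1).and measurable_const
    · simp only [mem_union, mem_image, Sum.inr.injEq, exists_eq_right, reduceCtorEq, and_false,
        exists_false, false_or]
      exact Measurable.exists fun j => (hT j).and ((Measurable.forall fun i =>
        measurable_const.imp (hT i).not).and (hf j k))
  · intro x y hx hy
    have key : ∀ {x}, (hx : ∃ j, T j x) →
        {k | ∃ j, T j x ∧ (∀ i < j, ¬ T i x) ∧ k ∈ f j x} = f (Nat.find hx) x := by
      intro x hx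
      ext k
      refine ⟨fun ⟨j, h1, h2, h3⟩ => ?_, fun h => ⟨_, Nat.find_spec hx,
        fun i hi => Nat.find_min hx hi, h⟩⟩
      rwa [(Nat.find_eq_iff hx).2 ⟨h1, h2⟩]
    have same : (∀ j, T j x ↔ T j y) → Nat.find (hcov x hx) = Nat.find (hcov y hy) := fun hh =>
      (Nat.find_eq_iff _).2 ⟨(hh _).2 (Nat.find_spec (hcov y hy)),
        fun i hi h => Nat.find_min (hcov y hy) hi ((hh i).1 h)⟩
    rw [key (hcov x hx), key (hcov y hy)]
    constructor
    · intro hxy
      have hh := fun j => hinv j x y hx hy hxy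
      have := (hR _ x y ⟨hx, Nat.find_spec (hcov x hx)⟩
        ⟨hy, (hh _).1 (Nat.find_spec (hcov x hx))⟩).1 hxy
      refine (this.image Sum.inr).subset ?_
      rw [← same hh, show {j | T j x} = {j | T j y} from Set.ext hh]
      rintro (k | k) <;> simp [mem_symmDiff]
    · intro hfin
      have h1 := hfin.preimage (f := Sum.inl) Sum.inl_injective.injOn
      have h2 := hfin.preimage (f := Sum.inr) Sum.inr_injective.injOn
      have hh : ∀ j, T j x ↔ T j y := by
        refine Set.ext_iff.1 (finite_symmDiff_prod (A := {j | T j x}) (B := {j | T j y})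
          (h1.subset fun k => ?_))
        simp [mem_symmDiff]
      refine (hR _ x y ⟨hx, Nat.find_spec (hcov x hx)⟩
        ⟨hy, (hh _).1 (Nat.find_spec (hcov x hx))⟩).2 (h2.subset fun k => ?_)
      rw [← same hh]
      simp [mem_symmDiff]

theorem red_split {S : V → Prop} {R : V → V → Prop} (T : V → Prop) (hT : Measurable T)
    (hinv : ∀ x y, S x → S y → R x y → (T x ↔ T y))
    (h1 : Red (fun x => S x ∧ T x) R) (h2 : Red (fun x => S x ∧ ¬ T x) R) : Red S R := by
  refine red_union (fun j => Nat.casesOn j T fun _ x => ¬ T x) ?_ ?_ ?_ ?_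
  · rintro (_ | j)
    · exact hT
    · exact hT.not
  · intro x _
    by_cases h : T x
    · exact ⟨0, h⟩
    · exact ⟨1, h⟩
  · rintro (_ | j) x y hx hy h
    · exact hinv x y hx hy h
    · exact not_congr (hinv x y hx hy h)
  · rintro (_ | j)
    · exact h1
    · exact h2

/-- finite initial part of the code of a point -/
def pref (h : V → ℕ → Bool) (n : ℕ) (v : V) : Finset ℕ := (Finset.range n).filter fun i => h v i

omit [MeasurableSpace V] in
theorem pref_eq_iff {h : V → ℕ → Bool} {n : ℕ} {v w : V} :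
    pref h n v = pref h n w ↔ ∀ i < n, h v i = h w i := by
  simp only [pref, Finset.ext_iff, Finset.mem_filter, Finset.mem_range, and_congr_right_iff]
  exact forall_congr' fun i => imp_congr_right fun _ => Bool.eq_iff_iff.symm

omit [MeasurableSpace V] in
theorem pref_mono {h : V → ℕ → Bool} {m n : ℕ} (hmn : m ≤ n) {v w : V}
    (e : pref h n v = pref h n w) : pref h m v = pref h m w :=
  pref_eq_iff.2 fun i hi => pref_eq_iff.1 e i (hi.trans_le hmn)

theorem meas_pref {h : V → ℕ → Bool} (hm : Measurable h) (n : ℕ) (s : Finset ℕ) :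
    Measurable fun v => pref h n v = s := by
  simp only [pref, Finset.ext_iff, Finset.mem_filter]
  exact Measurable.forall fun i => (measurable_const.and
    (((measurable_pi_apply i).comp hm).eq_const true)).iff measurable_const

omit [MeasurableSpace V] in
theorem exists_sep {h : V → ℕ → Bool} (hi : Function.Injective h) {s : Set V} (hs : s.Finite) :
    ∀ᶠ m in Filter.atTop, ∀ u ∈ s, ∀ w ∈ s, pref h m u = pref h m w → u = w := by
  rw [Filter.eventually_all_finite hs]
  intro u _
  rw [Filter.eventually_all_finite hs]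
  intro w _
  by_cases e : u = w
  · exact Filter.Eventually.of_forall fun _ _ => e
  · obtain ⟨i, hi'⟩ := Function.ne_iff.1 (hi.ne e)
    filter_upwards [Filter.eventually_gt_atTop i] with m hm h'
    exact absurd (pref_eq_iff.1 h' i hm) hi'

/-- increasing unions of finite Borel equivalence relations reduce to eventual equality -/
theorem red_hyper [MeasurableEq V] {ι : Type*} [Countable ι] {h : V → ℕ → Bool}
    (hm : Measurable h) (hi : Function.Injective h) {φ : ι → V → V} (hφ : ∀ i, Measurable (φ i))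
    {F : ℕ → V → V → Prop} (hF : ∀ n, Measurable fun q : V × V => F n q.1 q.2)
    (hE : ∀ n, Equivalence (F n)) (hmono : ∀ n v w, F n v w → F (n + 1) v w)
    (hen : ∀ n v w, F n v w → ∃ i, φ i v = w) (hfin : ∀ n v, {w | F n v w}.Finite) :
    Red (fun _ => True) fun v w => ∃ n, F n v w := by
  classical
  set Pn : ℕ → V → ℕ → Prop := fun n v m =>
    n ≤ m ∧ ∀ u w, F n v u → F n v w → pref h m u = pref h m w → u = w with hPn
  have hex : ∀ n v, ∃ m, Pn n v m := fun n v => by
    obtain ⟨m, h1, h2⟩ := ((Filter.eventually_ge_atTop n).and (exists_sep hi (hfin n v))).exists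
    exact ⟨m, h1, fun u w hu hw => h2 u hu w hw⟩
  have hFm : ∀ n i, Measurable fun v => F n v (φ i v) := fun n i =>
    (hF n).comp (measurable_id.prodMk (hφ i))
  have hPm : ∀ n m, Measurable fun v => Pn n v m := by
    intro n m
    have : (fun v => Pn n v m) = fun v => n ≤ m ∧ ∀ i j, F n v (φ i v) → F n v (φ j v) →
        (∃ s, pref h m (φ i v) = s ∧ pref h m (φ j v) = s) → φ i v = φ j v := by
      funext v
      refine propext (and_congr_right fun _ => ⟨fun hh i j h1 h2 ⟨s, e1, e2⟩ =>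
        hh _ _ h1 h2 (e1.trans e2.symm), fun hh u w hu hw e => ?_⟩)
      obtain ⟨i, rfl⟩ := hen n v u hu
      obtain ⟨j, rfl⟩ := hen n v w hw
      exact hh i j hu hw ⟨_, e, rfl⟩
    rw [this]
    exact measurable_const.and (Measurable.forall fun i => Measurable.forall fun j =>
      (hFm n i).imp ((hFm n j).imp ((Measurable.exists fun s =>
        ((meas_pref hm m s).comp (hφ i)).and ((meas_pref hm m s).comp (hφ j))).imp
          ((hφ i).eq (hφ j)))))
  set μ : ℕ → V → ℕ := fun n v => Nat.find (hex n v) with hμ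
  have hμm : ∀ n, Measurable (μ n) := fun n => measurable_find (hex n) fun m => (hPm n m).setOf
  have hmono' : ∀ {n k v w}, n ≤ k → F n v w → F k v w := by
    intro n k v w hnk hh
    induction hnk with
    | refl => exact hh
    | step _ ih => exact hmono _ _ _ ih
  have hinv : ∀ n v w, F n v w → μ n v = μ n w := by
    intro n v w hh
    have : ∀ m, Pn n v m ↔ Pn n w m := fun m => and_congr_right fun _ =>
      ⟨fun k u u' h1 h2 => k u u' ((hE n).trans hh h1) ((hE n).trans hh h2),
        fun k u u' h1 h2 => k u u' ((hE n).trans ((hE n).symm hh) h1)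
          ((hE n).trans ((hE n).symm hh) h2)⟩
    exact (Nat.find_eq_iff _).2 ⟨(this _).2 (Nat.find_spec (hex n w)),
      fun i hi' hp => Nat.find_min (hex n w) hi' ((this i).1 hp)⟩
  have hμle : ∀ n v, μ n v ≤ μ (n + 1) v := fun n v => by
    have := Nat.find_spec (hex (n + 1) v)
    exact Nat.find_min' _ ⟨(Nat.le_succ n).trans this.1,
      fun u w hu hw => this.2 u w (hmono _ _ _ hu) (hmono _ _ _ hw)⟩
  set g : V → Set (ℕ × ℕ × Finset ℕ) := fun v =>
    {k | μ (k.1 + 1) v = k.2.1 ∧ ∃ w, F k.1 v w ∧ pref h k.2.1 w = k.2.2} with hg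
  refine red_of_countable g ?_ ?_
  · rintro ⟨n, m, s⟩
    have : (fun v => (n, m, s) ∈ g v) =
        fun v => μ (n + 1) v = m ∧ ∃ i, F n v (φ i v) ∧ pref h m (φ i v) = s := by
      funext v
      refine propext (and_congr_right fun _ => ⟨fun ⟨w, h1, h2⟩ => ?_, fun ⟨i, hh⟩ => ⟨_, hh⟩⟩)
      obtain ⟨i, rfl⟩ := hen n v w h1
      exact ⟨i, h1, h2⟩
    rw [this]
    exact ((hμm _).eq_const m).and
      (Measurable.exists fun i => (hFm n i).and ((meas_pref hm m s).comp (hφ i)))
  · intro x y _ _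
    constructor
    · rintro ⟨N, hN⟩
      have fin : ∀ v, (g v ∩ {k | k.1 < N}).Finite := by
        intro v
        refine ((finite_Iio N).biUnion fun n _ => (hfin n v).image
          fun w => (n, μ (n + 1) v, pref h (μ (n + 1) v) w)).subset ?_
        rintro ⟨n, m, s⟩ ⟨⟨h1, w, h2, h3⟩, h4⟩
        refine mem_biUnion h4 ⟨w, h2, ?_⟩
        dsimp only at h1 h3 ⊢
        rw [h1, h3]
      have tr : ∀ {x y}, F N x y → ∀ k : ℕ × ℕ × Finset ℕ, N ≤ k.1 → k ∈ g x → k ∈ g y := by
        rintro x y hxy ⟨n, m, s⟩ hn ⟨h1, w, h2, h3⟩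
        exact ⟨(hinv _ _ _ (hmono' (hn.trans (Nat.le_succ n)) hxy)).symm.trans h1, w,
          (hE n).trans ((hE n).symm (hmono' hn hxy)) h2, h3⟩
      refine ((fin x).union (fin y)).subset fun k hk => ?_
      rcases hk with hk | hk
      · exact Or.inl ⟨hk.1, lt_of_not_ge fun hh => hk.2 (tr hN k hh hk.1)⟩
      · exact Or.inr ⟨hk.1, lt_of_not_ge fun hh => hk.2 (tr ((hE N).symm hN) k hh hk.1)⟩
    · intro hfin'
      obtain ⟨N, hN⟩ := (hfin'.image Prod.fst).bddAbove
      have : ∀ n, ∃ w, N < n → μ (n + 1) y = μ (n + 1) x ∧ F n y w ∧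
          pref h (μ (n + 1) x) w = pref h (μ (n + 1) x) x := by
        intro n
        by_cases hn : N < n
        · have h1 : (n, μ (n + 1) x, pref h (μ (n + 1) x) x) ∈ g x := ⟨rfl, x, (hE n).refl x, rfl⟩
          have h2 : (n, μ (n + 1) x, pref h (μ (n + 1) x) x) ∈ g y := by
            by_contra h2
            exact absurd (hN ⟨_, Or.inl ⟨h1, h2⟩, rfl⟩) (not_le.2 hn)
          obtain ⟨h3, w, h4, h5⟩ := h2
          exact ⟨w, fun _ => ⟨h3, h4, h5⟩⟩
        · exact ⟨x, fun hh => absurd hh hn⟩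
      choose w hw using this
      have hc : ∀ n, N + 1 ≤ n → w n = w (N + 1) := by
        intro n hn
        induction hn with
        | refl => rfl
        | @step n hn ih =>
          obtain ⟨a1, a2, a3⟩ := hw n hn
          obtain ⟨b1, b2, b3⟩ := hw (n + 1) (Nat.lt_succ_of_lt hn)
          rw [← ih]
          refine (Nat.find_spec (hex (n + 1) y)).2 _ _ b2 (hmono _ _ _ a2) ?_
          change pref h (μ (n + 1) y) _ = pref h (μ (n + 1) y) _
          rw [a1, a3]
          exact pref_mono (hμle (n + 1) x) b3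
      have hx : w (N + 1) = x := by
        refine hi (funext fun i => ?_)
        have h1 := (hw (N + 1 + i) (by omega)).2.2
        rw [hc _ (by omega)] at h1
        have h2 : N + 1 + i + 1 ≤ μ (N + 1 + i + 1) x := (Nat.find_spec (hex _ x)).1
        exact pref_eq_iff.1 h1 i (by omega)
      exact ⟨N + 1, (hE _).symm (hx ▸ (hw (N + 1) (Nat.lt_succ_self N)).2.1)⟩

end red

end Pool.Agent.P.MP_ea3df5_lc
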