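import Pool.Agent.P.MP_ea3df5_lc.Dst

/-!
Borel graphs of degree at most two reduce to eventual equality.
-/

namespace Pool.Agent.P.MP_ea3df5_lc

open Set MeasureTheory Relation Filter

section comb

variable {V : Type*} {N : V → V → Prop}

/-- connectedness after removing the vertices in `S` -/
def FS (N : V → V → Prop) (S : V → Prop) : V → V → Prop :=
  ReflTransGen fun a b => N a b ∧ ¬ S a ∧ ¬ S b

theorem rtg_mono {A B : V → V → Prop} (h : ∀ a b, A a b → B a b) {v w : V}
    (hh : ReflTransGen A v w) : ReflTransGen B v w := by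
  induction hh with
  | refl => exact ReflTransGen.refl
  | tail _ h' ih => exact ih.tail (h _ _ h')

theorem rtg_symm {A : V → V → Prop} (h : ∀ a b, A a b → A b a) {v w : V}
    (hh : ReflTransGen A v w) : ReflTransGen A w v := by
  induction hh with
  | refl => exact ReflTransGen.refl
  | tail _ h' ih => exact ReflTransGen.head (h _ _ h') ih

theorem fs_equiv (hs : ∀ a b, N a b → N b a) (S : V → Prop) : Equivalence (FS N S) :=
  ⟨fun _ => ReflTransGen.refl, rtg_symm fun a b h => ⟨hs a b h.1, h.2.2, h.2.1⟩,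
    ReflTransGen.trans⟩

/-- all components of the class of `v` after removing `S` are finite -/
def Good (N : V → V → Prop) (S : V → Prop) (v : V) : Prop :=
  ∀ w, ReflTransGen N v w → {x | FS N S w x}.Finite

theorem exists_walk (hs : ∀ a b, N a b → N b a)
    (h2 : ∀ v a b c, N v a → N v b → N v c → a = b ∨ a = c ∨ b = c) {v a : V} (h : N v a) :
    ∃ x : ℕ → V, x 0 = v ∧ x 1 = a ∧ (∀ k, N (x k) (x (k + 1))) ∧
      ∀ k w, N (x (k + 1)) w → w = x k ∨ w = x (k + 2) := by
  have hnx : ∀ a b, ∃ c, N a b → N b c ∧ ∀ w, N b w → w = a ∨ w = c := by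
    intro a b
    by_cases hh : ∃ c, N b c ∧ c ≠ a
    · obtain ⟨c, h1, h3⟩ := hh
      refine ⟨c, fun hab => ⟨h1, fun w hw => ?_⟩⟩
      rcases h2 b a c w (hs _ _ hab) h1 hw with e | e | e
      · exact absurd e.symm h3
      · exact Or.inl e.symm
      · exact Or.inr e.symm
    · push Not at hh
      exact ⟨a, fun hab => ⟨hs _ _ hab, fun w hw => Or.inl (hh w hw)⟩⟩
  choose nx hnx using hnx
  let st : ℕ → V × V := fun k => Nat.rec (v, a) (fun _ p => (p.2, nx p.1 p.2)) k
  have hN : ∀ k, N (st k).1 (st k).2 := by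
    intro k
    induction k with
    | zero => exact h
    | succ k ih => exact (hnx _ _ ih).1
  exact ⟨fun k => (st k).1, rfl, rfl, hN, fun k => (hnx _ _ (hN k)).2⟩

theorem walk_rec {κ : Type*} [Finite κ] [Nonempty κ] {S : κ → V → Prop} {v : V}
    (hg : Good N (fun w => ∃ i, S i w) v) {x : ℕ → V} (h0 : x 0 = v)
    (hx : ∀ k, N (x k) (x (k + 1))) :
    ∃ i, ∀ T : V → Prop, (∀ w, S i w → T w) → ∀ k, ∃ I : Set ℕ, (x '' I).Finite ∧ k ∈ I ∧
      (∀ i ∈ I, ∀ j ≤ i, j ∈ I) ∧ ∀ i ∈ I, ¬ T (x i) → i + 1 ∈ I := by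
  by_cases hfr : ∃ i, ∃ᶠ k in atTop, S i (x k)
  · obtain ⟨i, hi⟩ := hfr
    refine ⟨i, fun T hT k => ?_⟩
    obtain ⟨m, hm, hm'⟩ := frequently_atTop.1 hi k
    exact ⟨Iic m, (finite_Iic m).image _, hm, fun i hi j hj => hj.trans hi,
      fun i hi hn => lt_of_le_of_ne (show i ≤ m from hi) fun e => hn (by rw [e]; exact hT _ hm')⟩
  · push Not at hfr
    obtain ⟨m, hm⟩ := eventually_atTop.1 (eventually_all.2 hfr)
    have hc : ∀ k, ReflTransGen N v (x k) := by
      intro k
      induction k with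
      | zero => rw [h0]
      | succ k ih => exact ih.tail (hx k)
    have hf : ∀ k, m ≤ k → FS N (fun w => ∃ i, S i w) (x m) (x k) := by
      intro k hk
      induction hk with
      | refl => exact ReflTransGen.refl
      | @step k hk ih =>
        exact ReflTransGen.tail ih ⟨hx k, fun ⟨i, hi⟩ => hm k hk i hi,
          fun ⟨i, hi⟩ => hm (k + 1) (Nat.le_succ_of_le hk) i hi⟩
    refine ⟨Classical.arbitrary κ, fun T _ k => ⟨univ, ?_, trivial, fun _ _ _ _ => trivial,
      fun _ _ _ => trivial⟩⟩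
    refine (((finite_Iic m).image x).union (hg _ (hc m))).subset ?_
    rintro _ ⟨k, -, rfl⟩
    rcases le_total k m with h | h
    · exact Or.inl ⟨k, h, rfl⟩
    · exact Or.inr (hf k h)

/-- two of finitely many sets suffice, since a class has at most two ends -/
theorem good_two (hs : ∀ a b, N a b → N b a)
    (h2 : ∀ v a b c, N v a → N v b → N v c → a = b ∨ a = c ∨ b = c)
    {κ : Type*} [Finite κ] [Nonempty κ] {S : κ → V → Prop} {v : V}
    (hg : Good N (fun w => ∃ i, S i w) v) : ∃ i j, Good N (fun w => S i w ∨ S j w) v := by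
  by_cases hv : ∃ a, N v a
  swap
  · refine ⟨Classical.arbitrary κ, Classical.arbitrary κ, fun w hw => (finite_singleton v).subset ?_⟩
    intro z hz
    have := hw.trans (rtg_mono (fun _ _ h => h.1) hz)
    rcases this.cases_head with e | ⟨a, ha, -⟩
    · exact e.symm
    · exact absurd ⟨a, ha⟩ hv
  obtain ⟨a, ha⟩ := hv
  obtain ⟨b, hb, hab⟩ : ∃ b, N v b ∧ ∀ w, N v w → w = a ∨ w = b := by
    by_cases hh : ∃ c, N v c ∧ c ≠ a
    · obtain ⟨c, h1, h3⟩ := hh
      refine ⟨c, h1, fun w hw => ?_⟩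
      rcases h2 v a c w ha h1 hw with e | e | e
      · exact absurd e.symm h3
      · exact Or.inl e.symm
      · exact Or.inr e.symm
    · push Not at hh
      exact ⟨a, ha, fun w hw => Or.inl (hh w hw)⟩
  obtain ⟨x, x0, x1, x2, x3⟩ := exists_walk hs h2 ha
  obtain ⟨y, y0, y1, y2, y3⟩ := exists_walk hs h2 hb
  obtain ⟨i, hi⟩ := walk_rec hg x0 x2
  obtain ⟨j, hj⟩ := walk_rec hg y0 y2
  refine ⟨i, j, fun w hw => ?_⟩
  have closed : ∀ (T : V → Prop) (I J : Set ℕ), (∀ i ∈ I, ∀ j ≤ i, j ∈ I) →
      (∀ i ∈ I, ¬ T (x i) → i + 1 ∈ I) → (∀ i ∈ J, ∀ j ≤ i, j ∈ J) →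
      (∀ i ∈ J, ¬ T (y i) → i + 1 ∈ J) → 0 ∈ I → 0 ∈ J →
      ∀ c d, c ∈ x '' I ∪ y '' J → ¬ T c → N c d → d ∈ x '' I ∪ y '' J := by
    intro T I J i1 i2 j1 j2 i0 j0 c d hc hT hcd
    have base : ¬ T v → N v d → d ∈ x '' I ∪ y '' J := fun hT h => by
      rcases hab d h with e | e
      · exact Or.inl ⟨1, i2 0 i0 (x0 ▸ hT), x1.trans e.symm⟩
      · exact Or.inr ⟨1, j2 0 j0 (y0 ▸ hT), y1.trans e.symm⟩
    rcases hc with ⟨_ | k, hk, rfl⟩ | ⟨_ | k, hk, rfl⟩
    · exact base (x0 ▸ hT) (x0 ▸ hcd)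
    · rcases x3 k d hcd with e | e
      · exact Or.inl ⟨k, i1 _ hk _ (Nat.le_succ k), e.symm⟩
      · exact Or.inl ⟨k + 2, i2 _ hk hT, e.symm⟩
    · exact base (y0 ▸ hT) (y0 ▸ hcd)
    · rcases y3 k d hcd with e | e
      · exact Or.inr ⟨k, j1 _ hk _ (Nat.le_succ k), e.symm⟩
      · exact Or.inr ⟨k + 2, j2 _ hk hT, e.symm⟩
  have hw' : w ∈ x '' univ ∪ y '' univ := by
    induction hw with
    | refl => exact Or.inl ⟨0, trivial, x0⟩
    | tail _ h ih =>
      exact closed (fun _ => False) univ univ (fun _ _ _ _ => trivial) (fun _ _ _ => trivial)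
        (fun _ _ _ _ => trivial) (fun _ _ _ => trivial) trivial trivial _ _ ih id h
  obtain ⟨k, hk⟩ : ∃ k, x k = w ∨ y k = w := by
    rcases hw' with ⟨k, -, e⟩ | ⟨k, -, e⟩
    · exact ⟨k, Or.inl e⟩
    · exact ⟨k, Or.inr e⟩
  obtain ⟨I, i1, i2, i3, i4⟩ := hi (fun w => S i w ∨ S j w) (fun _ => Or.inl) k
  obtain ⟨J, j1, j2, j3, j4⟩ := hj (fun w => S i w ∨ S j w) (fun _ => Or.inr) k
  refine (i1.union j1).subset fun z hz => ?_
  induction hz with
  | refl => exact hk.elim (fun e => Or.inl ⟨k, i2, e⟩) fun e => Or.inr ⟨k, j2, e⟩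
  | tail _ h ih =>
    exact closed (fun w => S i w ∨ S j w) I J i3 i4 j3 j4 (i3 k i2 0 (Nat.zero_le k)) (j3 k j2 0 (Nat.zero_le k))
      _ _ ih h.2.1 h.1

theorem Good.of_conn {S : V → Prop} {v w : V} (h : Good N S v) (hw : ReflTransGen N v w) :
    Good N S w := fun x hx => h x (hw.trans hx)

theorem finite_of_le_two {s : Set V} (h : ∀ a ∈ s, ∀ b ∈ s, ∀ c ∈ s, a = b ∨ a = c ∨ b = c) :
    s.Finite := by
  by_contra hinf
  obtain ⟨t, ht, hc⟩ := Set.Infinite.exists_subset_card_eq hinf 3
  classical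
  obtain ⟨a, b, c, h1, h2, h3, rfl⟩ := Finset.card_eq_three.1 hc
  rcases h a (ht (by simp)) b (ht (by simp)) c (ht (by simp)) with e | e | e
  · exact h1 e
  · exact h2 e
  · exact h3 e

end comb

variable {V : Type*} [MeasurableSpace V]

theorem meas_sInf {p : V → ℕ → Prop} (hp : ∀ k, Measurable fun v => p v k) :
    Measurable fun v => sInf {k | p v k} := by
  classical
  refine measurable_to_countable' fun m => ?_
  have := (((hp m).and (Measurable.forall fun j => (measurable_const (a := j < m)).imp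
    (hp j).not)).or ((measurable_const (a := m = 0)).and
      (Measurable.forall fun j => (hp j).not))).setOf
  convert this using 1
  ext v
  simp only [mem_preimage, mem_singleton_iff, mem_ofPred_eq]
  by_cases h : ∃ k, p v k
  · rw [Nat.sInf_def (s := {k | p v k}) h, Nat.find_eq_iff]
    exact ⟨Or.inl, fun hh => hh.resolve_right fun hh => h.elim hh.2⟩
  · have e : {k | p v k} = ∅ := eq_empty_of_forall_notMem fun k hk => h ⟨k, hk⟩
    rw [e, Nat.sInf_empty]
    exact ⟨fun e => Or.inr ⟨e.symm, not_exists.1 h⟩,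
      fun hh => hh.elim (fun hh => absurd ⟨m, hh.1⟩ h) fun hh => hh.1.symm⟩

variable [StandardBorelSpace V]

/-- the connectedness relation of a Borel graph of degree at most two -/
theorem red_graph {N : V → V → Prop} (hN : Measurable fun q : V × V => N q.1 q.2)
    (hs : ∀ a b, N a b → N b a)
    (h2 : ∀ v a b c, N v a → N v b → N v c → a = b ∨ a = c ∨ b = c) :
    Red (fun _ => True) (ReflTransGen N) := by
  classical
  obtain ⟨f, f1, f2, f3⟩ := exists_sel2 hN h2
  obtain ⟨h, hm, hi⟩ := MeasurableSpace.measurable_injection_nat_bool_of_countablySeparated V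
  set φ : List Bool → V → V := fun u v => u.foldr f v with hφ
  have φm : ∀ u, Measurable (φ u) := by
    intro u
    induction u with
    | nil => exact measurable_id
    | cons b u ih => exact (f1 b).comp ih
  have en : ∀ {v w}, ReflTransGen N v w → ∃ u, φ u v = w := by
    intro v w hh
    induction hh with
    | refl => exact ⟨[], rfl⟩
    | tail _ h' ih =>
      obtain ⟨u, rfl⟩ := ih
      obtain ⟨b, hb⟩ := f2 _ _ h'
      exact ⟨b :: u, hb⟩
  have en' : ∀ u v, ReflTransGen N v (φ u v) := by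
    intro u v
    induction u with
    | nil => exact ReflTransGen.refl
    | cons b u ih =>
      rcases f3 b (φ u v) with e | e
      · change ReflTransGen N v (f b (φ u v)); rw [e]; exact ih
      · exact ih.tail e
  have enF : ∀ {S v w}, FS N S v w → ReflTransGen N v w := rtg_mono fun _ _ h => h.1
  have mF : ∀ S : V → Prop, Measurable S → Measurable fun q : V × V => FS N S q.1 q.2 := by
    intro S hS
    let T : List Bool → V → Prop := fun u v => List.rec True
      (fun b u ih => ih ∧ N (φ u v) (φ (b :: u) v) ∧ ¬ S (φ u v) ∧ ¬ S (φ (b :: u) v)) u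
    have Tm : ∀ u, Measurable (T u) := by
      intro u
      induction u with
      | nil => exact measurable_const
      | cons b u ih =>
        exact ih.and ((hN.comp ((φm u).prodMk (φm (b :: u)))).and
          ((hS.comp (φm u)).not.and (hS.comp (φm (b :: u))).not))
    have : (fun q : V × V => FS N S q.1 q.2) = fun q => ∃ u, T u q.1 ∧ φ u q.1 = q.2 := by
      funext ⟨v, w⟩
      refine propext ⟨fun hh => ?_, ?_⟩
      · dsimp only at hh ⊢
        induction hh with
        | refl => exact ⟨[], trivial, rfl⟩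
        | tail _ h' ih =>
          obtain ⟨u, hu, rfl⟩ := ih
          obtain ⟨b, rfl⟩ := f2 _ _ h'.1
          exact ⟨b :: u, ⟨hu, h'⟩, rfl⟩
      · dsimp only
        rintro ⟨u, hu, rfl⟩
        induction u with
        | nil => exact ReflTransGen.refl
        | cons b u ih => exact ReflTransGen.tail (ih hu.1) hu.2
    rw [this]
    exact Measurable.exists fun u => ((Tm u).comp measurable_fst).and
      (((φm u).comp measurable_fst).eq measurable_snd)
  have mG : ∀ S : V → Prop, Measurable S → Measurable (Good N S) := by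
    intro S hS
    have m1 : Measurable fun v => {x | FS N S v x}.Finite := by
      have : (fun v => {x | FS N S v x}.Finite) = fun v => ∃ s : Finset (List Bool),
          ∀ u, FS N S v (φ u v) → ∃ u', u' ∈ s ∧ φ u' v = φ u v := by
        funext v
        refine propext ⟨fun hh => ?_, fun ⟨s, hs⟩ => ?_⟩
        · choose! c hc using fun w (hw : FS N S v w) => en (enF hw)
          exact ⟨hh.toFinset.image c, fun u hu => ⟨_, Finset.mem_image_of_mem c
            (hh.mem_toFinset.2 hu), hc _ hu⟩⟩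
        · refine (s.finite_toSet.image fun u => φ u v).subset fun w hw => ?_
          obtain ⟨u, rfl⟩ := en (enF hw)
          exact hs u hw
      rw [this]
      exact Measurable.exists fun s => Measurable.forall fun u =>
        ((mF S hS).comp (measurable_id.prodMk (φm u))).imp
          (Measurable.exists fun u' => measurable_const.and ((φm u').eq (φm u)))
    have : Good N S = fun v => ∀ u, {x | FS N S (φ u v) x}.Finite := by
      funext v
      refine propext ⟨fun hh u => hh _ (en' u v), fun hh w hw => ?_⟩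
      obtain ⟨u, rfl⟩ := en hw
      exact hh u
    rw [this]
    exact Measurable.forall fun u => m1.comp (φm u)
  obtain ⟨dec, hdec⟩ := exists_surjective_nat (Finset ℕ × Finset ℕ)
  set C : ℕ → ℕ → V → Prop := fun n k w => pref h n w = (dec k).1 ∨ pref h n w = (dec k).2 with hC
  have Cm : ∀ n k, Measurable (C n k) := fun n k => (meas_pref hm n _).or (meas_pref hm n _)
  let a : ℕ → V → ℕ := fun n v => Nat.rec (sInf {k | ∀ w, C 0 k w})
    (fun n ih => sInf {k | (∀ w, C (n + 1) k w → C n ih w) ∧ Good N (C (n + 1) k) v}) n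
  have a_succ : ∀ n v, a (n + 1) v =
      sInf {k | (∀ w, C (n + 1) k w → C n (a n v) w) ∧ Good N (C (n + 1) k) v} := fun _ _ => rfl
  have am : ∀ n, Measurable (a n) := by
    intro n
    induction n with
    | zero => exact measurable_const
    | succ n ih =>
      refine meas_sInf fun k => Measurable.and ?_ (mG _ (Cm _ _))
      exact (measurable_from_nat (f := fun m => ∀ w, C (n + 1) k w → C n m w)).comp ih
  have ainv : ∀ n v w, ReflTransGen N v w → a n v = a n w := by
    intro n v w hvw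
    induction n with
    | zero => rfl
    | succ n ih =>
      rw [a_succ, a_succ, ih]
      congr 1
      ext k
      exact and_congr_right fun _ => ⟨fun g => g.of_conn hvw, fun g => g.of_conn (rtg_symm hs hvw)⟩
  have nxt : ∀ n v, Good N (C n (a n v)) v →
      (∀ w, C (n + 1) (a (n + 1) v) w → C n (a n v) w) ∧ Good N (C (n + 1) (a (n + 1) v)) v := by
    intro n v hg
    refine Nat.sInf_mem (s := {k | (∀ w, C (n + 1) k w → C n (a n v) w) ∧
      Good N (C (n + 1) k) v}) ?_
    set e : Bool × Bool → Finset ℕ := fun b =>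
      (Finset.range (n + 1)).filter fun i => if i = n then b.2 = true
        else i ∈ cond b.1 (dec (a n v)).1 (dec (a n v)).2 with he
    have e1 : ∀ w, C n (a n v) w → ∃ b, pref h (n + 1) w = e b := by
      intro w hw
      obtain ⟨b, hb⟩ : ∃ b : Bool, pref h n w = cond b (dec (a n v)).1 (dec (a n v)).2 :=
        hw.elim (fun e => ⟨true, e⟩) fun e => ⟨false, e⟩
      refine ⟨(b, h w n), Finset.filter_congr fun i hi' => ?_⟩
      by_cases hin : i = n
      · simp [hin]
      · have : i < n := by have := Finset.mem_range.1 hi'; omega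
        simp [hin, ← hb, pref, this]
    set S : Bool × Bool → V → Prop := fun b w => pref h (n + 1) w = e b ∧ C n (a n v) w with hS
    obtain ⟨i, j, hij⟩ := good_two hs h2 (S := S) (v := v) (by
      convert hg using 2 with w
      exact ⟨fun ⟨_, hb⟩ => hb.2, fun hw => (e1 w hw).imp fun b hb => ⟨hb, hw⟩⟩)
    have e2 : ∀ b, ∃ s : Finset ℕ, ∀ w, pref h (n + 1) w = s ↔ S b w := by
      intro b
      by_cases hb : ∃ w₀, S b w₀
      · obtain ⟨w₀, hw₀⟩ := hb
        refine ⟨e b, fun w => ⟨fun hw => ⟨hw, ?_⟩, And.left⟩⟩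
        have := pref_mono (Nat.le_succ n) (hw.trans hw₀.1.symm)
        simp only [hC]
        rw [this]; exact hw₀.2
      · refine ⟨{n + 1}, fun w => ⟨fun hw => ?_, fun hw => absurd ⟨w, hw⟩ hb⟩⟩
        have : n + 1 ∈ pref h (n + 1) w := hw ▸ Finset.mem_singleton_self _
        simp [pref] at this
    obtain ⟨s, hs'⟩ := e2 i
    obtain ⟨t, ht'⟩ := e2 j
    obtain ⟨k, hk⟩ := hdec (s, t)
    have e3 : C (n + 1) k = fun w => S i w ∨ S j w := by
      funext w
      simp only [hC, hk, hs', ht']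
    refine ⟨k, ?_, by rw [e3]; exact hij⟩
    rw [e3]
    exact fun w hw => hw.elim And.right And.right
  have c0 : ∀ v w, C 0 (a 0 v) w := by
    intro v
    refine Nat.sInf_mem (s := {k | ∀ w, C 0 k w}) ?_
    obtain ⟨k, hk⟩ := hdec (∅, ∅)
    exact ⟨k, fun w => Or.inl (by simp [hk, pref])⟩
  have agood : ∀ n v, Good N (C n (a n v)) v := by
    intro n v
    induction n with
    | zero =>
      refine fun w _ => (finite_singleton w).subset fun z hz => ?_
      rcases ReflTransGen.cases_head hz with e | ⟨b, hb, -⟩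
      · exact e.symm
      · exact absurd (c0 v w) hb.2.1
    | succ n ih => exact (nxt n v ih).2
  set M : ℕ → V → Prop := fun n v => C n (a n v) v with hM
  have Mm : ∀ n, Measurable (M n) := by
    intro n
    have : M n = fun v => ∃ m, a n v = m ∧ C n m v := by
      funext v; simp [hM]
    rw [this]
    exact Measurable.exists fun m => ((am n).eq_const m).and (Cm n m)
  have Mdec : ∀ n v, M (n + 1) v → M n v := fun n v => (nxt n v (agood n v)).1 v
  have Mdec' : ∀ {m n v}, m ≤ n → M n v → M m v := by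
    intro m n v hmn hh
    induction hmn with
    | refl => exact hh
    | step _ ih => exact ih (Mdec _ _ hh)
  have Ffin : ∀ n v, {w | FS N (M n) v w}.Finite := by
    intro n v
    refine (agood n v v ReflTransGen.refl).subset fun w hw => ?_
    induction hw with
    | refl => exact ReflTransGen.refl
    | @tail b c hb h' ih =>
      have k1 := ainv n v b (enF hb)
      have k2 := ainv n v c ((enF hb).tail h'.1)
      exact ReflTransGen.tail ih ⟨h'.1, k1 ▸ h'.2.1, k2 ▸ h'.2.2⟩
  have hyp := red_hyper hm hi φm (F := fun n => FS N (M n)) (fun n => mF _ (Mm n))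
    (fun n => fs_equiv hs _)
    (fun n v w => rtg_mono fun a b hh =>
      ⟨hh.1, fun k => hh.2.1 (Mdec _ _ k), fun k => hh.2.2 (Mdec _ _ k)⟩)
    (fun n v w hh => en (enF hh)) Ffin
  have Mfin : ∀ v, {x | ReflTransGen N v x ∧ ∀ n, M n x}.Finite := by
    intro v
    refine finite_of_le_two fun x hx y hy z hz => ?_
    obtain ⟨n, hn⟩ := (exists_sep hi (toFinite {x, y, z})).exists
    have kx : C n (a n v) x := ainv n v x hx.1 ▸ hx.2 n
    have ky : C n (a n v) y := ainv n v y hy.1 ▸ hy.2 n
    have kz : C n (a n v) z := ainv n v z hz.1 ▸ hz.2 n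
    have mx : x ∈ ({x, y, z} : Set V) := by simp
    have my : y ∈ ({x, y, z} : Set V) := by simp
    have mz : z ∈ ({x, y, z} : Set V) := by simp
    rcases kx with kx | kx <;> rcases ky with ky | ky <;> rcases kz with kz | kz <;>
      first
      | exact Or.inl (hn x mx y my (kx.trans ky.symm))
      | exact Or.inr (Or.inl (hn x mx z mz (kx.trans kz.symm)))
      | exact Or.inr (Or.inr (hn y my z mz (ky.trans kz.symm)))
  have Bm : ∀ Q : V → Prop, Measurable Q →
      Measurable fun v => ∃ x, ReflTransGen N v x ∧ Q x := by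
    intro Q hQ
    have : (fun v => ∃ x, ReflTransGen N v x ∧ Q x) = fun v => ∃ u, Q (φ u v) := by
      funext v
      refine propext ⟨fun ⟨x, h1, h2⟩ => ?_, fun ⟨u, hu⟩ => ⟨_, en' u v, hu⟩⟩
      obtain ⟨u, rfl⟩ := en h1
      exact ⟨u, h2⟩
    rw [this]
    exact Measurable.exists fun u => hQ.comp (φm u)
  have Binv : ∀ (Q : V → Prop) (v w : V), ReflTransGen N v w →
      ((∃ x, ReflTransGen N v x ∧ Q x) ↔ ∃ x, ReflTransGen N w x ∧ Q x) := fun Q v w hvw =>
    ⟨fun ⟨x, h1, h2⟩ => ⟨x, (rtg_symm hs hvw).trans h1, h2⟩,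
      fun ⟨x, h1, h2⟩ => ⟨x, hvw.trans h1, h2⟩⟩
  refine red_split (fun v => ∃ x, ReflTransGen N v x ∧ ∀ n, M n x)
    (Bm _ (Measurable.forall Mm)) (fun v w _ _ => Binv _ v w) ?_ ?_
  · refine red_smooth (κ := ℕ × Finset ℕ)
      (fun k v => ∃ x, ReflTransGen N v x ∧ (∀ n, M n x) ∧ pref h k.1 x = k.2)
      (fun k => Bm _ ((Measurable.forall Mm).and (meas_pref hm _ _))) ?_
    rintro v w ⟨-, x, hx, hx'⟩ -
    refine ⟨fun hvw k => Binv _ v w hvw, fun hh => ?_⟩
    obtain ⟨n, hn⟩ := (exists_sep hi ((Mfin w).insert x)).exists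
    obtain ⟨y, hy, hy', e⟩ := (hh (n, pref h n x)).1 ⟨x, hx, hx', rfl⟩
    have : y = x := hn y (Or.inr ⟨hy, hy'⟩) x (Or.inl rfl) e
    exact hx.trans (rtg_symm hs (this ▸ hy))
  · refine hyp.congr (fun _ _ => trivial) ?_
    rintro v w ⟨-, hv⟩ -
    refine ⟨fun hvw => ?_, fun ⟨n, hn⟩ => enF hn⟩
    push Not at hv
    induction hvw with
    | refl => exact ⟨0, ReflTransGen.refl⟩
    | @tail b c hb h' ih =>
      obtain ⟨n, hn⟩ := ih
      obtain ⟨i, hi⟩ := hv b hb
      obtain ⟨j, hj⟩ := hv c (hb.tail h')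
      refine ⟨n + i + j, ReflTransGen.tail (rtg_mono (fun a b hh => ?_) hn)
        ⟨h', fun k => hi (Mdec' (by omega) k), fun k => hj (Mdec' (by omega) k)⟩⟩
      exact ⟨hh.1, fun k => hh.2.1 (Mdec' (by omega) k), fun k => hh.2.2 (Mdec' (by omega) k)⟩

end Pool.Agent.P.MP_ea3df5_lc
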