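import Pool.Agent.P.MP_ea3df5_lc.Nu

/-!
Locally atriodic points, leaves, and the chain relation away from triods.
-/

namespace Pool.Agent.P.MP_ea3df5_lc

open Set Metric Topology Filter TopologicalSpace

variable {P : Type*} [MetricSpace P]

/-- arbitrarily close continua containing `B` are triodic -/
def NL (X B : Set P) : Prop :=
  ∀ ε > 0, ∃ K, Cont K ∧ K ⊆ X ∧ B ⊆ K ∧ K ⊆ thickening ε B ∧ Triodic K

/-- locally atriodic points -/
def G (X : Set P) : Set P := {w | w ∈ X ∧ ¬ NL X {w}}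

/-- one link -/
def Rl (X : Set P) (ε : ℝ) (x y : P) : Prop :=
  ∃ K, Cont K ∧ K ⊆ X ∧ diam K < ε ∧ x ∈ K ∧ y ∈ K

/-- chains of small continua -/
def En (X : Set P) (ε : ℝ) : P → P → Prop := Relation.ReflTransGen (Rl X ε)

/-- the chain relation -/
def Ec (X : Set P) (x y : P) : Prop := ∀ ε > 0, En X ε x y

variable {X : Set P}

theorem En.refl (ε : ℝ) (x : P) : En X ε x x := Relation.ReflTransGen.refl

theorem En.trans {ε : ℝ} {x y z : P} (h : En X ε x y) (h' : En X ε y z) : En X ε x z :=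
  Relation.ReflTransGen.trans h h'

theorem En.symm {ε : ℝ} {x y : P} (h : En X ε x y) : En X ε y x := by
  induction h with
  | refl => exact En.refl ε x
  | tail _ h ih =>
    obtain ⟨K, h1, h2, h3, h4, h5⟩ := h
    exact Relation.ReflTransGen.head ⟨K, h1, h2, h3, h5, h4⟩ ih

theorem en_of_cont {ε : ℝ} {x y : P} {K : Set P} (h1 : Cont K) (h2 : K ⊆ X) (h3 : diam K < ε)
    (h4 : x ∈ K) (h5 : y ∈ K) : En X ε x y := Relation.ReflTransGen.single ⟨K, h1, h2, h3, h4, h5⟩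

theorem En.mono {ε δ : ℝ} {x y : P} (h : En X ε x y) (hle : ε ≤ δ) : En X δ x y := by
  induction h with
  | refl => exact En.refl δ x
  | tail _ h ih =>
    obtain ⟨K, h1, h2, h3, h4, h5⟩ := h
    exact Relation.ReflTransGen.tail ih ⟨K, h1, h2, h3.trans_le hle, h4, h5⟩

theorem Arc.ec {J : Set P} {y z u v : P} (h : Arc J y z) (hX : J ⊆ X) (hu : u ∈ J) (hv : v ∈ J) :
    Ec X u v := by
  intro ε hε
  refine h.cont.pre.induction₂' (En X ε) ?_ (fun _ _ _ _ _ _ h1 h2 => h1.trans h2) hu hv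
  intro x hx
  obtain ⟨N, n1, n2, n3, n4, n5⟩ := h.lc x hx ε hε
  filter_upwards [n5] with w hw
  exact ⟨en_of_cont n1 (n3.trans hX) n4 n2 hw, en_of_cont n1 (n3.trans hX) n4 hw n2⟩

theorem NL.mono {A B : Set P} (h : NL X A) (hA : A.Nonempty) (hAB : A ⊆ B) (hB : Cont B)
    (hBX : B ⊆ X) : NL X B := by
  intro ε hε
  obtain ⟨K, k1, k2, k3, k4, k5⟩ := h ε hε
  obtain ⟨a, ha⟩ := hA
  exact ⟨K ∪ B, k1.union' hB (k3 ha) (hAB ha), union_subset k2 hBX, subset_union_right,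
    union_subset (k4.trans (thickening_subset_of_subset ε hAB)) (self_subset_thickening hε B),
    k5.mono subset_union_left⟩

theorem nl_of_approx {B : Set P}
    (h : ∀ ε > 0, ∃ B', B ⊆ B' ∧ B' ⊆ thickening ε B ∧ NL X B') : NL X B := by
  intro ε hε
  obtain ⟨B', h1, h2, h3⟩ := h (ε / 2) (by positivity)
  obtain ⟨K, k1, k2, k3, k4, k5⟩ := h3 (ε / 2) (by positivity)
  refine ⟨K, k1, k2, h1.trans k3, ?_, k5⟩
  have := thickening_thickening_subset (ε / 2) (ε / 2) B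
  rw [add_halves] at this
  exact (k4.trans (thickening_subset_of_subset _ h2)).trans this

theorem mem_G {B : Set P} (hB : Cont B) (hBX : B ⊆ X) (h : ¬ NL X B) : B ⊆ G X := fun w hw =>
  ⟨hBX hw, fun h' => h (h'.mono (singleton_nonempty w) (singleton_subset_iff.2 hw) hB hBX)⟩

theorem G_sub : G X ⊆ X := fun _ h => h.1

/-- at most two directions at a locally atriodic continuum -/
theorem three_dir_la {D A B C : Set P} (hD : Cont D) (hla : ¬ NL X D) (hA : Cont A) (hB : Cont B)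
    (hC : Cont C) (xA : A ⊆ X) (xB : B ⊆ X) (xC : C ⊆ X) (hDA : D ⊆ A) (hDB : D ⊆ B) (hDC : D ⊆ C)
    (hAB : Mx D (A ∩ B)) (hAC : Mx D (A ∩ C)) (hBC : Mx D (B ∩ C))
    (nA : ¬ A ⊆ D) (nB : ¬ B ⊆ D) (nC : ¬ C ⊆ D) : False := by
  refine hla fun ε hε => ?_
  obtain ⟨A', a1, a2, a3, a4, a5⟩ := enlarge hD hA hDA nA isOpen_thickening
    (self_subset_thickening hε D)
  obtain ⟨B', b1, b2, b3, b4, b5⟩ := enlarge hD hB hDB nB isOpen_thickening
    (self_subset_thickening hε D)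
  obtain ⟨C', c1, c2, c3, c4, c5⟩ := enlarge hD hC hDC nC isOpen_thickening
    (self_subset_thickening hε D)
  obtain ⟨d, hd⟩ := hD.nonempty
  exact ⟨A' ∪ B' ∪ C', (a1.union' b1 (a2 hd) (b2 hd)).union' c1 (Or.inl (a2 hd)) (c2 hd),
    union_subset (union_subset (a4.trans xA) (b4.trans xB)) (c4.trans xC),
    (a2.trans subset_union_left).trans subset_union_left,
    union_subset (union_subset a5 b5) c5,
    three_dir hD a1 b1 c1 a2 b2 c2 (hAB.mono (inter_subset_inter a4 b4))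
      (hAC.mono (inter_subset_inter a4 c4)) (hBC.mono (inter_subset_inter b4 c4)) a3 b3 c3⟩

/-- arcs from `y` all of whose points except possibly the far end are locally atriodic -/
def JA (X : Set P) (y : P) (J : Set P) (z : P) : Prop :=
  Arc J y z ∧ J ⊆ X ∧ ∀ w ∈ J, w ≠ z → ¬ NL X {w}

theorem Arc.ja {J : Set P} {y z : P} (h : Arc J y z) (hG : J ⊆ G X) : JA X y J z :=
  ⟨h, hG.trans G_sub, fun _ hw _ => (hG hw).2⟩

theorem JA.comparable {y z z' : P} {J J' : Set P} (h : JA X y J z) (h' : JA X y J' z')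
    (hn : ¬ Mx {y} (J ∩ J')) : J ⊆ J' ∨ J' ⊆ J := by
  by_contra hcon
  rw [not_or] at hcon
  have hy : y ∈ J ∩ J' := ⟨h.1.left_mem, h'.1.left_mem⟩
  have hD := comp_cont (h.1.cont.compact.inter_right h'.1.cont.closed) hy
  set D := comp (J ∩ J') y with hDdef
  have s1 : D ⊆ J := (comp_sub _ _).trans inter_subset_left
  have s2 : D ⊆ J' := (comp_sub _ _).trans inter_subset_right
  rcases h.1.init hD s1 (mem_comp hy) with e | ⟨w, hw⟩
  · exact hn (e ▸ mx_comp hy)
  have hwz : w ≠ z := fun e =>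
    hcon.1 ((h.1.irred hD s1 (mem_comp hy) (e ▸ hw.right_mem)).trans s2)
  have hwz' : w ≠ z' := fun e =>
    hcon.2 ((h'.1.irred hD s2 (mem_comp hy) (e ▸ hw.right_mem)).trans s1)
  have key : ∀ {J : Set P} {z : P}, Arc J y z → D ⊆ J → w ≠ z →
      ∃ B, Arc B w z ∧ B ⊆ J ∧ D ∩ B ⊆ {w} := by
    intro J z hJ s hz
    obtain ⟨A, B, hA, hB, e, hAB⟩ := hJ.split (s hw.right_mem) hw.ne.symm hz
    refine ⟨B, hB, e ▸ subset_union_right, (inter_subset_inter_left _ ?_).trans hAB⟩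
    rcases hJ.chain hD s hw.left_mem hA.cont (e ▸ subset_union_left) hA.left_mem with h | h
    · exact h
    · exact hw.irred hA.cont h hA.left_mem hA.right_mem
  obtain ⟨B, b1, b2, b3⟩ := key h.1 s1 hwz
  obtain ⟨B', c1, c2, c3⟩ := key h'.1 s2 hwz'
  refine three_dir_la (cont_singleton w) (h.2.2 w (s1 hw.right_mem) hwz) hD b1.cont c1.cont
    (s1.trans h.2.1) (b2.trans h.2.1) (c2.trans h'.2.1) (singleton_subset_iff.2 hw.right_mem)
    (singleton_subset_iff.2 b1.left_mem) (singleton_subset_iff.2 c1.left_mem)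
    (mx_of_subset b3) (mx_of_subset c3) ?_ hw.symm.not_subset b1.not_subset c1.not_subset
  intro C hC h1 h2 x hx
  have : D ∪ C ⊆ D := mx_comp hy _ (IsPreconnected.union w hw.right_mem (h1 rfl) hD.pre hC)
    subset_union_left (union_subset (comp_sub _ _) (h2.trans (inter_subset_inter b2 c2)))
  exact b3 ⟨this (Or.inr hx), (h2 hx).1⟩

theorem JA.three {y z₁ z₂ z₃ : P} {J₁ J₂ J₃ : Set P} (h₁ : JA X y J₁ z₁) (h₂ : JA X y J₂ z₂)
    (h₃ : JA X y J₃ z₃) :
    (J₁ ⊆ J₂ ∨ J₂ ⊆ J₁) ∨ (J₁ ⊆ J₃ ∨ J₃ ⊆ J₁) ∨ (J₂ ⊆ J₃ ∨ J₃ ⊆ J₂) := by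
  by_cases m12 : Mx {y} (J₁ ∩ J₂)
  · by_cases m13 : Mx {y} (J₁ ∩ J₃)
    · by_cases m23 : Mx {y} (J₂ ∩ J₃)
      · exact (three_dir_la (cont_singleton y) (h₁.2.2 y h₁.1.left_mem h₁.1.ne) h₁.1.cont h₂.1.cont
          h₃.1.cont h₁.2.1 h₂.2.1 h₃.2.1 (singleton_subset_iff.2 h₁.1.left_mem)
          (singleton_subset_iff.2 h₂.1.left_mem) (singleton_subset_iff.2 h₃.1.left_mem)
          m12 m13 m23 h₁.1.not_subset h₂.1.not_subset h₃.1.not_subset).elim
      · exact Or.inr (Or.inr (h₂.comparable h₃ m23))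
    · exact Or.inr (Or.inl (h₁.comparable h₃ m13))
  · exact Or.inl (h₁.comparable h₂ m12)

theorem JA.comp_trans {y z₁ z₂ z₃ : P} {J₁ J₂ J₃ : Set P} (h₁ : JA X y J₁ z₁) (h₂ : JA X y J₂ z₂)
    (h₃ : JA X y J₃ z₃) (h12 : J₁ ⊆ J₂ ∨ J₂ ⊆ J₁) (h13 : J₁ ⊆ J₃ ∨ J₃ ⊆ J₁) :
    J₂ ⊆ J₃ ∨ J₃ ⊆ J₂ := by
  rcases h12 with h12 | h12 <;> rcases h13 with h13 | h13
  · exact h₂.comparable h₃ fun hm => h₁.1.not_subset
      (hm _ h₁.1.cont.pre (singleton_subset_iff.2 h₁.1.left_mem) (subset_inter h12 h13))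
  · exact Or.inr (h13.trans h12)
  · exact Or.inl (h12.trans h13)
  · exact h₁.1.chain h₂.1.cont h12 h₂.1.left_mem h₃.1.cont h13 h₃.1.left_mem

/-- the leaf relation -/
def Lf (X : Set P) (y z : P) : Prop := y = z ∨ ∃ J, Arc J y z ∧ J ⊆ G X

theorem Lf.refl (y : P) : Lf X y y := Or.inl rfl

theorem Lf.symm {y z : P} (h : Lf X y z) : Lf X z y :=
  h.elim (fun e => Or.inl e.symm) fun ⟨J, h1, h2⟩ => Or.inr ⟨J, h1.symm, h2⟩

theorem Lf.trans {y w z : P} (h : Lf X y w) (h' : Lf X w z) : Lf X y z := by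
  rcases h with rfl | ⟨A, a1, a2⟩
  · exact h'
  rcases h' with rfl | ⟨B, b1, b2⟩
  · exact Or.inr ⟨A, a1, a2⟩
  by_cases e : y = z
  · exact Or.inl e
  obtain ⟨J, h1, h2⟩ := a1.trans b1 e
  exact Or.inr ⟨J, h1, h2.trans (union_subset a2 b2)⟩

theorem Arc.lf {J : Set P} {y z u v : P} (h : Arc J y z) (hG : J ⊆ G X) (hu : u ∈ J) (hv : v ∈ J) :
    Lf X u v := by
  by_cases e : u = v
  · exact Or.inl e
  obtain ⟨A, h1, h2⟩ := h.sub hu hv e
  exact Or.inr ⟨A, h1, h2.trans hG⟩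

theorem Lf.ec {y z : P} (h : Lf X y z) : Ec X y z := by
  rcases h with rfl | ⟨J, h1, h2⟩
  · exact fun ε _ => En.refl ε y
  · exact h1.ec (h2.trans G_sub) h1.left_mem h1.right_mem

theorem Lf.mem_G {y z : P} (h : Lf X y z) (hy : y ∈ G X) : z ∈ G X := by
  rcases h with rfl | ⟨J, h1, h2⟩
  · exact hy
  · exact h2 h1.right_mem

/-- start of a short arc which is not locally atriodic -/
def Bad (X : Set P) (r : ℝ) (w : P) : Prop := ∃ J z, JA X w J z ∧ NL X J ∧ diam J < r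

theorem pigeon {ι : Type*} {l : Filter ι} [l.NeBot] {S : ι → Prop} (hS : ∀ᶠ k in l, S k)
    {r : ι → ι → Prop} (h : ∀ i j k, S i → S j → S k → r i j ∨ r i k ∨ r j k) :
    ∃ i, S i ∧ ∃ᶠ k in l, r i k := by
  by_contra hcon
  push Not at hcon
  obtain ⟨i, hi⟩ := hS.exists
  obtain ⟨j, hj, hij⟩ := (hS.and (hcon i hi)).exists
  obtain ⟨k, hk, hik, hjk⟩ := (hS.and ((hcon i hi).and (hcon j hj))).exists
  rcases h i j k hi hj hk with h | h | h
  · exact hij h
  · exact hik h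
  · exact hjk h

theorem side_subset {y p u v : P} {r : ℝ} (H : ∀ w, Lf X y w → ¬ Bad X r w) {K A B : Set P}
    (hK : Cont K) (hKX : K ⊆ X) (hd : diam K < r) (hp : p ∈ K) (hyp : Lf X y p)
    (hn : ¬ ∀ w ∈ K, Lf X y w) (hA : Arc A p u) (hB : Arc B p v) (gA : A ⊆ G X) (gB : B ⊆ G X)
    (hAB : A ∩ B ⊆ {p}) : A ⊆ K ∨ B ⊆ K := by
  by_contra hcon
  rw [not_or] at hcon
  have hJ := hA.symm.concat hB hAB
  have gJ : A ∪ B ⊆ G X := union_subset gA gB
  have hpJ : p ∈ K ∩ (A ∪ B) := ⟨hp, Or.inl hA.left_mem⟩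
  have hD := comp_cont (hK.compact.inter_right hJ.cont.closed) hpJ
  set D := comp (K ∩ (A ∪ B)) p with hDdef
  have s1 : D ⊆ K := (comp_sub _ _).trans inter_subset_left
  have s2 : D ⊆ A ∪ B := (comp_sub _ _).trans inter_subset_right
  have pD : p ∈ D := mem_comp hpJ
  have hlf : ∀ w ∈ D, Lf X y w := fun w hw => hyp.trans (hJ.lf gJ hpJ.2 (s2 hw))
  have hla : ¬ NL X D := by
    rcases hJ.sub_cont hD s2 with ⟨x, e⟩ | ⟨a, b, hab⟩
    · have : x ∈ D := by rw [e]; rfl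
      rw [e]; exact (gJ (s2 this)).2
    · exact fun h => H a (hlf a hab.left_mem) ⟨D, b, hab.ja (s2.trans gJ), h,
        (diam_mono s1 hK.compact.isBounded).trans_lt hd⟩
  refine three_dir_la hD hla hK (hD.union' hA.cont pD hA.left_mem)
    (hD.union' hB.cont pD hB.left_mem) hKX (union_subset (s1.trans hKX) (gA.trans G_sub))
    (union_subset (s1.trans hKX) (gB.trans G_sub)) s1 subset_union_left subset_union_left
    ((mx_comp hpJ).mono (inter_subset_inter_right _ (union_subset s2 subset_union_left)))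
    ((mx_comp hpJ).mono (inter_subset_inter_right _ (union_subset s2 subset_union_right)))
    (mx_of_subset ?_) (fun h => hn fun w hw => hlf w (h hw))
    (fun h => hcon.1 ((subset_union_right.trans h).trans s1))
    (fun h => hcon.2 ((subset_union_right.trans h).trans s1))
  rintro x ⟨h | h, h' | h'⟩
  · exact h
  · exact h
  · exact h'
  · rw [show x = p from hAB ⟨h, h'⟩]; exact pD

variable [SeparableSpace P] [Nonempty P]

theorem la_end {y z : P} {r : ℝ} (hr : 0 < r) (H : ∀ w, Lf X y w → ¬ Bad X r w) {J : Set P}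
    (hJ : JA X y J z) : J ⊆ G X := by
  have hz : ¬ NL X {z} := by
    intro hz
    obtain ⟨w, A, B, q, hA, hB, e, hAB, hd, -⟩ := hJ.1.rat_cut hr
    have sA : A ⊆ J := e ▸ subset_union_left
    have sB : B ⊆ J := e ▸ subset_union_right
    refine H w (Or.inr ⟨A, hA, fun x hx => ⟨hJ.2.1 (sA hx), hJ.2.2 x (sA hx) ?_⟩⟩)
      ⟨B, z, ⟨hB, sB.trans hJ.2.1, fun x hx => hJ.2.2 x (sB hx)⟩,
        hz.mono (singleton_nonempty z) (singleton_subset_iff.2 hB.right_mem) hB.cont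
          (sB.trans hJ.2.1), hd⟩
    rintro rfl
    exact hB.ne (hAB ⟨hx, hB.right_mem⟩).symm
  intro x hx
  refine ⟨hJ.2.1 hx, ?_⟩
  by_cases e : x = z
  · exact e ▸ hz
  · exact hJ.2.2 x hx e

/-- finer and finer chains leaving a locally atriodic point produce an arc -/
theorem arc_from_chains {ι : Type*} {l : Filter ι} [l.NeBot] {p z : P} (hp : p ∈ G X) (hz : z ≠ p)
    {L : ι → Set P} (hL : ∀ k, Cont (L k) ∧ L k ⊆ X ∧ p ∈ L k ∧ z ∈ L k)
    (hF : ∀ δ > 0, ∀ᶠ k in l, FinU δ (L k)) :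
    ∃ I w, Arc I p w ∧ I ⊆ G X ∧ ∃ᶠ k in l, I ⊆ L k := by
  have hla := hp.2
  unfold NL at hla
  push Not at hla
  obtain ⟨ε, hε, hla⟩ := hla
  simp only [thickening_singleton, singleton_subset_iff] at hla
  set t := min (ε / 2) (dist z p) with ht
  have ht0 : 0 < t := lt_min (by positivity) (dist_pos.2 hz)
  have hte : t ≤ ε / 2 := min_le_left _ _
  set S := (ball p t)ᶜ with hS
  have hSc : IsClosed S := isOpen_ball.isClosed_compl
  have hpS : p ∉ S := fun h => h (mem_ball_self ht0)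
  have hI : ∀ k, ∃ I, MinC p S I ∧ I ⊆ L k ∧ I ⊆ closedBall p t := by
    intro k
    obtain ⟨l1, l2, l3, l4⟩ := hL k
    have hp' : p ∈ L k ∩ closedBall p t := ⟨l3, mem_closedBall_self ht0.le⟩
    have hD := comp_cont (l1.compact.inter_right isClosed_closedBall) hp'
    have hm : (comp (L k ∩ closedBall p t) p ∩ S).Nonempty := by
      by_contra h
      have hb : comp (L k ∩ closedBall p t) p ⊆ ball p t := fun x hx => by
        by_contra h'; exact h ⟨x, hx, h'⟩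
      obtain ⟨A, a1, a2, a3, a4, a5⟩ := enlarge hD l1 ((comp_sub _ _).trans inter_subset_left)
        (fun h => absurd (hb (h l4)) (by simp [ht])) isOpen_ball hb
      exact a3 (mx_comp hp' A a1.pre a2 (subset_inter a4 (a5.trans ball_subset_closedBall)))
    obtain ⟨I, h1, h2⟩ := exists_minC hSc hD (mem_comp hp') hm
    exact ⟨I, h1, h2.trans ((comp_sub _ _).trans inter_subset_left),
      h2.trans ((comp_sub _ _).trans inter_subset_right)⟩
  choose I hI hIL hIb using hI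
  have hball : closedBall p t ⊆ ball p ε := closedBall_subset_ball (by linarith)
  obtain ⟨i, -, hi⟩ := pigeon (l := l) (S := fun _ => True) (Eventually.of_forall fun _ => trivial)
    (r := fun i j => I i = I j) fun i j k _ _ _ => (hI i).two (hI j) (hI k)
      (hla _ (((hI i).1.union' (hI j).1 (hI i).2.1 (hI j).2.1).union' (hI k).1
        (Or.inl (hI i).2.1) (hI k).2.1)
        (union_subset (union_subset ((hIL i).trans (hL i).2.1) ((hIL j).trans (hL j).2.1))
          ((hIL k).trans (hL k).2.1)) (Or.inl (Or.inl (hI i).2.1))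
        ((union_subset (union_subset (hIb i) (hIb j)) (hIb k)).trans hball))
  have hIX : I i ⊆ X := (hIL i).trans (hL i).2.1
  have hfr : ∃ᶠ k in l, I i ⊆ L k := hi.mono fun k hk => hk ▸ hIL k
  have hfin : ∀ δ > 0, FinU δ (I i) := by
    intro δ hδ
    obtain ⟨k, hk, 𝒮, s1, s2, s3⟩ := (hfr.and_eventually
      (hF (min δ (ε / 2)) (lt_min hδ (by positivity)))).exists
    have key : ∀ s ∈ 𝒮, FinU δ (I i ∩ s) := by
      intro s hs
      rcases (I i ∩ s).eq_empty_or_nonempty with e | ⟨a, ha⟩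
      · rw [e]; exact ⟨∅, finite_empty, by simp, sUnion_empty⟩
      have hsX : s ⊆ X := (s3 ▸ subset_sUnion_of_mem hs : s ⊆ L k).trans (hL k).2.1
      have hdi : ∀ {T : Set P}, T ⊆ I i ∩ s → diam T < δ := fun h =>
        (diam_mono (h.trans inter_subset_right) (s2 s hs).1.compact.isBounded).trans_lt
          ((s2 s hs).2.trans_le (min_le_left _ _))
      obtain ⟨E, e1, e2, -, e4⟩ := two_comp (hI i).1 (s2 s hs).1
        (hla _ ((hI i).1.union (s2 s hs).1 ⟨a, ha⟩) (union_subset hIX hsX) (Or.inl (hI i).2.1)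
          (union_subset ((hIb i).trans hball) fun x hx => by
            have h1 := dist_le_diam_of_mem (s2 s hs).1.compact.isBounded hx ha.2
            have h2 := (s2 s hs).2.trans_le (min_le_right _ _)
            have h3 : dist a p ≤ t := hIb i ha.1
            have h4 := dist_triangle x a p
            exact mem_ball.2 (by linarith))) ha
      have hc := comp_cont ((hI i).1.compact.inter_right (s2 s hs).1.closed) ha
      have f1 := finU_single hc (hdi (comp_sub _ _))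
      rcases E.eq_empty_or_nonempty with e | hE
      · rw [e4, e, union_empty]; exact f1
      · rw [e4]
        exact f1.union (finU_single ⟨e1, hE, e2⟩ (hdi (by rw [e4]; exact subset_union_right)))
    choose! 𝒯 t1 t2 t3 using key
    refine ⟨⋃ s ∈ 𝒮, 𝒯 s, s1.biUnion t1, ?_, ?_⟩
    · intro u hu
      obtain ⟨s, hs, hu⟩ := mem_iUnion₂.1 hu
      exact t2 s hs u hu
    · apply Subset.antisymm
      · rintro x ⟨u, hu, hx⟩
        obtain ⟨s, hs, hu⟩ := mem_iUnion₂.1 hu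
        have : x ∈ ⋃₀ 𝒯 s := ⟨u, hu, hx⟩
        rw [t3 s hs] at this
        exact this.1
      · intro x hx
        have : x ∈ ⋃₀ 𝒮 := s3 ▸ hk hx
        obtain ⟨s, hs, hxs⟩ := this
        have : x ∈ ⋃₀ 𝒯 s := by rw [t3 s hs]; exact ⟨hx, hxs⟩
        obtain ⟨u, hu, hxu⟩ := this
        exact ⟨u, mem_iUnion₂.2 ⟨s, hs, hu⟩, hxu⟩
  obtain ⟨w, hw⟩ := (hI i).arc hpS (lc_of_finU hfin)
  refine ⟨I i, w, hw, mem_G (hI i).1 hIX fun h => ?_, hfr⟩
  obtain ⟨K, k1, k2, k3, k4, k5⟩ := h (ε / 2) (by positivity)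
  refine hla K k1 k2 (k3 (hI i).2.1) (fun x hx => ?_) k5
  obtain ⟨a, ha, hxa⟩ := mem_thickening_iff.1 (k4 hx)
  have h3 : dist a p ≤ t := hIb i ha
  have h4 := dist_triangle x a p
  exact mem_ball.2 (by linarith)

end Pool.Agent.P.MP_ea3df5_lc
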