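import Pool.Agent.P.MP_ea3df5_lc.Leaf

/-!
Away from short non-atriodic arcs the chain relation is the leaf relation.
-/

namespace Pool.Agent.P.MP_ea3df5_lc

open Set Metric Topology Filter TopologicalSpace

variable {P : Type*} [MetricSpace P] {X : Set P}

theorem leave_leaf {y z : P} {ε : ℝ} (h : En X ε y z) :
    Lf X y z ∨ ∃ K L p, Cont K ∧ K ⊆ L ∧ diam K < ε ∧ p ∈ K ∧ Lf X y p ∧ (¬ ∀ w ∈ K, Lf X y w) ∧
      Cont L ∧ L ⊆ X ∧ z ∈ L ∧ FinU ε L ∧ ∀ w ∈ L, Lf X y w → w ∈ K := by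
  induction h with
  | refl => exact Or.inl (Lf.refl y)
  | @tail b c _ h ih =>
    obtain ⟨K', h1, h2, h3, h4, h5⟩ := h
    by_cases hc : Lf X y c
    · exact Or.inl hc
    right
    by_cases hm : ∃ p ∈ K', Lf X y p
    · obtain ⟨p, hp, hyp⟩ := hm
      exact ⟨K', K', p, h1, subset_rfl, h3, hp, hyp, fun h => hc (h c h5), h1, h2, h5,
        finU_single h1 h3, fun w hw _ => hw⟩
    · rcases ih with ih | ⟨K, L, p, k1, k2, k3, k4, k5, k6, k7, k8, k9, k10, k11⟩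
      · exact absurd ⟨b, h4, ih⟩ hm
      · exact ⟨K, L ∪ K', p, k1, k2.trans subset_union_left, k3, k4, k5, k6, k7.union' h1 k9 h4,
          union_subset k8 h2, Or.inr h5, k10.union (finU_single h1 h3),
          fun w hw hyw => hw.elim (fun h => k11 w h hyw) fun h => absurd ⟨w, h, hyw⟩ hm⟩

variable [SeparableSpace P] [Nonempty P]

/-- an increasing family of arcs whose ends shrink to a point converges to an arc -/
theorem ray_end {ι : Type*} {l : Filter ι} [l.NeBot] {S : ι → Prop} (hS : ∀ᶠ k in l, S k)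
    {y q : P} {r : ℝ} (hr : 0 < r) (H : ∀ w, Lf X y w → ¬ Bad X r w) {A K : ι → Set P} {p : ι → P}
    (hA : ∀ k, S k → Arc (A k) y (p k) ∧ A k ⊆ G X ∧ A k ∩ K k ⊆ {p k} ∧ p k ∈ K k ∧ y ∉ K k ∧
      IsCompact (K k) ∧ K k ⊆ X ∧ q ∈ K k)
    (hAK : ∀ j k, S j → S k → A k ⊆ A j ∪ K j) (hd : ∀ δ > 0, ∀ᶠ k in l, diam (K k) < δ) :
    Lf X y q := by
  by_cases hq : ∃ j, S j ∧ q ∈ A j
  · obtain ⟨j, hj, hq⟩ := hq
    exact (hA j hj).1.lf (hA j hj).2.1 (hA j hj).1.left_mem hq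
  push Not at hq
  obtain ⟨j₀, hj₀⟩ := hS.exists
  set Λ := closure (⋃ k ∈ {k | S k}, A k) with hΛ
  have hAΛ : ∀ k, S k → A k ⊆ Λ := fun k hk =>
    (subset_biUnion_of_mem (u := A) (show k ∈ {k | S k} from hk)).trans subset_closure
  have hΛs : ∀ j, S j → Λ ⊆ A j ∪ K j := fun j hj =>
    closure_minimal (iUnion₂_subset fun k hk => hAK j k hj hk)
      ((hA j hj).1.cont.closed.union (hA j hj).2.2.2.2.2.1.isClosed)
  have small : ∀ v, (∀ k, S k → v ∈ K k) → v = q := by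
    intro v hv
    refine eq_of_forall_dist_le fun δ hδ => ?_
    obtain ⟨k, hk, hk'⟩ := (hS.and (hd δ hδ)).exists
    exact (dist_le_diam_of_mem (hA k hk).2.2.2.2.2.1.isBounded (hv k hk)
      (hA k hk).2.2.2.2.2.2.2).trans hk'.le
  have hyΛ : y ∈ Λ := hAΛ j₀ hj₀ (hA j₀ hj₀).1.left_mem
  have hqΛ : q ∈ Λ := by
    refine Metric.mem_closure_iff.2 fun δ hδ => ?_
    obtain ⟨k, hk, hk'⟩ := (hS.and (hd δ hδ)).exists
    exact ⟨p k, mem_biUnion (show k ∈ {k | S k} from hk) (hA k hk).1.right_mem,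
      (dist_le_diam_of_mem (hA k hk).2.2.2.2.2.1.isBounded (hA k hk).2.2.2.2.2.2.2
        (hA k hk).2.2.2.1).trans_lt hk'⟩
  have hΛc : Cont Λ := by
    refine ⟨((hA j₀ hj₀).1.cont.compact.union (hA j₀ hj₀).2.2.2.2.2.1).of_isClosed_subset
      isClosed_closure (hΛs j₀ hj₀), ⟨y, hyΛ⟩, IsPreconnected.closure ?_⟩
    rw [← sUnion_image]
    refine isPreconnected_sUnion y _ ?_ ?_
    · rintro _ ⟨k, hk, rfl⟩; exact (hA k hk).1.left_mem
    · rintro _ ⟨k, hk, rfl⟩; exact (hA k hk).1.cont.pre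
  have hΛX : Λ ⊆ X := (hΛs j₀ hj₀).trans
    (union_subset ((hA j₀ hj₀).2.1.trans G_sub) (hA j₀ hj₀).2.2.2.2.2.2.1)
  have hfin : ∀ δ > 0, FinU δ Λ := by
    intro δ hδ
    obtain ⟨k, hk, hk'⟩ := (hS.and (hd δ hδ)).exists
    obtain ⟨a1, a2, a3, a4, a5, a6, a7, a8⟩ := hA k hk
    have e : Λ ∩ K k ∪ A k = Λ := by
      apply Subset.antisymm (union_subset inter_subset_left (hAΛ k hk))
      intro x hx
      exact (hΛs k hk hx).elim Or.inr fun h => Or.inl ⟨hx, h⟩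
    have hpk : p k ∈ Λ ∩ K k := ⟨hAΛ k hk a1.right_mem, a4⟩
    rw [← e]
    refine FinU.union (finU_single ⟨hΛc.compact.inter_right a6.isClosed, ⟨_, hpk⟩,
      piece (hΛc.closed.inter a6.isClosed) a1.cont.closed (by rw [e]; exact hΛc.pre)
        (fun x hx => a3 ⟨hx.2, hx.1.2⟩) hpk⟩
      ((diam_mono inter_subset_right a6.isBounded).trans_lt hk')) (a1.finU hδ)
  have hmin : MinC y {q} Λ := by
    refine ⟨hΛc, hyΛ, ⟨q, hqΛ, rfl⟩, fun K' k1 k2 k3 k4 => ?_⟩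
    have hq' : q ∈ K' := by obtain ⟨x, hx, rfl⟩ := k3; exact hx
    refine closure_minimal (iUnion₂_subset fun k hk => ?_) k1.closed
    obtain ⟨a1, a2, a3, a4, a5, a6, a7, a8⟩ := hA k hk
    have hpk : p k ∈ K' := by
      by_contra h
      refine hq k hk (sub_of_closed k1.pre a1.cont.closed a6.isClosed (k4.trans (hΛs k hk)) ?_ k2
        a1.left_mem hq')
      rw [Set.disjoint_left]
      intro x hx hx'
      exact h ((show x = p k from a3 ⟨hx.2, hx'⟩) ▸ hx.1)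
    have e : K' ∩ A k ∪ K' ∩ K k = K' := by
      rw [← inter_union_distrib_left]; exact inter_eq_left.2 (k4.trans (hΛs k hk))
    exact (a1.irred (K := K' ∩ A k) ⟨k1.compact.inter_right a1.cont.closed, ⟨y, k2, a1.left_mem⟩,
      piece (k1.closed.inter a1.cont.closed) (k1.closed.inter a6.isClosed)
        (by rw [e]; exact k1.pre) (fun x hx => a3 ⟨hx.1.2, hx.2.2⟩) ⟨hpk, a1.right_mem⟩⟩
      inter_subset_right ⟨k2, a1.left_mem⟩ ⟨hpk, a1.right_mem⟩).trans inter_subset_left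
  have hyq : y ≠ q := fun e => (hA j₀ hj₀).2.2.2.2.1 (e ▸ (hA j₀ hj₀).2.2.2.2.2.2.2)
  obtain ⟨z, hz⟩ := hmin.arc hyq (lc_of_finU hfin)
  obtain ⟨J, j1, j2⟩ := hz.sub hyΛ hqΛ hyq
  refine Or.inr ⟨J, j1, la_end hr H ⟨j1, j2.trans hΛX, fun w hw hwq => ?_⟩⟩
  by_contra hcon
  refine hwq (small w fun k hk => (hΛs k hk (j2 hw)).resolve_left fun h => ?_)
  exact ((hA k hk).2.1 h).2 hcon

theorem common_point {y : P} {r : ℝ} (hr : 0 < r) (H : ∀ w, Lf X y w → ¬ Bad X r w)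
    {K : ℕ → Set P} (hK : ∀ k, Cont (K k) ∧ K k ⊆ X ∧ (∃ p ∈ K k, Lf X y p) ∧
      ¬ ∀ w ∈ K k, Lf X y w) (hd : ∀ δ > 0, ∀ᶠ k in atTop, diam (K k) < δ) :
    ∃ p, Lf X y p ∧ ∃ᶠ k in atTop, p ∈ K k := by
  by_cases hy : ∃ᶠ k in atTop, y ∈ K k
  · exact ⟨y, Lf.refl y, hy⟩
  rw [not_frequently] at hy
  have hA : ∀ k, ∃ A p, y ∉ K k → Arc A y p ∧ A ⊆ G X ∧ A ∩ K k ⊆ {p} ∧ p ∈ K k := by
    intro k
    by_cases hk : y ∈ K k
    · exact ⟨∅, y, fun h => absurd hk h⟩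
    obtain ⟨p, hp, rfl | ⟨J, j1, j2⟩⟩ := (hK k).2.2.1
    · exact absurd hp hk
    obtain ⟨I, u, i1, i2, i3, i4⟩ := j1.first_hit (hK k).1.closed hk ⟨p, j1.right_mem, hp⟩
    exact ⟨I, u, fun _ => ⟨i1, i2.trans j2, i4, i3⟩⟩
  choose A p hA using hA
  have step : ∀ j k, y ∉ K j → diam (K j) < r → y ∉ K k → A j ⊆ A k →
      p k ∈ K j ∧ A k ⊆ A j ∪ K j := by
    intro j k hj hdj hk hsub
    obtain ⟨a1, a2, a3, a4⟩ := hA j hj
    obtain ⟨b1, b2, b3, b4⟩ := hA k hk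
    by_cases e : p j = p k
    · exact ⟨e ▸ a4, (b1.irred a1.cont hsub a1.left_mem (e ▸ a1.right_mem)).trans
        subset_union_left⟩
    obtain ⟨C, D, c1, d1, e', hCD⟩ := b1.split (hsub a1.right_mem) a1.ne.symm e
    have sC : C ⊆ A k := e' ▸ subset_union_left
    have sD : D ⊆ A k := e' ▸ subset_union_right
    have hCA : C ⊆ A j := c1.irred a1.cont (by
      rcases b1.chain a1.cont hsub a1.left_mem c1.cont sC c1.left_mem with h | h
      · exact h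
      · exact a1.irred c1.cont h c1.left_mem c1.right_mem) a1.left_mem a1.right_mem
    have hD : D ⊆ K j := (side_subset H (hK j).1 (hK j).2.1 hdj a4 (Or.inr ⟨A j, a1, a2⟩)
      (hK j).2.2.2 c1.symm d1 (sC.trans b2) (sD.trans b2) hCD).resolve_left
        fun h => hj (h c1.left_mem)
    exact ⟨hD d1.right_mem, e' ▸ union_subset_union hCA hD⟩
  have hS₀ := hy.and (hd r hr)
  obtain ⟨i, hi, hfr⟩ := pigeon hS₀ (r := fun j k => A j ⊆ A k ∨ A k ⊆ A j)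
    fun i j k hi hj hk => ((hA i hi.1).1.ja (hA i hi.1).2.1).three
      ((hA j hj.1).1.ja (hA j hj.1).2.1) ((hA k hk.1).1.ja (hA k hk.1).2.1)
  set l := atTop ⊓ 𝓟 {k | A i ⊆ A k ∨ A k ⊆ A i} with hl
  have : l.NeBot := frequently_iff_neBot.1 hfr
  have hle : l ≤ atTop := inf_le_left
  set S : ℕ → Prop := fun k => (y ∉ K k ∧ diam (K k) < r) ∧ (A i ⊆ A k ∨ A k ⊆ A i) with hSdef
  have hS : ∀ᶠ k in l, S k :=
    (hS₀.filter_mono hle).and (mem_inf_of_right (mem_principal_self _))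
  have hcomp : ∀ j k, S j → S k → A j ⊆ A k ∨ A k ⊆ A j := fun j k hj hk =>
    ((hA i hi.1).1.ja (hA i hi.1).2.1).comp_trans ((hA j hj.1.1).1.ja (hA j hj.1.1).2.1)
      ((hA k hk.1.1).1.ja (hA k hk.1.1).2.1) hj.2 hk.2
  by_cases hb : ∃ j, S j ∧ ∃ᶠ k in l, A k ⊆ A j
  · obtain ⟨j, hj, hb⟩ := hb
    refine ⟨p j, Or.inr ⟨A j, (hA j hj.1.1).1, (hA j hj.1.1).2.1⟩, Frequently.filter_mono ?_ hle⟩
    exact (hb.and_eventually hS).mono fun k hk => (step k j hk.2.1.1 hk.2.1.2 hj.1.1 hk.1).1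
  push Not at hb
  have hev : ∀ j, S j → ∀ᶠ k in l, p k ∈ K j := fun j hj =>
    (hS.and (hb j hj)).mono fun k hk =>
      (step j k hj.1.1 hj.1.2 hk.1.1.1 ((hcomp j k hj hk.1).resolve_right hk.2)).1
  obtain ⟨j₀, hj₀⟩ := hS.exists
  obtain ⟨q, -, hq⟩ := (hK j₀).1.compact.exists_mapClusterPt (f := l) (u := p)
    (le_principal_iff.2 (hev j₀ hj₀))
  have hqK : ∀ j, S j → q ∈ K j := fun j hj =>
    (hK j).1.closed.mem_of_mapClusterPt hq (hev j hj)
  refine ⟨q, ray_end hS hr H (A := A) (K := K) (p := p) (fun k hk => ?_) (fun j k hj hk => ?_)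
    (fun δ hδ => (hd δ hδ).filter_mono hle), Frequently.filter_mono ?_ hle⟩
  · obtain ⟨a1, a2, a3, a4⟩ := hA k hk.1.1
    exact ⟨a1, a2, a3, a4, hk.1.1, (hK k).1.compact, (hK k).2.1, hqK k hk⟩
  · rcases hcomp j k hj hk with h | h
    · exact (step j k hj.1.1 hj.1.2 hk.1.1 h).2
    · exact h.trans subset_union_left
  · exact (hS.mono hqK).frequently

/-- main topological statement -/
theorem lf_of_ec {y z : P} {r : ℝ} (hy : y ∈ G X) (hr : 0 < r) (H : ∀ w, Lf X y w → ¬ Bad X r w)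
    (h : Ec X y z) : Lf X y z := by
  by_contra hz
  have := fun k : ℕ => (leave_leaf (h (1 / ((k : ℝ) + 1)) (by positivity))).resolve_left hz
  choose K L p k1 k2 k3 k4 k5 k6 k7 k8 k9 k10 k11 using this
  have hev : ∀ δ > 0, ∀ᶠ k : ℕ in atTop, 1 / ((k : ℝ) + 1) < δ := fun δ hδ =>
    tendsto_one_div_add_atTop_nhds_zero_nat.eventually (gt_mem_nhds hδ)
  have hd : ∀ δ > 0, ∀ᶠ k in atTop, diam (K k) < δ := fun δ hδ =>
    (hev δ hδ).mono fun k hk => (k3 k).trans hk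
  obtain ⟨q, hq, hfr⟩ := common_point hr H
    (fun k => ⟨k1 k, (k2 k).trans (k8 k), ⟨p k, k4 k, k5 k⟩, k6 k⟩) hd
  set l : Filter {k // q ∈ K k} := comap Subtype.val atTop with hl
  have : l.NeBot := by
    refine comap_neBot fun t ht => ?_
    obtain ⟨k, hk, hk'⟩ := (hfr.and_eventually ht).exists
    exact ⟨⟨k, hk⟩, hk'⟩
  have hT : Tendsto (Subtype.val : {k // q ∈ K k} → ℕ) l atTop := tendsto_comap
  obtain ⟨I, w, i1, i2, i3⟩ := arc_from_chains (l := l) (hq.mem_G hy) (z := z)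
    (fun e => hz (e ▸ hq)) (L := fun k => L k.1)
    (fun k => ⟨k7 k, k8 k, k2 k k.2, k9 k⟩)
    (fun δ hδ => (hT.eventually (hev δ hδ)).mono fun k hk => (k10 k).mono hk.le)
  obtain ⟨k, hk, hk'⟩ := (i3.and_eventually
    (hT.eventually (hd (dist q w) (dist_pos.2 i1.ne)))).exists
  have hw : w ∈ K k := k11 k w (hk i1.right_mem) (hq.trans (Or.inr ⟨I, i1, i2⟩))
  exact absurd (dist_le_diam_of_mem (k1 k).compact.isBounded k.2 hw) (not_le.2 hk')

omit [SeparableSpace P] [Nonempty P] in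
theorem Bad.mono {r s : ℝ} {w : P} (h : Bad X r w) (hrs : r ≤ s) : Bad X s w := by
  obtain ⟨J, z, h1, h2, h3⟩ := h
  exact ⟨J, z, h1, h2, h3.trans_le hrs⟩

/-- bad points on the leaf can be reached by arcs of rational size -/
theorem rat_reach {y : P} (hy : y ∈ G X) (h : ∀ r > 0, ∃ w, Lf X y w ∧ Bad X r w) {r : ℝ}
    (hr : 0 < r) : ∃ w A, ∃ q : ℚ, Arc A y w ∧ A ⊆ G X ∧ nu A = q ∧ Bad X r w := by
  have hla := hy.2
  unfold NL at hla
  push Not at hla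
  obtain ⟨ε, hε, hla⟩ := hla
  simp only [thickening_singleton, singleton_subset_iff] at hla
  obtain ⟨w, hw, J, v, hJ, hnl, hd⟩ := h (min r (ε / 2)) (lt_min hr (by positivity))
  have hyJ : y ∉ J := by
    intro hyJ
    obtain ⟨K, k1, k2, k3, k4, k5⟩ := hnl (ε / 2) (by positivity)
    refine hla K k1 k2 (k3 hyJ) (fun x hx => ?_) k5
    obtain ⟨a, ha, hxa⟩ := mem_thickening_iff.1 (k4 hx)
    have h1 := dist_le_diam_of_mem hJ.1.cont.compact.isBounded ha hyJ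
    have h2 := hd.trans_le (min_le_right _ _)
    have h4 := dist_triangle x a y
    exact mem_ball.2 (by linarith)
  have hd' := hd.trans_le (min_le_left _ _)
  rcases hw with rfl | ⟨A, a1, a2⟩
  · exact absurd hJ.1.left_mem hyJ
  obtain ⟨I, u, i1, i2, i3, i4⟩ := a1.first_hit hJ.1.cont.closed hyJ
    ⟨w, a1.right_mem, hJ.1.left_mem⟩
  have gI : I ⊆ G X := i2.trans a2
  have key : ∀ v', JA X u J v' → ∃ w A, ∃ q : ℚ, Arc A y w ∧ A ⊆ G X ∧ nu A = q ∧ Bad X r w := by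
    intro v' hJ'
    obtain ⟨w', C, D, q, c1, d1, e, -, hD, hq⟩ := i1.rat_cut (sub_pos.2 hd')
    have sD : D ⊆ I := e ▸ subset_union_right
    have hc := d1.concat hJ'.1 ((inter_subset_inter_left _ sD).trans i4)
    have hX : D ∪ J ⊆ X := union_subset ((sD.trans gI).trans G_sub) hJ.2.1
    refine ⟨w', C, q, c1, (e ▸ subset_union_left : C ⊆ I).trans gI, hq, D ∪ J, v',
      ⟨hc, hX, fun x hx hxv => hx.elim (fun h => (gI (sD h)).2) fun h => hJ'.2.2 x h hxv⟩,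
      hnl.mono hJ.1.cont.nonempty subset_union_right hc.cont hX, ?_⟩
    have := diam_union' (s := D) (t := J) ⟨u, d1.right_mem, i3⟩
    linarith
  by_cases e1 : u = w
  · exact key v (e1 ▸ hJ)
  by_cases e2 : u = v
  · refine key w ⟨e2 ▸ hJ.1.symm, hJ.2.1, fun x hx _ => ?_⟩
    by_cases e3 : x = v
    · rw [e3, ← e2]; exact (gI i1.right_mem).2
    · exact hJ.2.2 x hx e3
  obtain ⟨C, D, c1, d1, e, hCD⟩ := hJ.1.split i3 e1 e2
  have sC : C ⊆ J := e ▸ subset_union_left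
  have sD : D ⊆ J := e ▸ subset_union_right
  exact (three_dir_la (cont_singleton u) (gI i1.right_mem).2 i1.cont c1.cont d1.cont
    (gI.trans G_sub) (sC.trans hJ.2.1) (sD.trans hJ.2.1) (singleton_subset_iff.2 i1.right_mem)
    (singleton_subset_iff.2 c1.right_mem) (singleton_subset_iff.2 d1.left_mem)
    (mx_of_subset ((inter_subset_inter_right _ sC).trans i4))
    (mx_of_subset ((inter_subset_inter_right _ sD).trans i4)) (mx_of_subset hCD)
    i1.symm.not_subset c1.symm.not_subset d1.not_subset).elim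

/-- minimal non-atriodic arcs -/
def MinBad (X : Set P) (w : P) (J : Set P) (z : P) : Prop :=
  Arc J w z ∧ J ⊆ X ∧ NL X J ∧ ∀ K, Cont K → w ∈ K → K ⊆ J → ¬ J ⊆ K → ¬ NL X K

omit [SeparableSpace P] [Nonempty P] in
theorem MinBad.ja {w z : P} {J : Set P} (h : MinBad X w J z) : JA X w J z := by
  refine ⟨h.1, h.2.1, fun v hv hvz hnl => ?_⟩
  by_cases e : v = w
  · exact h.2.2.2 {v} (cont_singleton v) (e ▸ rfl) (singleton_subset_iff.2 hv)
      (e ▸ h.1.not_subset) hnl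
  obtain ⟨C, D, c1, d1, e', hCD⟩ := h.1.split hv e hvz
  have sC : C ⊆ J := e' ▸ subset_union_left
  exact h.2.2.2 C c1.cont c1.left_mem sC
    (fun hh => hvz (hCD ⟨hh h.1.right_mem, d1.right_mem⟩).symm)
    (hnl.mono (singleton_nonempty v) (singleton_subset_iff.2 c1.right_mem) c1.cont
      (sC.trans h.2.1))

omit [SeparableSpace P] [Nonempty P] in
theorem JA.exists_minBad {w z : P} {J : Set P} (h : JA X w J z) (hn : NL X J) :
    ∃ J' z', MinBad X w J' z' ∧ J' ⊆ J := by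
  obtain ⟨⟨γ, a, b, hγ, hab, hi, rfl, rfl, rfl⟩, hX, hla⟩ := h
  set T := {t ∈ Icc a b | NL X (γ '' Icc a t)} with hT
  have hb : b ∈ T := ⟨right_mem_Icc.2 hab.le, hn⟩
  have hbd : BddBelow T := ⟨a, fun t ht => ht.1.1⟩
  set s := sInf T with hs
  have has : a ≤ s := le_csInf ⟨b, hb⟩ fun t ht => ht.1.1
  have hsb : s ≤ b := csInf_le hbd hb
  have hnl : NL X (γ '' Icc a s) := by
    refine nl_of_approx fun ε hε => ?_
    obtain ⟨δ, hδ, hδ'⟩ := Metric.continuous_iff.1 hγ s ε hε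
    obtain ⟨t, ht, hts⟩ := exists_lt_of_csInf_lt ⟨b, hb⟩ (show s < s + δ by linarith)
    have hst : s ≤ t := csInf_le hbd ht
    refine ⟨γ '' Icc a t, image_mono (Icc_subset_Icc_right hst), ?_, ht.2⟩
    rintro _ ⟨x, hx, rfl⟩
    by_cases hxs : x ≤ s
    · exact self_subset_thickening hε _ ⟨x, ⟨hx.1, hxs⟩, rfl⟩
    · refine mem_thickening_iff.2 ⟨γ s, ⟨s, ⟨has, le_rfl⟩, rfl⟩, hδ' x ?_⟩
      rw [Real.dist_eq, abs_lt]
      constructor <;> linarith [hx.2]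
  have hlt : a < s := by
    refine lt_of_le_of_ne has fun e => ?_
    rw [← e, Icc_self, image_singleton] at hnl
    exact hla _ (mem_image_of_mem _ (left_mem_Icc.2 hab.le))
      (fun e' => hab.ne (hi (left_mem_Icc.2 hab.le) (right_mem_Icc.2 hab.le) e')) hnl
  have hsub : γ '' Icc a s ⊆ γ '' Icc a b := image_mono (Icc_subset_Icc_right hsb)
  refine ⟨_, _, ⟨arc_image hγ hi le_rfl hlt hsb, hsub.trans hX, hnl, fun K k1 k2 k3 k4 k5 => ?_⟩,
    hsub⟩
  obtain ⟨t, t1, t2, rfl⟩ := init_param hγ hab.le hi k1 (k3.trans hsub) k2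
  exact k4 (image_mono (Icc_subset_Icc_right (csInf_le hbd ⟨⟨t1, t2⟩, k5⟩)))

end Pool.Agent.P.MP_ea3df5_lc
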