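import Pool.Agent.P.MP_ea3df5_lc.Code
import Pool.Agent.P.MP_ea3df5_lc.Graph

/-!
Markers on leaves and the reduction of the chain relation.
-/

namespace Pool.Agent.P.MP_ea3df5_lc

open Set Metric Topology Filter TopologicalSpace Relation

variable {P : Type*} [MetricSpace P] {X C U : Set P}

/-- last points in `C` before leaving `U` along a leaf -/
def Mark (X C U : Set P) (w : P) : Prop :=
  ∃ J z, Arc J w z ∧ Yp X w ∧ w ∈ C ∧ J ⊆ X ∧ z ∉ U ∧ (∀ v ∈ J, v ≠ w → v ∉ C) ∧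
    ∀ v ∈ J, v ≠ z → v ∈ U

/-- the next marker -/
def Next (X C U : Set P) (y w : P) : Prop :=
  ∃ J, Arc J y w ∧ Yp X y ∧ Mark X C U w ∧ J ⊆ X ∧ ∀ v ∈ J, v ≠ y → v ≠ w → ¬ Mark X C U v

theorem Yp.lf {y z : P} (h : Yp X y) (hz : Lf X y z) : Yp X z := by
  obtain ⟨h1, r, hr, H⟩ := h
  exact ⟨hz.mem_G h1, r, hr, fun w hw => H w (hz.trans hw)⟩

theorem Mark.yp {w : P} (h : Mark X C U w) : Yp X w := by
  obtain ⟨_, _, _, h, _⟩ := h; exact h

theorem Mark.mem {w : P} (h : Mark X C U w) : w ∈ C := by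
  obtain ⟨_, _, _, _, h, _⟩ := h; exact h

theorem Next.mark {y w : P} (h : Next X C U y w) : Mark X C U w := by
  obtain ⟨_, _, _, h, _⟩ := h; exact h

theorem three_eq {y z₁ z₂ z₃ : P} {J₁ J₂ J₃ : Set P} {Φ : Set P → P → Prop}
    (h₁ : JA X y J₁ z₁) (h₂ : JA X y J₂ z₂) (h₃ : JA X y J₃ z₃) (f₁ : Φ J₁ z₁) (f₂ : Φ J₂ z₂)
    (f₃ : Φ J₃ z₃) (key : ∀ J z J' z', Arc J y z → Φ J z → Φ J' z' → z ∈ J' → z = z') :
    J₁ = J₂ ∨ J₁ = J₃ ∨ J₂ = J₃ := by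
  have k : ∀ {J z J' z'}, Arc J y z → Arc J' y z' → Φ J z → Φ J' z' → J ⊆ J' → J = J' := by
    intro J z J' z' a a' f f' hs
    exact hs.antisymm (a'.irred a.cont hs a.left_mem
      (key J z J' z' a f f' (hs a.right_mem) ▸ a.right_mem))
  rcases h₁.three h₂ h₃ with (h | h) | (h | h) | (h | h)
  · exact Or.inl (k h₁.1 h₂.1 f₁ f₂ h)
  · exact Or.inl (k h₂.1 h₁.1 f₂ f₁ h).symm
  · exact Or.inr (Or.inl (k h₁.1 h₃.1 f₁ f₃ h))
  · exact Or.inr (Or.inl (k h₃.1 h₁.1 f₃ f₁ h).symm)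
  · exact Or.inr (Or.inr (k h₂.1 h₃.1 f₂ f₃ h))
  · exact Or.inr (Or.inr (k h₃.1 h₂.1 f₃ f₂ h).symm)

variable [SecondCountableTopology P] [Nonempty P]

theorem Yp.ec_iff {y z : P} (h : Yp X y) : Ec X y z ↔ Lf X y z := by
  obtain ⟨h1, r, hr, H⟩ := h
  exact ⟨lf_of_ec h1 hr H, Lf.ec⟩

theorem Yp.arc_G {y a b : P} {J : Set P} (h : Yp X y) (hJ : Arc J a b) (hX : J ⊆ X) (hy : y ∈ J) :
    J ⊆ G X := fun _ hv => (h.ec_iff.1 (hJ.ec hX hy hv)).mem_G h.1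

theorem two_marks {A : Set P} {a b u v w : P} (hA : Arc A a b) (hX : A ⊆ X) (hU : A ⊆ U)
    (hu : u ∈ A ∧ Mark X C U u) (hv : v ∈ A ∧ Mark X C U v) (hw : w ∈ A ∧ Mark X C U w) :
    u = v ∨ u = w ∨ v = w := by
  by_contra hcon
  push Not at hcon
  obtain ⟨m, ⟨J, z, j1, j2, j3, j4, j5, j6, j7⟩, p, hp, q, hq, D, E, d1, e1, hDE, sD, sE⟩ :=
    hA.middle (M := {w | Mark X C U w}) hu hv hw hcon.1 hcon.2.1 hcon.2.2
  have gA := j2.arc_G hA hX (sD d1.left_mem)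
  have key : ∀ {D p}, Arc D m p → D ⊆ A → Mark X C U p → ¬ (J ⊆ D ∨ D ⊆ J) := by
    rintro D p d1 sD hp (h | h)
    · exact j5 (hU (sD (h j1.right_mem)))
    · exact j6 p (h d1.right_mem) d1.ne.symm hp.mem
  rcases (j1.ja (j2.arc_G j1 j4 j1.left_mem)).three (d1.ja (sD.trans gA)) (e1.ja (sE.trans gA))
    with h | h | h | h
  · exact key d1 sD hp h
  · exact key e1 sE hq h
  · exact d1.not_subset ((subset_inter subset_rfl h).trans hDE)
  · exact e1.not_subset ((subset_inter h subset_rfl).trans hDE)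

theorem finite_marks {δ : ℝ} (hδ : 0 < δ) (hCU : ∀ x ∈ C, ball x δ ⊆ U) {A : Set P} {a b : P}
    (hA : Arc A a b) (hX : A ⊆ X) : {w ∈ A | Mark X C U w}.Finite := by
  obtain ⟨𝒮, s1, s2, s3⟩ := hA.finU hδ
  refine (s1.biUnion (t := fun s => {w ∈ s | Mark X C U w}) fun s hs => ?_).subset ?_
  · have hsA : s ⊆ A := s3 ▸ subset_sUnion_of_mem hs
    rcases hA.sub_cont (s2 s hs).1 hsA with ⟨x, rfl⟩ | ⟨c, d, h⟩
    · exact (finite_singleton x).subset (sep_subset _ _)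
    · refine finite_of_le_two fun u hu v hv w hw => two_marks h (hsA.trans hX) ?_ hu hv hw
      exact fun x hx => hCU u hu.2.mem
        ((dist_le_diam_of_mem (s2 s hs).1.compact.isBounded hx hu.1).trans_lt (s2 s hs).2)
  · rintro w ⟨hw, hm⟩
    rw [← s3] at hw
    obtain ⟨s, hs, hws⟩ := hw
    exact mem_biUnion hs ⟨hws, hm⟩

theorem Next.lf {y w : P} (h : Next X C U y w) : Lf X y w := by
  obtain ⟨J, h1, h2, -, h4, -⟩ := h
  exact Or.inr ⟨J, h1, h2.arc_G h1 h4 h1.left_mem⟩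

theorem exists_next {δ : ℝ} (hδ : 0 < δ) (hCU : ∀ x ∈ C, ball x δ ⊆ U) {y w : P} {J : Set P}
    (hy : Yp X y) (hJ : Arc J y w) (hX : J ⊆ X) (hw : Mark X C U w) :
    ∃ u, Next X C U y u ∧ (u = w ∨ ∃ J', Arc J' u w ∧ J' ⊆ J ∧
      {v ∈ J' | Mark X C U v ∧ v ≠ u} ⊂ {v ∈ J | Mark X C U v ∧ v ≠ y}) := by
  have hf : {v ∈ J | Mark X C U v ∧ v ≠ y}.Finite :=
    (finite_marks hδ hCU hJ hX).subset fun v hv => ⟨hv.1, hv.2.1⟩
  obtain ⟨I, u, i1, i2, i3, i4⟩ := hJ.first_hit hf.isClosed (fun h => h.2.2 rfl)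
    ⟨w, hJ.right_mem, hJ.right_mem, hw, hJ.ne.symm⟩
  refine ⟨u, ⟨I, i1, hy, i3.2.1, i2.trans hX, fun v hv h1 h2 hm => h2 (i4 ⟨hv, i2 hv, hm, h1⟩)⟩, ?_⟩
  by_cases e : u = w
  · exact Or.inl e
  obtain ⟨A, B, a1, b1, e', hAB⟩ := hJ.split i3.1 i3.2.2 e
  have sB : B ⊆ J := e' ▸ subset_union_right
  refine Or.inr ⟨B, b1, sB, fun v hv => ⟨sB hv.1, hv.2.1, ?_⟩, fun h => (h i3).2.2 rfl⟩
  rintro rfl
  exact a1.ne (hAB ⟨a1.left_mem, hv.1⟩)

theorem conn_of_lf {δ : ℝ} (hδ : 0 < δ) (hCU : ∀ x ∈ C, ball x δ ⊆ U) {y w : P}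
    (hy : Mark X C U y) (hw : Mark X C U w) (h : Lf X y w) :
    ReflTransGen (fun a b => Mark X C U a ∧ Next X C U a b) y w := by
  rcases h with rfl | ⟨J, j1, j2⟩
  · exact ReflTransGen.refl
  have hX := j2.trans G_sub
  clear j2
  induction hn : {v ∈ J | Mark X C U v ∧ v ≠ y}.ncard using Nat.strong_induction_on
    generalizing y J with
  | _ n ih =>
    obtain ⟨u, h1, rfl | ⟨J', k1, k2, k3⟩⟩ := exists_next hδ hCU hy.yp j1 hX hw
    · exact ReflTransGen.single ⟨hy, h1⟩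
    · refine ReflTransGen.head ⟨hy, h1⟩ (ih _ ?_ h1.mark J' k1 (k2.trans hX) rfl)
      rw [← hn]
      exact ncard_lt_ncard k3 ((finite_marks hδ hCU j1 hX).subset fun v hv => ⟨hv.1, hv.2.1⟩)

theorem exists_mark {y z : P} {J : Set P} (hy : Yp X y) (hJ : Arc J y z) (hX : J ⊆ X)
    (hC : IsClosed C) (hU : IsOpen U) (hCU : C ⊆ U) (hyC : y ∈ C) (hz : z ∉ U) :
    ∃ w, Lf X y w ∧ Mark X C U w := by
  obtain ⟨I, u, i1, i2, i3, i4⟩ := hJ.first_hit hU.isClosed_compl (fun h => h (hCU hyC))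
    ⟨z, hJ.right_mem, hz⟩
  obtain ⟨K, w, k1, k2, k3, k4⟩ := i1.symm.first_hit hC (fun h => i3 (hCU h))
    ⟨y, i1.left_mem, hyC⟩
  have hl : Lf X y w := hJ.lf (hy.arc_G hJ hX hJ.left_mem) hJ.left_mem (i2 (k2 k1.right_mem))
  refine ⟨w, hl, K, u, k1.symm, hy.lf hl, k3, (k2.trans i2).trans hX, i3,
    fun v hv hvw h => hvw (k4 ⟨hv, h⟩), fun v hv hvu => ?_⟩
  by_contra h
  exact hvu (i4 ⟨k2 hv, h⟩)

variable [MeasurableSpace C(Icc (0 : ℝ) 1, P)] [BorelSpace C(Icc (0 : ℝ) 1, P)]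
  [CompleteSpace P] [MeasurableSpace P] [BorelSpace P]
  [MeasurableSpace (NonemptyCompacts P)] [BorelSpace (NonemptyCompacts P)]

omit [SecondCountableTopology P] [Nonempty P] [CompleteSpace P] [MeasurableSpace P] [BorelSpace P]
  [MeasurableSpace (NonemptyCompacts P)] [BorelSpace (NonemptyCompacts P)] in
theorem meas_seg_sub {O : Set P} (hO : IsOpen O) (a b : ℝ) :
    Measurable fun c : C(Icc (0 : ℝ) 1, P) => (seg c a b : Set P) ⊆ O :=
  measurableSet_setOfPred.1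
    ((NonemptyCompacts.isOpen_subsets_of_isOpen hO).preimage (seg_cont a b)).measurableSet

theorem meas_mark (hX : IsGδ X) (hM : Moore P) (hC : IsClosed C) (hU : IsOpen U) :
    Measurable (Mark X C U) := by
  have m0 := (ext_cont_left (P := P) 0).measurable
  have m1 := (ext_cont_left (P := P) 1).measurable
  refine (meas_arc (Φ := fun w J z => Yp X w ∧ w ∈ C ∧ J ⊆ X ∧ z ∉ U ∧ (∀ v ∈ J, v ≠ w → v ∉ C) ∧
    ∀ v ∈ J, v ≠ z → v ∈ U) (((smooth_part hX hM).1.comp m0).and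
      ((hC.measurableSet.mem.comp m0).and ((meas_imX hX).and ((hU.measurableSet.mem.comp m1).not.and
        ((Measurable.forall fun q : ℚ => (measurable_const (a := (q : ℝ) ∈ Ioc (0 : ℝ) 1)).imp
          (meas_seg_sub hC.isOpen_compl q 1)).and
        (Measurable.forall fun q : ℚ => (measurable_const (a := (q : ℝ) ∈ Ico (0 : ℝ) 1)).imp
          (meas_seg_sub hU 0 q))))))) ?_ ?_).2
  · intro c hc
    refine and_congr_right fun _ => and_congr_right fun _ => and_congr_right fun _ =>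
      and_congr_right fun _ => and_congr ⟨?_, ?_⟩ ⟨?_, ?_⟩
    · rintro h _ ⟨t, ht, rfl⟩ hne
      obtain ⟨q, q1, q2⟩ := exists_rat_btwn (lt_of_le_of_ne ht.1 fun e => hne (by rw [← e]))
      have := h q ⟨q1, q2.le.trans ht.2⟩
      rw [coe_seg _ (q2.le.trans ht.2)] at this
      exact this ⟨t, ⟨q2.le, ht.2⟩, rfl⟩
    · intro h q hq
      rw [coe_seg _ hq.2]
      rintro _ ⟨t, ht, rfl⟩
      have ht' : t ∈ Icc (0 : ℝ) 1 := ⟨hq.1.le.trans ht.1, ht.2⟩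
      refine h _ ⟨t, ht', rfl⟩ fun e => ?_
      have := hc.1 ht' (left_mem_Icc.2 zero_le_one) e
      linarith [hq.1, ht.1]
    · rintro h _ ⟨t, ht, rfl⟩ hne
      obtain ⟨q, q1, q2⟩ := exists_rat_btwn (lt_of_le_of_ne ht.2 fun e => hne (by rw [e]))
      have := h q ⟨ht.1.trans q1.le, q2⟩
      rw [coe_seg _ (ht.1.trans q1.le)] at this
      exact this ⟨t, ⟨ht.1, q1.le⟩, rfl⟩
    · intro h q hq
      rw [coe_seg _ hq.1]
      rintro _ ⟨t, ht, rfl⟩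
      have ht' : t ∈ Icc (0 : ℝ) 1 := ⟨ht.1, ht.2.trans hq.2.le⟩
      refine h _ ⟨t, ht', rfl⟩ fun e => ?_
      have := hc.1 ht' (right_mem_Icc.2 zero_le_one) e
      linarith [hq.2, ht.2]
  · intro y J₁ z₁ J₂ z₂ J₃ z₃ a1 h1 a2 h2 a3 h3
    refine three_eq (Φ := fun J z => z ∉ U ∧ ∀ v ∈ J, v ≠ z → v ∈ U)
      (a1.ja (h1.1.arc_G a1 h1.2.2.1 a1.left_mem)) (a2.ja (h1.1.arc_G a2 h2.2.2.1 a2.left_mem))
      (a3.ja (h1.1.arc_G a3 h3.2.2.1 a3.left_mem)) ⟨h1.2.2.2.1, h1.2.2.2.2.2⟩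
      ⟨h2.2.2.2.1, h2.2.2.2.2.2⟩ ⟨h3.2.2.2.1, h3.2.2.2.2.2⟩ ?_
    intro J z J' z' _ f f' hz
    by_contra hne
    exact f.1 (f'.2 z hz hne)

omit [MeasurableSpace C(Icc (0 : ℝ) 1, P)] [BorelSpace C(Icc (0 : ℝ) 1, P)]
  [CompleteSpace P] [MeasurableSpace P] [BorelSpace P]
  [MeasurableSpace (NonemptyCompacts P)] [BorelSpace (NonemptyCompacts P)] in
theorem next_three (y : P) (J₁ : Set P) (z₁ : P) (J₂ : Set P) (z₂ : P) (J₃ : Set P) (z₃ : P)
    (a1 : Arc J₁ y z₁)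
    (h1 : Yp X y ∧ Mark X C U z₁ ∧ J₁ ⊆ X ∧ ∀ v ∈ J₁, v ≠ y → v ≠ z₁ → ¬ Mark X C U v)
    (a2 : Arc J₂ y z₂)
    (h2 : Yp X y ∧ Mark X C U z₂ ∧ J₂ ⊆ X ∧ ∀ v ∈ J₂, v ≠ y → v ≠ z₂ → ¬ Mark X C U v)
    (a3 : Arc J₃ y z₃)
    (h3 : Yp X y ∧ Mark X C U z₃ ∧ J₃ ⊆ X ∧ ∀ v ∈ J₃, v ≠ y → v ≠ z₃ → ¬ Mark X C U v) :
    J₁ = J₂ ∨ J₁ = J₃ ∨ J₂ = J₃ := by
  refine three_eq (Φ := fun J z => Mark X C U z ∧ ∀ v ∈ J, v ≠ y → v ≠ z → ¬ Mark X C U v)
    (a1.ja (h1.1.arc_G a1 h1.2.2.1 a1.left_mem)) (a2.ja (h1.1.arc_G a2 h2.2.2.1 a2.left_mem))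
    (a3.ja (h1.1.arc_G a3 h3.2.2.1 a3.left_mem)) ⟨h1.2.1, h1.2.2.2⟩
    ⟨h2.2.1, h2.2.2.2⟩ ⟨h3.2.1, h3.2.2.2⟩ ?_
  intro J z J' z' a f f' hz
  by_contra hne
  exact f'.2 z hz a.ne.symm hne f.1

theorem meas_next (hX : IsGδ X) (hM : Moore P) (hC : IsClosed C) (hU : IsOpen U) (hCU : C ⊆ U) :
    Measurable fun q : P × P => Next X C U q.1 q.2 := by
  have m0 := (ext_cont_left (P := P) 0).measurable
  have m1 := (ext_cont_left (P := P) 1).measurable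
  have mm := meas_mark hX hM hC hU
  have inner : ∀ a b : ℚ, Measurable fun c : C(Icc (0 : ℝ) 1, P) => ∃ t : ℝ,
      ((0 : ℝ) < a ∧ (a : ℝ) < b ∧ (b : ℝ) < 1) ∧ Can (ext c) ∧ ext c '' Icc 0 1 ⊆ X ∧
        (seg c a b : Set P) ⊆ U ∧ t ∈ Icc (a : ℝ) b ∧ Mark X C U (ext c t) := by
    intro a b
    refine meas_ex2' (measurable_const.and ((meas_can.comp measurable_fst).and
      (((meas_imX hX).comp measurable_fst).and (((meas_seg_sub hU a b).comp measurable_fst).and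
        ((measurableSet_Icc.mem.comp measurable_snd).and (mm.comp ext_cont2.measurable)))))) ?_
    rintro c r s t ⟨⟨h0, hab, h1⟩, hc, hx, hu, hr, mr⟩ ⟨-, -, -, -, hs, ms⟩ ⟨-, -, -, -, ht, mt⟩
    rw [coe_seg _ hab.le] at hu
    have hi := hc.1.mono (Icc_subset_Icc h0.le h1.le)
    rcases two_marks (arc_image (ext_cont c) hc.1 h0.le hab h1.le)
      ((image_mono (Icc_subset_Icc h0.le h1.le)).trans hx) hu ⟨⟨r, hr, rfl⟩, mr⟩ ⟨⟨s, hs, rfl⟩, ms⟩
      ⟨⟨t, ht, rfl⟩, mt⟩ with e | e | e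
    · exact Or.inl (hi hr hs e)
    · exact Or.inr (Or.inl (hi hr ht e))
    · exact Or.inr (Or.inr (hi hs ht e))
  refine (meas_arc (Φ := fun y J w => Yp X y ∧ Mark X C U w ∧ J ⊆ X ∧
    ∀ v ∈ J, v ≠ y → v ≠ w → ¬ Mark X C U v) (((smooth_part hX hM).1.comp m0).and
      ((mm.comp m1).and ((meas_imX hX).and
        (Measurable.exists fun a => Measurable.exists fun b => inner a b).not))) ?_ next_three).1
  intro c hc
  refine and_congr_right fun _ => and_congr_right fun _ => and_congr_right fun hx => ⟨?_, ?_⟩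
  · rintro h _ ⟨t, ht, rfl⟩ h0 h1 hm
    have t0 : 0 < t := lt_of_le_of_ne ht.1 fun e => h0 (by rw [← e])
    have t1 : t < 1 := lt_of_le_of_ne ht.2 fun e => h1 (by rw [e])
    obtain ⟨δ, hδ, hδ'⟩ := Metric.isOpen_iff.1 (hU.preimage (ext_cont c)) t (hCU hm.mem)
    obtain ⟨a, a1, a2⟩ := exists_rat_btwn (max_lt t0 (show t - δ < t by linarith))
    obtain ⟨b, b1, b2⟩ := exists_rat_btwn (lt_min t1 (show t < t + δ by linarith))
    rw [max_lt_iff] at a1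
    rw [lt_min_iff] at b2
    refine h ⟨a, b, t, ⟨a1.1, a2.trans b1, b2.1⟩, hc, hx, ?_, ⟨a2.le, b1.le⟩, hm⟩
    rw [coe_seg _ (a2.trans b1).le]
    rintro _ ⟨s, hs, rfl⟩
    refine hδ' ?_
    rw [mem_ball, Real.dist_eq, abs_lt]
    constructor <;> linarith [hs.1, hs.2, a1.2, b2.2]
  · rintro h ⟨a, b, t, ⟨h0, hab, h1⟩, -, -, -, ht, hm⟩
    have ht' : t ∈ Icc (0 : ℝ) 1 := ⟨h0.le.trans ht.1, ht.2.trans h1.le⟩
    refine h _ ⟨t, ht', rfl⟩ (fun e => ?_) (fun e => ?_) hm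
    · have := hc.1 ht' (left_mem_Icc.2 zero_le_one) e
      linarith [ht.1]
    · have := hc.1 ht' (right_mem_Icc.2 zero_le_one) e
      linarith [ht.2]

theorem red_marked (hX : IsGδ X) (hM : Moore P) (hC : IsClosed C) (hU : IsOpen U) {δ : ℝ}
    (hδ : 0 < δ) (hCU : ∀ x ∈ C, ball x δ ⊆ U) :
    (Measurable fun y => Yp X y ∧ ∃ w, Lf X y w ∧ Mark X C U w) ∧
      Red (fun y => Yp X y ∧ ∃ w, Lf X y w ∧ Mark X C U w) (Lf X) := by
  classical
  have mm := meas_mark hX hM hC hU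
  have mn := meas_next hX hM hC hU fun x hx => hCU x hx (mem_ball_self hδ)
  have n2 : ∀ v a b c, Next X C U v a → Next X C U v b → Next X C U v c →
      a = b ∨ a = c ∨ b = c := by
    rintro v a b c ⟨J₁, a1, h1⟩ ⟨J₂, a2, h2⟩ ⟨J₃, a3, h3⟩
    rcases next_three v _ _ _ _ _ _ a1 h1 a2 h2 a3 h3 with rfl | rfl | rfl
    · exact Or.inl (a1.end_eq a2)
    · exact Or.inr (Or.inl (a1.end_eq a3))
    · exact Or.inr (Or.inr (a2.end_eq a3))
  have hS : ∀ y, (Yp X y ∧ ∃ w, Lf X y w ∧ Mark X C U w) ↔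
      (Mark X C U y ∨ ∃ w, Next X C U y w) := by
    intro y
    constructor
    · rintro ⟨hy, w, rfl | ⟨J, j1, j2⟩, hw⟩
      · exact Or.inl hw
      · obtain ⟨u, hu, -⟩ := exists_next hδ hCU hy j1 (j2.trans G_sub) hw
        exact Or.inr ⟨u, hu⟩
    · rintro (h | ⟨w, hw⟩)
      · exact ⟨h.yp, y, Lf.refl y, h⟩
      · exact ⟨hw.mark.yp.lf hw.lf.symm, w, hw.lf, hw.mark⟩
  refine ⟨by simp only [hS]; exact mm.or (meas_ex2' mn n2), ?_⟩
  obtain ⟨f, f1, f2, f3⟩ := exists_sel2 mn n2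
  have hg := red_graph (N := fun a b => Mark X C U a ∧ Next X C U a b)
    ((mm.comp measurable_fst).and mn)
    (by
      rintro a b ⟨ha, J, j1, -, j3, j4, j5⟩
      exact ⟨j3, J, j1.symm, j3.yp, ha, j4, fun v hv h1 h2 => j5 v hv h2 h1⟩)
    fun v a b c ha hb hc => n2 v a b c ha.2 hb.2 hc.2
  set s : P → P := fun y => if Mark X C U y then y else
    if Next X C U y (f true y) then f true y else f false y with hs
  have sm : Measurable s := Measurable.ite mm.setOf measurable_id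
    (Measurable.ite (mn.comp (measurable_id.prodMk (f1 true))).setOf (f1 true) (f1 false))
  have sp : ∀ y, (Mark X C U y ∨ ∃ w, Next X C U y w) → Mark X C U (s y) ∧ Lf X y (s y) := by
    intro y hy
    by_cases h1 : Mark X C U y
    · simp only [hs, if_pos h1]; exact ⟨h1, Lf.refl y⟩
    by_cases h2 : Next X C U y (f true y)
    · simp only [hs, if_neg h1, if_pos h2]; exact ⟨h2.mark, h2.lf⟩
    simp only [hs, if_neg h1, if_neg h2]
    obtain ⟨w, hw⟩ := hy.resolve_left h1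
    obtain ⟨_ | _, rfl⟩ := f2 y w hw
    · exact ⟨hw.mark, hw.lf⟩
    · exact absurd hw h2
  refine hg.comap sm (fun _ _ => trivial) fun x y hx hy => ?_
  obtain ⟨x1, x2⟩ := sp x ((hS x).1 hx)
  obtain ⟨y1, y2⟩ := sp y ((hS y).1 hy)
  refine ⟨fun h => conn_of_lf hδ hCU x1 y1 ((x2.symm.trans h).trans y2), fun h => ?_⟩
  have : ∀ a b, ReflTransGen (fun a b => Mark X C U a ∧ Next X C U a b) a b → Lf X a b := by
    intro a b h
    induction h with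
    | refl => exact Lf.refl a
    | tail _ h ih => exact ih.trans h.2.lf
  exact (x2.trans (this _ _ h)).trans y2.symm

theorem red_leaf (hX : IsGδ X) (hM : Moore P) : Red (Yp X) (Lf X) := by
  obtain ⟨dec, hdec⟩ := exists_surjective_nat (ℕ × ℕ)
  have hpos : ∀ k : ℕ, (0 : ℝ) < 1 / ((k : ℝ) + 1) := fun k => by positivity
  set T : ℕ → P → Prop := fun j y => Yp X y ∧ ∃ w, Lf X y w ∧
    Mark X (closedBall (denseSeq P (dec j).1) (1 / (((dec j).2 : ℝ) + 1)))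
      (ball (denseSeq P (dec j).1) (2 * (1 / (((dec j).2 : ℝ) + 1)))) w with hT
  have key : ∀ j, Measurable (T j) ∧ Red (T j) (Lf X) := fun j =>
    red_marked hX hM isClosed_closedBall isOpen_ball (hpos (dec j).2) fun x hx y hy => by
      have := dist_triangle y x (denseSeq P (dec j).1)
      exact mem_ball.2 (by linarith [mem_ball.1 hy, mem_closedBall.1 hx])
  have inv : ∀ j x y, Lf X x y → (T j x ↔ T j y) := fun j x y h =>
    ⟨fun ⟨h1, w, h2, h3⟩ => ⟨h1.lf h, w, h.symm.trans h2, h3⟩,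
      fun ⟨h1, w, h2, h3⟩ => ⟨h1.lf h.symm, w, h.trans h2, h3⟩⟩
  refine red_split (fun y => ∃ j, T j y) (Measurable.exists fun j => (key j).1)
    (fun x y _ _ h => exists_congr fun j => inv j x y h) ?_ ?_
  · exact red_union T (fun j => (key j).1) (fun x hx => hx.2) (fun j x y _ _ h => inv j x y h)
      fun j => (key j).2.congr (fun x hx => hx.2) fun _ _ _ _ => Iff.rfl
  · obtain ⟨h, hm, hi⟩ := MeasurableSpace.measurable_injection_nat_bool_of_countablySeparated P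
    refine red_smooth (fun (k : ℕ) v => h v k = true)
      (fun k => ((measurable_pi_apply k).comp hm).eq_const true) fun x y hx _ => ⟨?_, fun hh => ?_⟩
    · rintro (rfl | ⟨J, j1, j2⟩)
      · exact fun _ => Iff.rfl
      · exfalso
        obtain ⟨k, hk⟩ := exists_nat_one_div_lt (div_pos (dist_pos.2 j1.ne) three_pos)
        obtain ⟨i, hi⟩ := (denseRange_denseSeq P).exists_dist_lt x (hpos k)
        obtain ⟨j, hj⟩ := hdec (i, k)
        refine hx.2 ⟨j, hx.1, ?_⟩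
        rw [hj]
        refine exists_mark hx.1 j1 (j2.trans G_sub) isClosed_closedBall isOpen_ball
          (closedBall_subset_ball (by linarith [hpos k])) hi.le fun hy => ?_
        have := dist_triangle_right x y (denseSeq P i)
        linarith [mem_ball.1 hy]
    · exact Or.inl (hi (funext fun k => Bool.eq_iff_iff.2 (hh k)))

theorem red_ec (hX : IsGδ X) (hM : Moore P) : Red (fun y => y ∈ X) (Ec X) := by
  refine red_split (Yp X) (smooth_part hX hM).1 (fun x y _ _ h => ⟨fun hx => hx.lf (hx.ec_iff.1 h),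
    fun hy => hy.lf (hy.ec_iff.1 fun ε hε => (h ε hε).symm)⟩) ?_ (smooth_part hX hM).2
  exact (red_leaf hX hM).congr (fun x hx => hx.2) fun x y hx _ => hx.2.ec_iff

end Pool.Agent.P.MP_ea3df5_lc
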