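import Pool.Agent.P.MP_ea3df5_lc.Cont

/-!
Moore's theorem: the plane contains only countably many pairwise disjoint triodic continua.
-/

namespace Pool.Agent.P.MP_ea3df5_lc

open Set Metric Complex TopologicalSpace

theorem log_exists {X : Type} [TopologicalSpace X] [SimplyConnectedSpace X]
    [LocallyPathConnectedSpace X] (g : X → ℂ) (hg : Continuous g) (h0 : ∀ x, g x ≠ 0) :
    ∃ f : X → ℂ, Continuous f ∧ ∀ x, exp (f x) = g x := by
  obtain ⟨x₀⟩ : Nonempty X := inferInstance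
  rcases isCoveringMapOn_exp.existsUnique_continuousMap_lifts (⟨g, hg⟩ : C(X, ℂ))
    (a₀ := x₀) (e₀ := log (g x₀)) (exp_log (h0 x₀)) (fun x => h0 x) with ⟨f, ⟨-, hf⟩, -⟩
  exact ⟨f, f.continuous, fun x => congrFun hf x⟩

theorem log_unique (f₁ f₂ : ℝ → ℂ) (h₁ : Continuous f₁) (h₂ : Continuous f₂) (c : ℂ)
    (h : ∀ t, exp (f₁ t) = c * exp (f₂ t)) : f₁ 1 - f₁ 0 = f₂ 1 - f₂ 0 := by
  have key : ∀ t, exp (f₁ t - f₂ t) = c := by
    intro t
    rw [exp_sub, h t]
    field_simp [exp_ne_zero (f₂ t)]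
  have hc : (fun t => f₁ t - f₂ t) 1 = (fun t => f₁ t - f₂ t) 0 := by
    apply isCoveringMap_exp.const_of_comp (g := fun t => f₁ t - f₂ t) (h₁.sub h₂)
    intro a a'
    apply Subtype.ext
    simp only [key]
  simp only at hc
  linear_combination hc

theorem log_path (g : ℝ → ℂ) (w : ℂ) : ∃ L : ℝ → ℂ, ∃ n : ℤ, Continuous g → (∀ t, g t ≠ w) →
    Continuous L ∧ (∀ t, exp (L t) = g t - w) ∧
      L 1 - L 0 = log (g 1 - w) - log (g 0 - w) + n * (2 * Real.pi * I) := by
  by_cases hh : Continuous g ∧ ∀ t, g t ≠ w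
  · obtain ⟨L, hLc, hLe⟩ := log_exists (fun t : ℝ => g t - w) (hh.1.sub continuous_const)
      fun t => sub_ne_zero.2 (hh.2 t)
    have e : exp (L 1 - L 0) = exp (log (g 1 - w) - log (g 0 - w)) := by
      rw [exp_sub, exp_sub, hLe, hLe, exp_log (sub_ne_zero.2 (hh.2 1)),
        exp_log (sub_ne_zero.2 (hh.2 0))]
    obtain ⟨n, hn⟩ := exp_eq_exp_iff_exists_int.1 e
    exact ⟨L, n, fun _ _ => ⟨hLc, hLe, hn⟩⟩
  · exact ⟨fun _ => 0, 0, fun h1 h2 => absurd ⟨h1, h2⟩ hh⟩

theorem log_flip (u v : ℂ) : ∃ n : ℤ, u ≠ v →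
    log (u - v) - log (v - u) = Real.pi * I + n * (2 * Real.pi * I) := by
  by_cases h : u = v
  · exact ⟨0, fun h' => absurd h h'⟩
  have e : exp (log (u - v) - log (v - u)) = exp (Real.pi * I) := by
    rw [exp_sub, exp_log (sub_ne_zero.2 h), exp_log (sub_ne_zero.2 (Ne.symm h)), exp_pi_mul_I,
      div_eq_iff (sub_ne_zero.2 (Ne.symm h))]
    ring
  obtain ⟨n, hn⟩ := exp_eq_exp_iff_exists_int.1 e
  exact ⟨n, fun _ => hn⟩

/-- no drawing of the complete bipartite graph on three plus three vertices in which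
non-adjacent edges are disjoint -/
theorem no_k33 (e : Fin 3 → Fin 3 → ℝ → ℂ) (c z : Fin 3 → ℂ) (hc : ∀ a i, Continuous (e a i))
    (h0 : ∀ a i, e a i 0 = c a) (h1 : ∀ a i, e a i 1 = z i)
    (hd : ∀ a b i j, a ≠ b → i ≠ j → ∀ s t, e a i s ≠ e b j t) : False := by
  choose L k hL using log_path
  choose n hn using log_flip
  have hpi : (2 * Real.pi * I : ℂ) ≠ 0 := two_pi_I_ne_zero
  have R : ∀ a b i j, a ≠ b → i ≠ j →
      1 + n (z i) (c b) - n (z j) (c a) + n (c b) (c a) + n (z j) (z i) + k (e a i) (c b)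
        - k (e b j) (c a) + k (e b j) (z i) - k (e a i) (z j) = 0 := by
    intro a b i j hab hij
    have hd' := hd a b i j hab hij
    obtain ⟨Θ, hΘc, hΘ⟩ := log_exists (fun q : ℝ × ℝ => e a i q.1 - e b j q.2)
      (((hc a i).comp continuous_fst).sub ((hc b j).comp continuous_snd))
      fun q => sub_ne_zero.2 (hd' _ _)
    obtain ⟨c1, e1, n1⟩ := hL (e a i) (c b) (hc a i) fun t => h0 b j ▸ hd' t 0
    obtain ⟨c2, e2, n2⟩ := hL (e a i) (z j) (hc a i) fun t => h1 b j ▸ hd' t 1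
    obtain ⟨c3, e3, n3⟩ := hL (e b j) (c a) (hc b j) fun t => h0 a i ▸ (hd' 0 t).symm
    obtain ⟨c4, e4, n4⟩ := hL (e b j) (z i) (hc b j) fun t => h1 a i ▸ (hd' 1 t).symm
    have u1 := log_unique (fun s => Θ (s, 0)) _ (by fun_prop) c1 1 (by
      intro t; rw [hΘ, e1]; simp only [h0, one_mul])
    have u2 := log_unique (fun s => Θ (s, 1)) _ (by fun_prop) c2 1 (by
      intro t; rw [hΘ, e2]; simp only [h1, one_mul])
    have u3 := log_unique (fun s => Θ (0, s)) _ (by fun_prop) c3 (-1) (by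
      intro t; rw [hΘ, e3]; simp only [h0]; ring)
    have u4 := log_unique (fun s => Θ (1, s)) _ (by fun_prop) c4 (-1) (by
      intro t; rw [hΘ, e4]; simp only [h1]; ring)
    have l1 := hn (z i) (c b) (h1 a i ▸ h0 b j ▸ hd' 1 0)
    have l2 := hn (z j) (c a) (h0 a i ▸ h1 b j ▸ (hd' 0 1).symm)
    have l3 := hn (c b) (c a) (h0 a i ▸ h0 b j ▸ (hd' 0 0).symm)
    have l4 := hn (z j) (z i) (h1 a i ▸ h1 b j ▸ (hd' 1 1).symm)
    simp only [h0, h1] at n1 n2 n3 n4
    have fin : ((1 + n (z i) (c b) - n (z j) (c a) + n (c b) (c a) + n (z j) (z i) + k (e a i) (c b)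
        - k (e b j) (c a) + k (e b j) (z i) - k (e a i) (z j) : ℤ) : ℂ) *
        (2 * Real.pi * I) = 0 := by
      push_cast
      linear_combination (-1 : ℂ) * (u1 + u4 - u3 - u2) - (n1 + n4 - n3 - n2) - (l1 - l2 + l3 + l4)
    exact_mod_cast (mul_eq_zero.1 fin).resolve_right hpi
  have S : ∀ i j, i ≠ j → n (z i) (z j) + n (z j) (z i) + 1 = 0 := by
    intro i j hij
    have hz : z i ≠ z j := h1 0 i ▸ h1 1 j ▸ hd 0 1 i j (by decide) hij 1 1
    have l1 := hn _ _ hz
    have l2 := hn _ _ hz.symm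
    have fin : ((n (z i) (z j) + n (z j) (z i) + 1 : ℤ) : ℂ) * (2 * Real.pi * I) = 0 := by
      push_cast
      linear_combination -l1 - l2
    exact_mod_cast (mul_eq_zero.1 fin).resolve_right hpi
  have s1 := S 0 1 (by decide)
  have s2 := S 0 2 (by decide)
  have s3 := S 1 2 (by decide)
  have a1 := R 0 1 0 1 (by decide) (by decide)
  have a2 := R 0 1 0 2 (by decide) (by decide)
  have a3 := R 0 1 1 0 (by decide) (by decide)
  have a4 := R 0 1 1 2 (by decide) (by decide)
  have a5 := R 0 1 2 0 (by decide) (by decide)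
  have a6 := R 0 1 2 1 (by decide) (by decide)
  have b1 := R 0 2 0 1 (by decide) (by decide)
  have b2 := R 0 2 0 2 (by decide) (by decide)
  have b3 := R 0 2 1 0 (by decide) (by decide)
  have b4 := R 0 2 1 2 (by decide) (by decide)
  have b5 := R 0 2 2 0 (by decide) (by decide)
  have b6 := R 0 2 2 1 (by decide) (by decide)
  have c1 := R 1 2 0 1 (by decide) (by decide)
  have c2 := R 1 2 0 2 (by decide) (by decide)
  have c3 := R 1 2 1 0 (by decide) (by decide)
  have c4 := R 1 2 1 2 (by decide) (by decide)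
  have c5 := R 1 2 2 0 (by decide) (by decide)
  have c6 := R 1 2 2 1 (by decide) (by decide)
  omega

variable {P : Type*} [NormedAddCommGroup P] [NormedSpace ℝ P]

/-- a triodic continuum together with three discs adapted to its arms -/
def Adapted (K : Set P) (z : Fin 3 → P) (r : Fin 3 → ℝ) : Prop :=
  (∀ i, 0 < r i) ∧ (∀ i j, i ≠ j → Disjoint (ball (z i) (r i)) (ball (z j) (r j))) ∧
    ∃ (A : Fin 3 → Set P) (c : P), ∀ i, Cont (A i) ∧ A i ⊆ K ∧ c ∈ A i ∧
      (A i ∩ ball (z i) (r i)).Nonempty ∧ ∀ j, j ≠ i → Disjoint (A i) (closedBall (z j) (r j))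

theorem not_three_adapted (f : P → ℂ) (hf : Continuous f) (hi : Function.Injective f)
    {K : Fin 3 → Set P} (hK : ∀ a, IsCompact (K a)) (hd : ∀ a b, a ≠ b → Disjoint (K a) (K b))
    {z : Fin 3 → P} {r : Fin 3 → ℝ} (h : ∀ a, Adapted (K a) z r) : False := by
  have hr := (h 0).1
  have hb := (h 0).2.1
  choose A c hA using fun a => (h a).2.2
  have hδ : ∀ a b, ∃ δ > 0, a ≠ b → Disjoint (thickening δ (K a)) (thickening δ (K b)) := by
    intro a b
    by_cases hab : a = b
    · exact ⟨1, one_pos, fun h => absurd hab h⟩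
    · obtain ⟨δ, h1, h2⟩ := (hd a b hab).exists_thickenings (hK a) (hK b).isClosed
      exact ⟨δ, h1, fun _ => h2⟩
  choose δ hδ hδ' using hδ
  set U : Fin 3 → Set P := fun a => ⋂ b, thickening (δ a b) (K a) ∩ thickening (δ b a) (K a)
  have hU : ∀ a, IsOpen (U a) := fun a =>
    isOpen_iInter_of_finite fun b => isOpen_thickening.inter isOpen_thickening
  have hKU : ∀ a, K a ⊆ U a := fun a => subset_iInter fun b =>
    subset_inter (self_subset_thickening (hδ a b) _) (self_subset_thickening (hδ b a) _)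
  have hUd : ∀ a b, a ≠ b → Disjoint (U a) (U b) := fun a b hab =>
    (hδ' a b hab).mono ((iInter_subset _ b).trans inter_subset_left)
      ((iInter_subset _ a).trans inter_subset_right)
  set O : Fin 3 → Fin 3 → Set P := fun a i =>
    (U a ∩ ⋂ j, ⋂ (_ : j ≠ i), (closedBall (z j) (r j))ᶜ) ∪ ball (z i) (r i) with hO
  have hOo : ∀ a i, IsOpen (O a i) := fun a i =>
    ((hU a).inter (isOpen_iInter_of_finite fun j => isOpen_iInter_of_finite fun _ =>
      isClosed_closedBall.isOpen_compl)).union isOpen_ball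
  have hp : ∀ a i, JoinedIn (O a i) (c a) (z i) := by
    intro a i
    obtain ⟨a1, a2, a3, a4, a5⟩ := hA a i
    have hs : A a i ∪ ball (z i) (r i) ⊆ O a i := union_subset_union_left _
      (subset_inter (a2.trans (hKU a)) (subset_iInter₂ fun j hj =>
        subset_compl_iff_disjoint_right.2 (a5 j hj)))
    have hpre : IsPreconnected (A a i ∪ ball (z i) (r i)) :=
      a1.pre.union' a4 (convex_ball _ _).isPreconnected
    have h1 := hpre.subset_connectedComponentIn (Or.inl a3) hs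
    have h2 := ((hOo a i).connectedComponentIn (x := c a)).isConnected_iff_isPathConnected.1
      (isConnected_connectedComponentIn_iff.2 (hs (Or.inl a3)))
    exact (h2.joinedIn _ (h1 (Or.inl a3)) _ (h1 (Or.inr (mem_ball_self (hr i))))).mono
      (connectedComponentIn_subset _ _)
  choose γ hγ using hp
  refine no_k33 (fun a i t => f ((γ a i).extend t)) (fun a => f (c a)) (fun i => f (z i))
    (fun a i => hf.comp (γ a i).continuous_extend) (fun a i => by simp) (fun a i => by simp) ?_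
  intro a b i j hab hij s t e
  have e' := hi e
  have m : ∀ a i t, (γ a i).extend t ∈ O a i := fun a i t => by
    have : (γ a i).extend t ∈ range (γ a i) := (γ a i).extend_range ▸ mem_range_self t
    obtain ⟨u, hu⟩ := this
    exact hu ▸ hγ a i u
  have m1 := m a i s
  have m2 := m b j t
  rw [← e'] at m2
  rcases m1 with m1 | m1 <;> rcases m2 with m2 | m2
  · exact Set.disjoint_left.1 (hUd a b hab) m1.1 m2.1
  · exact mem_iInter₂.1 m1.2 j hij.symm (ball_subset_closedBall m2)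
  · exact mem_iInter₂.1 m2.2 i hij (ball_subset_closedBall m1)
  · exact Set.disjoint_left.1 (hb i j hij) m1 m2

omit [NormedSpace ℝ P] in
theorem exists_adapted [SeparableSpace P] {K : Set P} (h : Triodic K) :
    ∃ (n : Fin 3 → ℕ) (q : Fin 3 → ℚ), Adapted K (fun i => denseSeq P (n i)) fun i => q i := by
  obtain ⟨A, B, C, h1, h2, h3, ⟨c, h4⟩, h5, h6, h7, h8, h9, h10⟩ := h
  have key : ∀ (F : Set P) (p : P), IsClosed F → p ∉ F → ∃ (n : ℕ) (q : ℚ), (0 : ℝ) < q ∧
      p ∈ ball (denseSeq P n) q ∧ Disjoint F (closedBall (denseSeq P n) q) := by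
    intro F p hF hp
    obtain ⟨ε, hε, hb⟩ := Metric.isOpen_iff.1 hF.isOpen_compl p hp
    obtain ⟨q, q1, q2⟩ := exists_rat_btwn (show (0 : ℝ) < ε / 2 by positivity)
    obtain ⟨n, hn⟩ := (denseRange_denseSeq P).exists_dist_lt p q1
    refine ⟨n, q, q1, hn, Set.disjoint_right.2 fun x hx => hb ?_⟩
    have := dist_triangle x (denseSeq P n) p
    rw [dist_comm] at hn
    exact mem_ball.2 (by linarith [mem_closedBall.1 hx])
  obtain ⟨a, ha, ha'⟩ := not_subset.1 h5
  obtain ⟨b, hb, hb'⟩ := not_subset.1 h6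
  obtain ⟨d, hd, hd'⟩ := not_subset.1 h7
  obtain ⟨n1, q1, p1, m1, d1⟩ := key _ a (h2.closed.union h3.closed) ha'
  rw [disjoint_union_left] at d1
  obtain ⟨n2, q2, p2, m2, d2⟩ := key (A ∪ C ∪ closedBall (denseSeq P n1) q1) b
    ((h1.closed.union h3.closed).union isClosed_closedBall)
    (fun h => h.elim hb' (Set.disjoint_left.1 d1.1 hb))
  rw [disjoint_union_left, disjoint_union_left] at d2
  obtain ⟨n3, q3, p3, m3, d3⟩ := key
    (A ∪ B ∪ closedBall (denseSeq P n1) q1 ∪ closedBall (denseSeq P n2) q2) d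
    (((h1.closed.union h2.closed).union isClosed_closedBall).union isClosed_closedBall)
    (fun h => h.elim (fun h => h.elim hd' (Set.disjoint_left.1 d1.2 hd))
      (Set.disjoint_left.1 d2.1.2 hd))
  rw [disjoint_union_left, disjoint_union_left, disjoint_union_left] at d3
  have bb : ∀ {x y : P} {r s : ℝ}, Disjoint (closedBall x r) (closedBall y s) →
      Disjoint (ball x r) (ball y s) := fun h => h.mono ball_subset_closedBall ball_subset_closedBall
  refine ⟨![n1, n2, n3], ![q1, q2, q3], ?_, ?_, ![A, B, C], c, ?_⟩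
  · intro i
    fin_cases i
    exacts [p1, p2, p3]
  · intro i j hij
    fin_cases i <;> fin_cases j
    exacts [absurd rfl hij, bb d2.2, bb d3.1.2, (bb d2.2).symm, absurd rfl hij, bb d3.2,
      (bb d3.1.2).symm, (bb d3.2).symm, absurd rfl hij]
  · intro i
    fin_cases i
    · refine ⟨h1, h8, h4.1.1, ⟨a, ha, m1⟩, fun j hj => ?_⟩
      fin_cases j
      exacts [absurd rfl hj, d2.1.1, d3.1.1.1]
    · refine ⟨h2, h9, h4.1.2, ⟨b, hb, m2⟩, fun j hj => ?_⟩
      fin_cases j
      exacts [d1.1, absurd rfl hj, d3.1.1.2]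
    · refine ⟨h3, h10, h4.2, ⟨d, hd, m3⟩, fun j hj => ?_⟩
      fin_cases j
      exacts [d1.2, d2.1.2, absurd rfl hj]

/-- Moore's theorem for weak triods -/
theorem moore [SeparableSpace P] (f : P → ℂ) (hf : Continuous f) (hi : Function.Injective f)
    {𝓕 : Set (Set P)} (h : ∀ K ∈ 𝓕, Cont K ∧ Triodic K) (hd : 𝓕.PairwiseDisjoint id) :
    𝓕.Countable := by
  classical
  have : 𝓕 ⊆ ⋃ (n : Fin 3 → ℕ) (q : Fin 3 → ℚ),
      {K ∈ 𝓕 | Adapted K (fun i => denseSeq P (n i)) fun i => q i} := by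
    intro K hK
    obtain ⟨n, q, hq⟩ := exists_adapted (h K hK).2
    exact mem_iUnion₂.2 ⟨n, q, hK, hq⟩
  refine (countable_iUnion fun n => countable_iUnion fun q => Finite.countable ?_).mono this
  by_contra hinf
  obtain ⟨t, ht, hc⟩ := Set.Infinite.exists_subset_card_eq hinf 3
  obtain ⟨a, b, c, h1, h2, h3, rfl⟩ := Finset.card_eq_three.1 hc
  have ma := ht (show a ∈ _ by simp)
  have mb := ht (show b ∈ _ by simp)
  have mc := ht (show c ∈ _ by simp)
  refine not_three_adapted f hf hi (K := ![a, b, c]) (z := fun i => denseSeq P (n i))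
    (r := fun i => q i) ?_ ?_ ?_
  · intro i
    fin_cases i
    exacts [(h a ma.1).1.compact, (h b mb.1).1.compact, (h c mc.1).1.compact]
  · intro i j hij
    fin_cases i <;> fin_cases j
    exacts [absurd rfl hij, hd ma.1 mb.1 h1, hd ma.1 mc.1 h2, hd mb.1 ma.1 h1.symm, absurd rfl hij,
      hd mb.1 mc.1 h3, hd mc.1 ma.1 h2.symm, hd mc.1 mb.1 h3.symm, absurd rfl hij]
  · intro i
    fin_cases i
    exacts [ma.2, mb.2, mc.2]

end Pool.Agent.P.MP_ea3df5_lc
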