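import Pool.Agent.P.MP_ea3df5_lc.Leaf2
import Pool.Agent.P.MP_ea3df5_lc.Dst

/-!
The compact sets which are not locally atriodic form a Borel set.
-/

namespace Pool.Agent.P.MP_ea3df5_lc

open Set Metric Topology Filter TopologicalSpace

variable {P : Type*} [MetricSpace P] {X : Set P}

/-- Moore's property -/
def Moore (P : Type*) [MetricSpace P] : Prop :=
  ∀ 𝓕 : Set (Set P), (∀ K ∈ 𝓕, Cont K ∧ Triodic K) → 𝓕.PairwiseDisjoint id → 𝓕.Countable

theorem near_of_dist {K B : NonemptyCompacts P} {x : P} (hx : x ∈ (K : Set P)) :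
    ∃ y ∈ (B : Set P), dist x y ≤ dist K B := by
  obtain ⟨y, hy, e⟩ := B.isCompact.exists_infDist_eq_dist B.nonempty x
  exact ⟨y, hy, e ▸ infDist_le_hausdorffDist_of_mem hx
    (hausdorffEDist_ne_top_of_nonempty_of_bounded K.nonempty B.nonempty K.isCompact.isBounded
      B.isCompact.isBounded)⟩

theorem dist_le_of_near {K B : NonemptyCompacts P} {r : ℝ} (hr : 0 ≤ r)
    (h1 : ∀ x ∈ (K : Set P), ∃ y ∈ (B : Set P), dist x y ≤ r)
    (h2 : ∀ x ∈ (B : Set P), ∃ y ∈ (K : Set P), dist x y ≤ r) : dist K B ≤ r :=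
  hausdorffDist_le_of_mem_dist hr h1 h2

theorem diam_le_of_near {K B : Set P} (hB : Bornology.IsBounded B) {r : ℝ} (hr : 0 ≤ r)
    (h1 : ∀ x ∈ K, ∃ y ∈ B, dist x y ≤ r) : diam K ≤ diam B + 2 * r := by
  refine diam_le_of_forall_dist_le (by positivity [diam_nonneg (s := B)]) fun x hx y hy => ?_
  obtain ⟨a, ha, h⟩ := h1 x hx
  obtain ⟨b, hb, h'⟩ := h1 y hy
  have := dist_le_diam_of_mem hB ha hb
  have := dist_triangle4_right x y a b
  linarith

theorem continuous_diam : Continuous fun B : NonemptyCompacts P => diam (B : Set P) := by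
  refine (LipschitzWith.of_le_add_mul 2 fun A B => ?_).continuous
  simpa using diam_le_of_near B.isCompact.isBounded dist_nonneg fun x hx => near_of_dist hx

/-- both sets lie in a continuum which is close to each of them -/
def Nr (X B B' : Set P) (r : ℝ) : Prop :=
  ∃ K, Cont K ∧ K ⊆ X ∧ B ⊆ K ∧ B' ⊆ K ∧ ∃ s, 0 ≤ s ∧ s < r ∧ (∀ x ∈ K, ∃ y ∈ B, dist x y ≤ s) ∧
    ∀ x ∈ K, ∃ y ∈ B', dist x y ≤ s

theorem Nr.symm {B B' : Set P} {r : ℝ} (h : Nr X B B' r) : Nr X B' B r := by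
  obtain ⟨K, h1, h2, h3, h4, s, h5, h6, h7, h8⟩ := h
  exact ⟨K, h1, h2, h4, h3, s, h5, h6, h8, h7⟩

theorem Nr.mono {B B' : Set P} {r r' : ℝ} (h : Nr X B B' r) (hr : r ≤ r') : Nr X B B' r' := by
  obtain ⟨K, h1, h2, h3, h4, s, h5, h6, h7, h8⟩ := h
  exact ⟨K, h1, h2, h3, h4, s, h5, h6.trans_le hr, h7, h8⟩

theorem Nr.trans {B B' B'' : Set P} {r r' : ℝ} (h : Nr X B B' r) (h' : Nr X B' B'' r')
    (hB : B'.Nonempty) : Nr X B B'' (r + r') := by
  obtain ⟨K, h1, h2, h3, h4, s, h5, h6, h7, h8⟩ := h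
  obtain ⟨K', k1, k2, k3, k4, s', k5, k6, k7, k8⟩ := h'
  obtain ⟨b, hb⟩ := hB
  refine ⟨K ∪ K', h1.union' k1 (h4 hb) (k3 hb), union_subset h2 k2, h3.trans subset_union_left,
    k4.trans subset_union_right, s + s', by linarith, by linarith, ?_, ?_⟩
  · rintro x (hx | hx)
    · exact (h7 x hx).imp fun y hy => ⟨hy.1, by linarith [hy.2]⟩
    · obtain ⟨y, hy, e⟩ := k7 x hx
      obtain ⟨z, hz, e'⟩ := h7 y (h4 hy)
      exact ⟨z, hz, by linarith [dist_triangle x y z]⟩
  · rintro x (hx | hx)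
    · obtain ⟨y, hy, e⟩ := h8 x hx
      obtain ⟨z, hz, e'⟩ := k8 y (k3 hy)
      exact ⟨z, hz, by linarith [dist_triangle x y z]⟩
    · exact (k8 x hx).imp fun y hy => ⟨hy.1, by linarith [hy.2]⟩

theorem Nr.dist_lt {B B' : NonemptyCompacts P} {r : ℝ} (h : Nr X B B' r) : dist B B' < r := by
  obtain ⟨K, h1, h2, h3, h4, s, h5, h6, h7, h8⟩ := h
  exact (dist_le_of_near h5 (fun x hx => h8 x (h3 hx)) fun x hx => h7 x (h4 hx)).trans_lt h6

theorem Nr.exists_rat {B B' : Set P} {r : ℝ} (h : Nr X B B' r) :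
    ∃ q : ℚ, (q : ℝ) < r ∧ Nr X B B' q := by
  obtain ⟨K, h1, h2, h3, h4, s, h5, h6, h7, h8⟩ := h
  obtain ⟨q, q1, q2⟩ := exists_rat_btwn h6
  exact ⟨q, q2, K, h1, h2, h3, h4, s, h5, q1, h7, h8⟩

theorem nr_limit {B : NonemptyCompacts P} (hB : (B : Set P) ⊆ X) {L : ℕ → NonemptyCompacts P}
    (h1 : ∀ k : ℕ, dist B (L k) < 1 / ((k : ℝ) + 1))
    (h2 : ∀ k : ℕ, Nr X (L k) (L (k + 1)) (2 / ((k : ℝ) + 1))) (m : ℕ) :
    Nr X B (L m) (5 / ((m : ℝ) + 1)) := by
  choose K k1 k2 k3 k4 s k5 k6 k7 k8 using h2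
  have hKB : ∀ k : ℕ, ∀ x ∈ K k, ∃ y ∈ (B : Set P), dist x y ≤ 3 / ((k : ℝ) + 1) := by
    intro k x hx
    obtain ⟨y, hy, e⟩ := k7 k x hx
    obtain ⟨z, hz, e'⟩ := near_of_dist (B := B) hy
    refine ⟨z, hz, ?_⟩
    have := dist_triangle x y z
    have := h1 k
    have := k6 k
    rw [dist_comm (L k) B] at e'
    have : (3 : ℝ) / (k + 1) = 2 / (k + 1) + 1 / (k + 1) := by ring
    linarith
  have hBK : ∀ k : ℕ, ∀ x ∈ (B : Set P), ∃ y ∈ K k, dist x y ≤ 3 / ((k : ℝ) + 1) := by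
    intro k x hx
    obtain ⟨y, hy, e⟩ := near_of_dist (B := L k) hx
    refine ⟨y, k3 k hy, e.trans ((h1 k).le.trans ?_)⟩
    gcongr; norm_num
  let KK : ℕ → NonemptyCompacts P := fun k => ⟨⟨K (k + m), (k1 _).compact⟩, (k1 _).nonempty⟩
  have hlim0 : Tendsto (fun k : ℕ => 3 / (((k + m : ℕ) : ℝ) + 1)) atTop (𝓝 0) := by
    have := (tendsto_one_div_add_atTop_nhds_zero_nat.comp (tendsto_add_atTop_nat m)).const_mul
      (3 : ℝ)
    simpa [Function.comp_def, div_eq_mul_inv] using this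
  have hlim : Tendsto KK atTop (𝓝 B) := by
    rw [tendsto_iff_dist_tendsto_zero]
    exact squeeze_zero (fun _ => dist_nonneg)
      (fun k => dist_le_of_near (by positivity) (hKB (k + m)) (hBK (k + m))) hlim0
  have hc := NonemptyCompacts.isCompact_biUnion_coe_of_isCompact hlim.isCompact_insert_range
  rw [biUnion_insert, biUnion_range] at hc
  have hpre : IsPreconnected (⋃ k, (KK k : Set P)) :=
    IsPreconnected.iUnion_of_chain (fun k => (k1 _).pre) fun k => by
      obtain ⟨x, hx⟩ := (L (k + m + 1)).nonempty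
      refine ⟨x, k4 _ hx, ?_⟩
      change x ∈ K (k + 1 + m)
      rw [show k + 1 + m = k + m + 1 by ring]
      exact k3 _ hx
  have hnear : ∀ x ∈ (B : Set P) ∪ ⋃ k, (KK k : Set P), ∃ y ∈ (B : Set P),
      dist x y ≤ 3 / ((m : ℝ) + 1) := by
    rintro x (hx | hx)
    · exact ⟨x, hx, by simp only [dist_self]; positivity⟩
    · obtain ⟨k, hk⟩ := mem_iUnion.1 hx
      obtain ⟨y, hy, e⟩ := hKB _ x hk
      refine ⟨y, hy, e.trans ?_⟩
      gcongr
      exact Nat.le_add_left m k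
  refine ⟨(B : Set P) ∪ ⋃ k, (KK k : Set P), ⟨hc, B.nonempty.mono subset_union_left,
    hpre.subset_closure subset_union_right (union_subset ?_ subset_closure)⟩,
    union_subset hB (iUnion_subset fun k => k2 _), subset_union_left, ?_, 4 / ((m : ℝ) + 1),
    by positivity, by gcongr; norm_num, ?_, ?_⟩
  · intro x hx
    refine Metric.mem_closure_iff.2 fun ε hε => ?_
    obtain ⟨k, hk⟩ := (hlim0.eventually (gt_mem_nhds hε)).exists
    obtain ⟨y, hy, e⟩ := hBK (k + m) x hx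
    exact ⟨y, mem_iUnion.2 ⟨k, hy⟩, e.trans_lt hk⟩
  · refine subset_union_of_subset_right (subset_iUnion_of_subset 0 ?_) _
    change _ ⊆ K (0 + m)
    rw [zero_add]; exact k3 m
  · intro x hx
    obtain ⟨y, hy, e⟩ := hnear x hx
    refine ⟨y, hy, e.trans ?_⟩
    gcongr; norm_num
  · intro x hx
    obtain ⟨y, hy, e⟩ := hnear x hx
    obtain ⟨z, hz, e'⟩ := near_of_dist (B := L m) hy
    refine ⟨z, hz, ?_⟩
    have := dist_triangle x y z
    have := h1 m
    have : (4 : ℝ) / (m + 1) = 3 / (m + 1) + 1 / (m + 1) := by ring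
    linarith

variable [SecondCountableTopology P]

theorem exists_family (hM : Moore P) (X : Set P) : ∃ 𝓓 : Set (NonemptyCompacts P), 𝓓.Countable ∧
    (∀ L ∈ 𝓓, Triodic (L : Set P)) ∧
    ∀ B : Set P, NL X B → ∀ ε > 0, ∃ L ∈ 𝓓, Nr X B L ε := by
  set 𝓣 := {K : NonemptyCompacts P | Cont (K : Set P) ∧ (K : Set P) ⊆ X ∧ Triodic (K : Set P)}
  have key : ∀ U : Set (NonemptyCompacts P), ∃ D ⊆ 𝓣 ∩ U, D.Countable ∧
      ∀ K ∈ 𝓣 ∩ U, ∃ L ∈ D, ((K : Set P) ∩ L).Nonempty := by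
    intro U
    obtain ⟨D, hD⟩ := zorn_subset {D | D ⊆ 𝓣 ∩ U ∧
      D.PairwiseDisjoint fun K : NonemptyCompacts P => (K : Set P)} fun c hc hch =>
        ⟨⋃₀ c, ⟨sUnion_subset fun D hD => (hc hD).1,
          (pairwiseDisjoint_sUnion hch.directedOn).2 fun D hD => (hc hD).2⟩,
          fun D hD => subset_sUnion_of_mem hD⟩
    refine ⟨D, hD.1.1, ?_, fun K hK => ?_⟩
    · refine countable_of_injective_of_countable_image (f := fun K : NonemptyCompacts P =>
        (K : Set P)) SetLike.coe_injective.injOn (hM _ ?_ ?_)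
      · rintro _ ⟨K, hK, rfl⟩
        exact ⟨(hD.1.1 hK).1.1, (hD.1.1 hK).1.2.2⟩
      · rintro _ ⟨K, hK, rfl⟩ _ ⟨L, hL, rfl⟩ hne
        exact hD.1.2 hK hL fun e => hne (by rw [e])
    · by_contra h
      push Not at h
      have hmem : K ∈ D := hD.2 (y := insert K D) ⟨insert_subset hK hD.1.1,
        hD.1.2.insert fun L hL _ => disjoint_iff_inter_eq_empty.2 (h L hL)⟩
        (subset_insert _ _) (mem_insert _ _)
      have := h K hmem
      rw [inter_self] at this
      exact K.nonempty.ne_empty this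
  choose D hD1 hD2 hD3 using key
  obtain ⟨C, hC, hCd⟩ := exists_countable_dense (NonemptyCompacts P)
  refine ⟨⋃ c ∈ C, ⋃ q : ℚ, D (ball c q), hC.biUnion fun c _ => countable_iUnion fun q => hD2 _,
    fun L hL => ?_, fun B hB ε hε => ?_⟩
  · simp only [mem_iUnion] at hL
    obtain ⟨c, -, q, hL⟩ := hL
    exact (hD1 _ hL).1.2.2
  · obtain ⟨q, q1, q2⟩ := exists_rat_btwn (show (0 : ℝ) < ε / 3 by positivity)
    obtain ⟨K, k1, k2, k3, k4, k5⟩ := hB q q1
    let KK : NonemptyCompacts P := ⟨⟨K, k1.compact⟩, k1.nonempty⟩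
    obtain ⟨c, hc, hcK⟩ := hCd.exists_dist_lt KK q1
    obtain ⟨L, hL, hKL⟩ := hD3 (ball c q) KK ⟨⟨k1, k2, k5⟩, hcK⟩
    obtain ⟨⟨l1, l2, l3⟩, l4⟩ := hD1 _ hL
    have hd : dist KK L ≤ 2 * q := by
      have := dist_triangle_right KK L c
      linarith [mem_ball.1 l4]
    have hKB : ∀ x ∈ K, ∃ y ∈ B, dist x y ≤ q := fun x hx =>
      (mem_thickening_iff.1 (k4 hx)).imp fun y hy => ⟨hy.1, hy.2.le⟩
    refine ⟨L, mem_iUnion₂.2 ⟨c, hc, mem_iUnion.2 ⟨q, hL⟩⟩, K ∪ L, k1.union l1 hKL,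
      union_subset k2 l2, k3.trans subset_union_left, subset_union_right, 3 * q, by linarith,
      by linarith, ?_, ?_⟩
    · rintro x (hx | hx)
      · exact (hKB x hx).imp fun y hy => ⟨hy.1, by linarith [hy.2]⟩
      · obtain ⟨y, hy, e⟩ := near_of_dist (B := KK) hx
        obtain ⟨z, hz, e'⟩ := hKB y hy
        rw [dist_comm L KK] at e
        exact ⟨z, hz, by linarith [dist_triangle x y z]⟩
    · rintro x (hx | hx)
      · exact (near_of_dist (K := KK) (B := L) hx).imp fun y hy => ⟨hy.1, by linarith [hy.2]⟩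
      · exact ⟨x, hx, by simp only [dist_self]; linarith⟩

variable [CompleteSpace P] [MeasurableSpace (NonemptyCompacts P)] [BorelSpace (NonemptyCompacts P)]

omit [CompleteSpace P] [SecondCountableTopology P] in
theorem meas_subset (hX : IsGδ X) : Measurable fun B : NonemptyCompacts P => (B : Set P) ⊆ X := by
  obtain ⟨O, hO, rfl⟩ := hX.eq_iInter_nat
  simp only [subset_iInter_iff]
  exact Measurable.forall fun n => measurableSet_setOfPred.1
    (NonemptyCompacts.isOpen_subsets_of_isOpen (hO n)).measurableSet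

theorem meas_nr (hX : IsGδ X) {ι : Type*} [Countable ι] {L : ι → NonemptyCompacts P}
    (hL : ∀ i, Triodic (L i : Set P)) (hN : ∀ B : Set P, NL X B → ∀ ε > 0, ∃ i, Nr X B (L i) ε)
    (i : ι) (q : ℚ) :
    Measurable fun B : NonemptyCompacts P => (B : Set P) ⊆ X ∧ NL X B ∧ Nr X B (L i) q := by
  set Z : NonemptyCompacts P → (ι × ℚ → Prop) → Prop := fun B a => (B : Set P) ⊆ X ∧
    (∀ i q, a (i, q) → dist B (L i) < q) ∧
    (∀ i q j q', a (i, q) → a (j, q') → Nr X (L i) (L j) (q + q')) ∧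
    (∀ i (q : ℚ) j q', a (j, q') → Nr X (L j) (L i) q → a (i, q' + q)) ∧
    (∀ q : ℚ, 0 < q → ∃ i, a (i, q)) ∧ (∀ i q, a (i, q) → ∃ q' < q, a (i, q')) ∧
    ∀ i q q', a (i, q) → q ≤ q' → a (i, q') with hZ
  have ev : ∀ k : ι × ℚ, Measurable fun x : NonemptyCompacts P × (ι × ℚ → Prop) => x.2 k :=
    fun k => (measurable_pi_apply k).comp measurable_snd
  have Zm : Measurable fun x : NonemptyCompacts P × (ι × ℚ → Prop) => Z x.1 x.2 := by
    refine ((meas_subset hX).comp measurable_fst).and (Measurable.and ?_ (Measurable.and ?_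
      (Measurable.and ?_ (Measurable.and ?_ (Measurable.and ?_ ?_)))))
    · refine .forall fun i => .forall fun q => (ev _).imp ?_
      exact (measurableSet_setOfPred.1 (isOpen_ball (x := L i) (ε := q)).measurableSet).comp
        measurable_fst
    · exact .forall fun i => .forall fun q => .forall fun j => .forall fun q' =>
        (ev _).imp ((ev _).imp measurable_const)
    · exact .forall fun i => .forall fun q => .forall fun j => .forall fun q' =>
        (ev _).imp (measurable_const.imp (ev _))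
    · exact .forall fun q => measurable_const.imp (.exists fun i => ev _)
    · exact .forall fun i => .forall fun q => (ev _).imp
        (.exists fun q' => measurable_const.and (ev _))
    · exact .forall fun i => .forall fun q => .forall fun q' =>
        (ev _).imp (measurable_const.imp (ev _))
  have sound : ∀ B a, Z B a → NL X B ∧ ∀ i q, a (i, q) ↔ Nr X B (L i) q := by
    rintro B a ⟨z0, z1, z2, z3, z4, z5, z6⟩
    have lim : ∀ η : ℚ, 0 < η → ∃ j, a (j, η) ∧ Nr X B (L j) η := by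
      intro η hη
      choose j hj using fun k : ℕ => z4 (1 / ((k : ℚ) + 1)) (by positivity)
      obtain ⟨m, hm⟩ := exists_nat_one_div_lt (show (0 : ℚ) < η / 5 by positivity)
      have := nr_limit z0 (L := fun k => L (j k)) (fun k => by simpa using z1 _ _ (hj k))
        (fun k => (z2 _ _ _ _ (hj k) (hj (k + 1))).mono (by
          push_cast
          have : (1 : ℝ) / (k + 1 + 1) ≤ 1 / (k + 1) := by gcongr; linarith
          have : (2 : ℝ) / (k + 1) = 1 / (k + 1) + 1 / (k + 1) := by ring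
          linarith)) m
      refine ⟨j m, z6 _ _ _ (hj m) (by linarith), this.mono ?_⟩
      have h5 : 5 / ((m : ℚ) + 1) ≤ η := by
        have : 5 / ((m : ℚ) + 1) = 5 * (1 / ((m : ℚ) + 1)) := by ring
        linarith
      have h6 : ((5 / ((m : ℚ) + 1) : ℚ) : ℝ) ≤ η := Rat.cast_le.2 h5
      push_cast at h6
      exact h6
    refine ⟨fun ε hε => ?_, fun i q => ⟨fun h => ?_, fun h => ?_⟩⟩
    · obtain ⟨η, h1, h2⟩ := exists_rat_btwn hε
      obtain ⟨j, -, K, k1, k2, k3, k4, s, k5, k6, k7, -⟩ := lim η (by exact_mod_cast h1)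
      refine ⟨K, k1, k2, k3, fun x hx => ?_, (hL j).mono k4⟩
      obtain ⟨y, hy, e⟩ := k7 x hx
      exact mem_thickening_iff.2 ⟨y, hy, by linarith⟩
    · obtain ⟨q', h1, h2⟩ := z5 i q h
      obtain ⟨j, j1, j2⟩ := lim ((q - q') / 2) (by linarith)
      refine (j2.trans (z2 _ _ _ _ j1 h2) (L j).nonempty).mono (le_of_eq ?_)
      push_cast; ring
    · obtain ⟨q', h1, h2⟩ := h.exists_rat
      have h1' : q' < q := by exact_mod_cast h1
      obtain ⟨j, j1, j2⟩ := lim ((q - q') / 2) (by linarith)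
      have := z3 i ((q - q') / 2 + q') j _ j1 (by
        have := j2.symm.trans h2 B.nonempty
        push_cast at this ⊢
        exact this)
      rwa [show (q - q') / 2 + ((q - q') / 2 + q') = q by ring] at this
  have complete : ∀ B : NonemptyCompacts P, (B : Set P) ⊆ X → NL X B →
      Z B fun k => Nr X B (L k.1) k.2 := by
    intro B hB hnl
    refine ⟨hB, fun i q h => h.dist_lt, fun i q j q' h h' => h.symm.trans h' B.nonempty,
      fun i q j q' h h' => ?_, fun q hq => hN B hnl q (by exact_mod_cast hq), fun i q h => ?_,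
      fun i q q' h hq => h.mono (by exact_mod_cast hq)⟩
    · have := h.trans h' (L j).nonempty
      push_cast
      exact this
    · obtain ⟨q', h1, h2⟩ := h.exists_rat
      exact ⟨q', by exact_mod_cast h1, h2⟩
  have := meas_ex1 (Zm.and (ev (i, q))) measurable_fst (by
    rintro ⟨B, a⟩ ⟨_, a'⟩ h h' (rfl : B = _)
    congr
    funext ⟨i, q⟩
    exact propext (((sound B a h.1).2 i q).trans ((sound B a' h'.1).2 i q).symm))
  convert this using 2 with B
  constructor
  · rintro ⟨h1, h2, h3⟩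
    exact ⟨(B, fun k => Nr X B (L k.1) k.2), ⟨complete B h1 h2, h3⟩, rfl⟩
  · rintro ⟨⟨B, a⟩, ⟨h1, h2⟩, rfl⟩
    exact ⟨h1.1, (sound B a h1).1, ((sound B a h1).2 i q).1 h2⟩

theorem nl_borel (hX : IsGδ X) (hM : Moore P) :
    (Measurable fun B : NonemptyCompacts P => (B : Set P) ⊆ X ∧ NL X B) ∧
    (∀ r t, Measurable fun B : NonemptyCompacts P => (B : Set P) ⊆ X ∧ NL X B ∧
      diam (B : Set P) < r ∧ ∀ b ∈ (B : Set P), En X r b t) ∧
    ∃ T : Set P, T.Countable ∧ ∀ (r : ℝ) (B : Set P), IsCompact B → NL X B → diam B < r →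
      ∃ t ∈ T, ∀ b ∈ B, En X r b t := by
  obtain ⟨𝓓, hc, h1, h2⟩ := exists_family hM X
  have : Countable 𝓓 := hc.to_subtype
  have hm := meas_nr hX (L := fun i : 𝓓 => i.1) (fun i => h1 i i.2)
    fun B hB ε hε => by
      obtain ⟨L, hL, h⟩ := h2 B hB ε hε
      exact ⟨⟨L, hL⟩, h⟩
  have link : ∀ (r q : ℝ) (B L : Set P), IsCompact B → Nr X B L q → diam B + 2 * q < r →
      ∀ b ∈ B, ∀ t ∈ L, En X r b t := by
    rintro r q B L hB ⟨K, k1, k2, k3, k4, s, k5, k6, k7, -⟩ hd b hb t ht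
    exact en_of_cont k1 k2 (by linarith [diam_le_of_near hB.isBounded k5 k7]) (k3 hb) (k4 ht)
  have ex : ∀ (r : ℝ) (B : Set P), NL X B → diam B < r →
      ∃ L ∈ 𝓓, ∃ q : ℚ, Nr X B L q ∧ diam B + 2 * q < r := by
    intro r B hB hd
    obtain ⟨q, q1, q2⟩ := exists_rat_btwn (show 0 < (r - diam B) / 2 by linarith)
    obtain ⟨L, hL, h⟩ := h2 B hB q q1
    exact ⟨L, hL, q, h, by linarith⟩
  refine ⟨?_, fun r t => ?_, (fun L : NonemptyCompacts P => L.nonempty.some) '' 𝓓, hc.image _,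
    fun r B hB hnl hd => ?_⟩
  · have := Measurable.exists fun i => hm i 1
    convert this using 2 with B
    refine ⟨fun h => ?_, fun ⟨i, h⟩ => ⟨h.1, h.2.1⟩⟩
    obtain ⟨L, hL, h'⟩ := h2 B h.2 1 one_pos
    exact ⟨⟨L, hL⟩, h.1, h.2, by simpa using h'⟩
  · have := Measurable.exists fun i : 𝓓 => Measurable.exists fun q : ℚ => (hm i q).and
      ((measurableSet_setOfPred.1 (isOpen_lt (continuous_diam.add
        (continuous_const (y := 2 * (q : ℝ)))) (continuous_const (y := r))).measurableSet).and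
        (measurable_const (a := En X r i.1.nonempty.some t)))
    convert this using 2 with B
    constructor
    · rintro ⟨b1, b2, b3, b4⟩
      obtain ⟨L, hL, q, h, hq⟩ := ex r B b2 b3
      obtain ⟨b, hb⟩ := B.nonempty
      exact ⟨⟨L, hL⟩, q, ⟨b1, b2, h⟩, hq,
        (link r q B L B.isCompact h hq b hb _ L.nonempty.some_mem).symm.trans (b4 b hb)⟩
    · rintro ⟨i, q, ⟨b1, b2, h⟩, hq, ht⟩
      have hq0 : (0 : ℝ) < q := dist_nonneg.trans_lt h.dist_lt
      replace hq : diam (B : Set P) + 2 * q < r := hq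
      exact ⟨b1, b2, by linarith, fun b hb =>
        (link r q B i B.isCompact h hq b hb _ i.1.nonempty.some_mem).trans ht⟩
  · obtain ⟨L, hL, q, h, hq⟩ := ex r B hnl hd
    exact ⟨_, ⟨L, hL, rfl⟩, fun b hb => link r q B L hB h hq b hb _ L.nonempty.some_mem⟩

end Pool.Agent.P.MP_ea3df5_lc
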