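import Pool.Agent.P.MP_ea3df5_lc.Arc

/-!
A Whitney-type size function, recognition of arcs, canonical parametrisations.
-/

namespace Pool.Agent.P.MP_ea3df5_lc

open Set Metric Topology Filter TopologicalSpace

variable {P : Type*} [MetricSpace P]

theorem continuousOn_invFunOn {α β : Type*} [TopologicalSpace α] [TopologicalSpace β] [T2Space β]
    [Nonempty α] {J : Set α} (hJ : IsCompact J) {τ : α → β} (hτ : ContinuousOn τ J)
    (hi : InjOn τ J) : ContinuousOn (Function.invFunOn τ J) (τ '' J) := by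
  rw [continuousOn_iff_isClosed]
  intro t ht
  refine ⟨τ '' (J ∩ t), ((hJ.inter_right ht).image_of_continuousOn
    (hτ.mono inter_subset_left)).isClosed, ?_⟩
  ext x
  constructor
  · rintro ⟨h, w, hw, rfl⟩
    rw [mem_preimage, hi.leftInvOn_invFunOn hw] at h
    exact ⟨⟨w, ⟨hw, h⟩, rfl⟩, w, hw, rfl⟩
  · rintro ⟨⟨w, hw, rfl⟩, h⟩
    exact ⟨by rw [mem_preimage, hi.leftInvOn_invFunOn hw.1]; exact hw.2, h⟩

/-- inverse parametrisation of a compact connected set along an injective real function -/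
theorem exists_param {α : Type*} [TopologicalSpace α] {J : Set α} (hJ : IsCompact J)
    (hc : IsConnected J) {τ : α → ℝ} (hτ : ContinuousOn τ J) (hi : InjOn τ J) :
    ∃ (γ : ℝ → α) (a b : ℝ), Continuous γ ∧ a ≤ b ∧ τ '' J = Icc a b ∧
      (∀ t ∈ Icc a b, γ t ∈ J ∧ τ (γ t) = t) ∧ ∀ w ∈ J, γ (τ w) = w := by
  have : Nonempty α := ⟨hc.nonempty.some⟩
  have he := eq_Icc_of_connected_compact (hc.image τ hτ) (hJ.image_of_continuousOn hτ)
  set a := sInf (τ '' J)
  set b := sSup (τ '' J)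
  have hab : a ≤ b := nonempty_Icc.1 (he ▸ hc.nonempty.image τ)
  have hcl : ∀ t ∈ Icc a b, max a (min b t) = t := fun t ht => by
    rw [min_eq_right ht.2, max_eq_right ht.1]
  refine ⟨fun t => Function.invFunOn τ J (max a (min b t)), a, b, ?_, hab, he, ?_, ?_⟩
  · refine (continuousOn_invFunOn hJ hτ hi).comp_continuous (by fun_prop) fun t => ?_
    rw [he]
    exact ⟨le_max_left _ _, max_le hab (min_le_left _ _)⟩
  · intro t ht
    simp only [hcl t ht]
    rw [← he] at ht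
    obtain ⟨w, hw, rfl⟩ := ht
    rw [hi.leftInvOn_invFunOn hw]
    exact ⟨hw, rfl⟩
  · intro w hw
    have : τ w ∈ Icc a b := he ▸ mem_image_of_mem τ hw
    simp only [hcl _ this]
    exact hi.leftInvOn_invFunOn hw

theorem arc_of_fun {J : Set P} (hJ : Cont J) {τ : P → ℝ} (hτ : ContinuousOn τ J) (hi : InjOn τ J)
    {y : P} (hy : y ∈ J) (hmin : ∀ w ∈ J, τ y ≤ τ w) (hne : ¬ J ⊆ {y}) : ∃ z, Arc J y z := by
  obtain ⟨γ, a, b, hγ, hab, he, h1, h2⟩ := exists_param hJ.compact hJ.conn hτ hi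
  have hya : τ y = a := by
    have m1 : τ y ∈ Icc a b := he ▸ mem_image_of_mem τ hy
    have := hmin _ (h1 a (left_mem_Icc.2 hab)).1
    rw [(h1 a (left_mem_Icc.2 hab)).2] at this
    exact le_antisymm this m1.1
  refine ⟨γ b, γ, a, b, hγ, lt_of_le_of_ne hab ?_, ?_, by rw [← hya, h2 y hy], rfl, ?_⟩
  · rintro rfl
    refine hne fun w hw => ?_
    have m : τ w ∈ Icc a a := he ▸ mem_image_of_mem τ hw
    exact hi hw hy (by rw [hya]; exact le_antisymm m.2 m.1)
  · intro s hs t ht e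
    rw [← (h1 s hs).2, ← (h1 t ht).2, e]
  · apply Subset.antisymm
    · rintro _ ⟨t, ht, rfl⟩; exact (h1 t ht).1
    · intro w hw
      exact ⟨τ w, he ▸ mem_image_of_mem τ hw, h2 w hw⟩

variable [SeparableSpace P] [Nonempty P]

/-- a strictly decreasing size function on compact sets -/
noncomputable def nu (K : Set P) : ℝ := ∑' i : ℕ, (1 / 2 : ℝ) ^ i * min 1 (infDist (denseSeq P i) K)

theorem nu_summable (K : Set P) :
    Summable fun i : ℕ => (1 / 2 : ℝ) ^ i * min 1 (infDist (denseSeq P i) K) :=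
  Summable.of_nonneg_of_le (fun i => mul_nonneg (by positivity) (le_min zero_le_one infDist_nonneg))
    (fun i => mul_le_of_le_one_right (by positivity) (min_le_left _ _)) summable_geometric_two

theorem nu_le_add {A B : Set P} (hB : B.Nonempty) {r : ℝ} (hr : 0 ≤ r)
    (h : ∀ x ∈ B, ∃ y ∈ A, dist x y ≤ r) : nu A ≤ nu B + 2 * r := by
  have e : (2 * r : ℝ) = ∑' i : ℕ, (1 / 2 : ℝ) ^ i * r := by
    rw [tsum_mul_right, tsum_geometric_two]
  rw [nu, nu, e, ← (nu_summable B).tsum_add (summable_geometric_two.mul_right r)]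
  refine (nu_summable A).tsum_le_tsum (fun i => ?_)
    ((nu_summable B).add (summable_geometric_two.mul_right r))
  rw [← mul_add]
  refine mul_le_mul_of_nonneg_left ?_ (by positivity)
  have : infDist (denseSeq P i) A - r ≤ infDist (denseSeq P i) B := by
    rw [le_infDist hB]
    intro x hx
    obtain ⟨y, hy, hxy⟩ := h x hx
    have := infDist_le_dist_of_mem (x := denseSeq P i) hy
    have := dist_triangle (denseSeq P i) x y
    linarith
  rcases le_total 1 (infDist (denseSeq P i) B) with h1 | h1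
  · rw [min_eq_left h1]; linarith [min_le_left 1 (infDist (denseSeq P i) A)]
  · rw [min_eq_right h1]; linarith [min_le_right 1 (infDist (denseSeq P i) A)]

theorem nu_anti {A B : Set P} (hA : A.Nonempty) (h : A ⊆ B) : nu B ≤ nu A := by
  simpa using nu_le_add (A := B) hA le_rfl fun x hx => ⟨x, h hx, by simp⟩

theorem nu_lt {A B : Set P} (hA : A.Nonempty) (hc : IsClosed A) (h : A ⊆ B) (hne : ¬ B ⊆ A) :
    nu B < nu A := by
  obtain ⟨p, hp, hpA⟩ := not_subset.1 hne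
  have hpos := (hc.notMem_iff_infDist_pos hA).1 hpA
  obtain ⟨i, hi⟩ := (denseRange_denseSeq P).exists_dist_lt p
    (ε := min 1 (infDist p A / 2)) (by positivity)
  refine (nu_summable B).tsum_lt_tsum (i := i) (fun j => ?_) ?_ (nu_summable A)
  · exact mul_le_mul_of_nonneg_left (min_le_min_left _ (infDist_le_infDist_of_subset h hA))
      (by positivity)
  · refine mul_lt_mul_of_pos_left ?_ (by positivity)
    have h1 := infDist_le_dist_of_mem (x := denseSeq P i) hp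
    have h2 := infDist_le_infDist_add_dist (s := A) (x := p) (y := denseSeq P i)
    rw [dist_comm] at h1
    have h3 := hi.trans_le (min_le_left _ _)
    have h4 := hi.trans_le (min_le_right _ _)
    refine (min_le_right _ _).trans_lt (lt_min (by linarith) (by linarith))

theorem nu_eq {A B : Set P} (hA : Cont A) (h : A ⊆ B) (e : nu A = nu B) : A = B := by
  by_contra hne
  exact (nu_lt hA.nonempty hA.closed h fun h' => hne (h.antisymm h')).ne e.symm

omit [SeparableSpace P] [Nonempty P] in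
/-- subcontinua of a minimal, locally connected continuum through the base point form a chain -/
theorem MinC.chain {p : P} {S I K L : Set P} (hI : MinC p S I) (hlc : LC I) (hK : Cont K)
    (hL : Cont L) (sK : K ⊆ I) (sL : L ⊆ I) (pK : p ∈ K) (pL : p ∈ L) : K ⊆ L ∨ L ⊆ K := by
  by_contra hcon
  rw [not_or] at hcon
  obtain ⟨q, hq, hqS⟩ := hI.2.2.1
  have hqK : q ∉ K := fun h => hcon.2 (sL.trans (hI.2.2.2 K hK pK ⟨q, h, hqS⟩ sK))
  have hqL : q ∉ L := fun h => hcon.1 (sK.trans (hI.2.2.2 L hL pL ⟨q, h, hqS⟩ sL))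
  set C := {v | ∃ Q, Cont Q ∧ Q ⊆ I \ (K ∪ L) ∧ q ∈ Q ∧ v ∈ Q} with hC
  have hKL : IsClosed (K ∪ L) := hK.closed.union hL.closed
  have loc : ∀ {F : Set P}, IsClosed F → ∀ x ∈ I, x ∉ F →
      ∃ N, Cont N ∧ x ∈ N ∧ N ⊆ I \ F ∧ N ∈ 𝓝[I] x := by
    intro F hF x hx hxF
    obtain ⟨δ, hδ, hb⟩ := Metric.isOpen_iff.1 hF.isOpen_compl x hxF
    obtain ⟨N, n1, n2, n3, n4, n5⟩ := hlc x hx δ hδ
    exact ⟨N, n1, n2, fun v hv => ⟨n3 hv, hb
      ((dist_le_diam_of_mem n1.compact.isBounded hv n2).trans_lt n4)⟩, n5⟩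
  have hCI : C ⊆ I := fun v ⟨Q, _, h2, _, h4⟩ => (h2 h4).1
  have meet : ∀ x ∈ closure C, ∀ N ∈ 𝓝[I] x, (N ∩ C).Nonempty := by
    intro x hx N hN
    obtain ⟨u, hu, hxu, huN⟩ := mem_nhdsWithin.1 hN
    obtain ⟨v, hv, hvC⟩ := _root_.mem_closure_iff.1 hx u hu hxu
    exact ⟨v, huN ⟨hv, hCI hvC⟩, hvC⟩
  have hqC : q ∈ C := ⟨{q}, cont_singleton q, singleton_subset_iff.2 ⟨hq, fun h => h.elim hqK hqL⟩,
    rfl, rfl⟩
  have key : ∀ {K L : Set P}, Cont K → K ⊆ I → p ∈ K → ¬ L ⊆ K → L ⊆ I →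
      (∀ v ∈ C, ∃ Q, Cont Q ∧ Q ⊆ I \ L ∧ q ∈ Q ∧ v ∈ Q) → ∀ x ∈ closure C, x ∉ K := by
    intro K L hK sK pK nL sL hCQ x hx hxK
    obtain ⟨u, huL, huK⟩ := not_subset.1 nL
    obtain ⟨N, n1, n2, n3, n4⟩ := loc (isClosed_singleton (x := u)) x (sK hxK)
      (fun e => huK (e ▸ hxK))
    obtain ⟨v, hvN, hvC⟩ := meet x hx N n4
    obtain ⟨Q, q1, q2, q3, q4⟩ := hCQ v hvC
    have := hI.2.2.2 (K ∪ N ∪ Q) ((hK.union' n1 hxK n2).union' q1 (Or.inr hvN) q4)
      (Or.inl (Or.inl pK)) ⟨q, Or.inr q3, hqS⟩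
      (union_subset (union_subset sK (n3.trans sdiff_subset)) (q2.trans sdiff_subset)) (sL huL)
    rcases this with (h | h) | h
    · exact huK h
    · exact (n3 h).2 rfl
    · exact (q2 h).2 huL
  have k1 := key hK sK pK hcon.2 sL fun v ⟨Q, h1, h2, h3, h4⟩ =>
    ⟨Q, h1, fun x hx => ⟨(h2 hx).1, fun h => (h2 hx).2 (Or.inr h)⟩, h3, h4⟩
  have k2 := key hL sL pL hcon.1 sK fun v ⟨Q, h1, h2, h3, h4⟩ =>
    ⟨Q, h1, fun x hx => ⟨(h2 hx).1, fun h => (h2 hx).2 (Or.inl h)⟩, h3, h4⟩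
  have hIC : ∀ x ∈ I, x ∈ closure C := by
    intro x₀ hx₀
    refine hI.1.pre.induction₂' (fun a b => a ∈ closure C → b ∈ closure C) ?_
      (fun _ _ _ _ _ _ h1 h2 h => h2 (h1 h)) hq hx₀ (subset_closure hqC)
    intro x hx
    by_cases hxC : x ∈ closure C
    · obtain ⟨N, n1, n2, n3, n4⟩ := loc hKL x hx fun h => h.elim (k1 x hxC) (k2 x hxC)
      obtain ⟨v, hvN, Q, q1, q2, q3, q4⟩ := meet x hxC N n4
      filter_upwards [n4] with y hy
      exact ⟨fun _ => subset_closure ⟨Q ∪ N, q1.union' n1 q4 hvN, union_subset q2 n3, Or.inl q3,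
        Or.inr hy⟩, fun _ => hxC⟩
    · filter_upwards [mem_nhdsWithin_of_mem_nhds (isClosed_closure.isOpen_compl.mem_nhds hxC)]
        with y hy
      exact ⟨fun h => absurd h hxC, fun h => absurd h hy⟩
  exact k1 p (hIC p hI.2.1) pK

/-- a minimal locally connected continuum is an arc -/
theorem MinC.arc {p : P} {S I : Set P} (hI : MinC p S I) (hp : p ∉ S) (hlc : LC I) :
    ∃ z, Arc I p z := by
  set k : P → Set P := fun w => ⋂₀ {K | Cont K ∧ K ⊆ I ∧ p ∈ K ∧ w ∈ K} with hk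
  have kc : ∀ w ∈ I, Cont (k w) := fun w hw =>
    cont_sInter ⟨I, hI.1, subset_rfl, hI.2.1, hw⟩ (fun K hK => hK.1) fun K hK L hL => by
      rcases hI.chain hlc hK.1 hL.1 hK.2.1 hL.2.1 hK.2.2.1 hL.2.2.1 with h | h
      · exact ⟨K, hK, subset_rfl, h⟩
      · exact ⟨L, hL, h, subset_rfl⟩
  have kmin : ∀ w K, Cont K → K ⊆ I → p ∈ K → w ∈ K → k w ⊆ K := fun w K h1 h2 h3 h4 =>
    sInter_subset_of_mem ⟨h1, h2, h3, h4⟩
  have kI : ∀ w ∈ I, k w ⊆ I := fun w hw => kmin w I hI.1 subset_rfl hI.2.1 hw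
  have kp : ∀ w, p ∈ k w := fun w K hK => hK.2.2.1
  have kw : ∀ w, w ∈ k w := fun w K hK => hK.2.2.2
  have kN : ∀ N, Cont N → N ⊆ I → ∀ v ∈ N, ∀ w ∈ N, k v ⊆ k w ∪ N := fun N n1 n2 v hv w hw =>
    kmin v _ ((kc w (n2 hw)).union' n1 (kw w) hw) (union_subset (kI w (n2 hw)) n2)
      (Or.inl (kp w)) (Or.inr hv)
  have kd : ∀ N, Cont N → N ⊆ I → ∀ v ∈ N, ∀ w ∈ N, nu (k w) ≤ nu (k v) + 2 * diam N := by
    intro N n1 n2 v hv w hw
    refine nu_le_add ⟨v, kw v⟩ diam_nonneg fun x hx => ?_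
    rcases kN N n1 n2 v hv w hw hx with h | h
    · exact ⟨x, h, by simp [diam_nonneg]⟩
    · exact ⟨w, kw w, dist_le_diam_of_mem n1.compact.isBounded h hw⟩
  have hcont : ContinuousOn (fun w => -nu (k w)) I := by
    intro w hw
    rw [ContinuousWithinAt, Metric.tendsto_nhds]
    intro ε hε
    obtain ⟨N, n1, n2, n3, n4, n5⟩ := hlc w hw (ε / 2) (by positivity)
    filter_upwards [n5] with v hv
    have h1 := kd N n1 n3 v hv w n2
    have h2 := kd N n1 n3 w n2 v hv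
    rw [Real.dist_eq, abs_lt]
    constructor <;> linarith
  have keq : ∀ v ∈ I, ∀ w ∈ I, nu (k v) = nu (k w) → k v = k w := by
    intro v hv w hw e
    rcases hI.chain hlc (kc v hv) (kc w hw) (kI v hv) (kI w hw) (kp v) (kp w) with h | h
    · exact nu_eq (kc v hv) h e
    · exact (nu_eq (kc w hw) h e.symm).symm
  refine arc_of_fun hI.1 hcont ?_ hI.2.1 ?_ ?_
  · intro w hw w' hw' e
    have e' : k w = k w' := keq w hw w' hw' (neg_injective e)
    by_contra hne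
    set F := {v ∈ I | k v = k w} with hF
    have hpF : p ∉ F := by
      intro h
      have h1 : k w ⊆ {p} := h.2 ▸ kmin p {p} (cont_singleton p)
        (singleton_subset_iff.2 hI.2.1) rfl rfl
      have h2 : w = p := h1 (kw w)
      have h3 : w' = p := h1 (e' ▸ kw w')
      exact hne (h2.trans h3.symm)
    have hFc : IsClosed F := by
      have := hcont.preimage_isClosed_of_isClosed hI.1.closed
        (isClosed_singleton (x := -nu (k w)))
      convert this using 1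
      ext v
      refine ⟨fun h => ⟨h.1, by simp [h.2]⟩, fun h => ⟨h.1, keq v h.1 w hw (neg_injective h.2)⟩⟩
    have hmeet : (k w ∩ F ∩ closure (k w \ F)).Nonempty := by
      by_contra h
      refine hpF (sub_of_closed (kc w hw).pre hFc (isClosed_closure (s := k w \ F)) ?_
        (disjoint_iff_inter_eq_empty.2 (not_nonempty_iff_eq_empty.1 h)) (kw w) ⟨hw, rfl⟩ (kp w))
      intro x hx
      by_cases hxF : x ∈ F
      · exact Or.inl hxF
      · exact Or.inr (subset_closure ⟨hx, hxF⟩)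
    obtain ⟨u, ⟨hu, huF⟩, hucl⟩ := hmeet
    obtain ⟨N, n1, n2, n3, n4, n5⟩ := hlc u huF.1 (dist w w') (dist_pos.2 hne)
    obtain ⟨O, hO, huO, hON⟩ := mem_nhdsWithin.1 n5
    obtain ⟨v, hvO, hvk, hvF⟩ := _root_.mem_closure_iff.1 hucl O hO huO
    have hvI : v ∈ I := kI w hw hvk
    have hsub : k w ⊆ k v ∪ N := huF.2 ▸ kN N n1 n3 u n2 v (hON ⟨hvO, hvI⟩)
    have hFN : ∀ f ∈ F, f ∈ N := by
      intro f hf
      refine (hsub (hf.2 ▸ kw f)).resolve_left fun h => hvF ⟨hvI, ?_⟩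
      refine Subset.antisymm (kmin v _ (kc w hw) (kI w hw) (kp w) hvk) ?_
      exact hf.2 ▸ kmin f _ (kc v hvI) (kI v hvI) (kp v) h
    exact absurd (dist_le_diam_of_mem n1.compact.isBounded (hFN w ⟨hw, rfl⟩)
      (hFN w' ⟨hw', e'.symm⟩)) (not_le.2 n4)
  · intro w hw
    exact neg_le_neg (nu_anti ⟨p, kp p⟩ (kmin p _ (kc w hw) (kI w hw) (kp w) (kp w)))
  · intro h
    obtain ⟨x, hx, hxS⟩ := hI.2.2.1
    exact hp (h hx ▸ hxS)

theorem nu_cont {γ : ℝ → P} (hγ : Continuous γ) (a : ℝ) :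
    ContinuousOn (fun t => nu (γ '' Icc a t)) (Ici a) := by
  intro t ht
  rw [ContinuousWithinAt, Metric.tendsto_nhds]
  intro ε hε
  obtain ⟨δ, hδ, hδ'⟩ := Metric.continuous_iff.1 hγ t (ε / 5) (by positivity)
  have key : ∀ s u, a ≤ s → a ≤ u → dist s t < δ → dist u t < δ →
      nu (γ '' Icc a s) ≤ nu (γ '' Icc a u) + 2 * (2 * ε / 5) := by
    intro s u hs hu h1 h2
    refine nu_le_add ((nonempty_Icc.2 hu).image γ) (by positivity) ?_
    rintro _ ⟨x, hx, rfl⟩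
    by_cases hxs : x ≤ s
    · exact ⟨γ x, ⟨x, ⟨hx.1, hxs⟩, rfl⟩, by simp only [dist_self]; positivity⟩
    · refine ⟨γ s, ⟨s, ⟨hs, le_rfl⟩, rfl⟩, ?_⟩
      have h3 : dist x t < δ := by
        rw [Real.dist_eq, abs_lt] at *
        constructor <;> linarith [hx.2, h1.1, h2.2]
      have := hδ' x h3
      have := hδ' s h1
      have := dist_triangle_right (γ x) (γ s) (γ t)
      linarith
  filter_upwards [self_mem_nhdsWithin, mem_nhdsWithin_of_mem_nhds (ball_mem_nhds t hδ)]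
    with s hs hs'
  have h1 := key s t hs ht hs' (by simpa using hδ)
  have h2 := key t s ht hs (by simpa using hδ) hs'
  rw [Real.dist_eq, abs_lt]
  constructor <;> linarith

theorem nu_strict {γ : ℝ → P} (hγ : Continuous γ) {a b s t : ℝ} (hi : InjOn γ (Icc a b))
    (hs : a ≤ s) (hst : s < t) (ht : t ≤ b) : nu (γ '' Icc a t) < nu (γ '' Icc a s) := by
  refine nu_lt (cont_image hγ hs).nonempty (cont_image hγ hs).closed
    (image_mono (Icc_subset_Icc_right hst.le)) fun h => ?_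
  obtain ⟨x, hx, e⟩ := h (mem_image_of_mem γ (right_mem_Icc.2 (hs.trans hst.le)))
  have := hi ⟨hx.1, by linarith [hx.2]⟩ ⟨hs.trans hst.le, ht⟩ e
  linarith [hx.2]

/-- an arc can be cut near its end at a point where the initial part has rational size -/
theorem Arc.rat_cut {J : Set P} {y z : P} (h : Arc J y z) {δ : ℝ} (hδ : 0 < δ) :
    ∃ w A B, ∃ q : ℚ, Arc A y w ∧ Arc B w z ∧ A ∪ B = J ∧ A ∩ B ⊆ {w} ∧ diam B < δ ∧ nu A = q := by
  obtain ⟨γ, a, b, hγ, hab, hi, rfl, rfl, rfl⟩ := h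
  obtain ⟨η, hη, hη'⟩ := Metric.continuous_iff.1 hγ b (δ / 3) (by positivity)
  obtain ⟨s, hs1, hs2⟩ := exists_between (max_lt hab (show b - η < b by linarith))
  have has : a < s := (le_max_left _ _).trans_lt hs1
  have hbs : b - η < s := (le_max_right _ _).trans_lt hs1
  obtain ⟨q, hq1, hq2⟩ := exists_rat_btwn (nu_strict hγ hi has.le hs2 le_rfl)
  obtain ⟨t, ht, e⟩ := intermediate_value_Ioo' hs2.le
    ((nu_cont hγ a).mono fun x hx => has.le.trans hx.1) (show (q : ℝ) ∈ Ioo _ _ from ⟨hq1, hq2⟩)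
  have hat : a < t := has.trans ht.1
  refine ⟨γ t, _, _, q, arc_image hγ hi le_rfl hat ht.2.le, arc_image hγ hi hat.le ht.2 le_rfl,
    by rw [← image_union, Icc_union_Icc_eq_Icc hat.le ht.2.le],
    inter_param hi le_rfl le_rfl hat.le ht.2.le,
    diam_lt_of_ball (x := γ b) (r := δ / 3) (by positivity) ?_ (by linarith), e⟩
  rintro _ ⟨x, hx, rfl⟩
  refine hη' x ?_
  rw [Real.dist_eq, abs_lt]
  constructor <;> linarith [hx.1, hx.2, ht.1]

/-- canonical parametrisation on the unit interval -/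
def Can (γ : ℝ → P) : Prop :=
  InjOn γ (Icc 0 1) ∧
    ∀ t ∈ Icc (0 : ℝ) 1, nu (γ '' Icc 0 t) = (1 - t) * nu {γ 0} + t * nu (γ '' Icc 0 1)

theorem Arc.exists_can {J : Set P} {y z : P} (h : Arc J y z) :
    ∃ γ : ℝ → P, Continuous γ ∧ Can γ ∧ γ 0 = y ∧ γ 1 = z ∧ γ '' Icc 0 1 = J := by
  obtain ⟨γ, a, b, hγ, hab, hi, rfl, rfl, rfl⟩ := h
  set φ : ℝ → ℝ := fun t => nu (γ '' Icc a t) with hφ
  have hlt : φ b < φ a := nu_strict hγ hi le_rfl hab le_rfl
  set τ : ℝ → ℝ := fun t => (φ a - φ t) / (φ a - φ b) with hτ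
  have hm : StrictMonoOn τ (Icc a b) := fun s hs t ht hst =>
    div_lt_div_of_pos_right (by linarith [nu_strict hγ hi hs.1 hst ht.2]) (by linarith)
  have hc : ContinuousOn τ (Icc a b) :=
    (continuousOn_const.sub ((nu_cont hγ a).mono fun x hx => hx.1)).div_const _
  have ta : τ a = 0 := by simp [hτ]
  have tb : τ b = 1 := div_self (by linarith)
  obtain ⟨ψ, c, d, hψ, hcd, he, h1, h2⟩ := exists_param isCompact_Icc (isConnected_Icc hab.le) hc
    hm.injOn
  have he' : τ '' Icc a b = Icc 0 1 := by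
    rw [hc.image_Icc_of_monotoneOn hab.le hm.monotoneOn, ta, tb]
  rw [← he, he'] at h1
  have p0 : ψ 0 = a := by rw [← ta]; exact h2 a (left_mem_Icc.2 hab.le)
  have p1 : ψ 1 = b := by rw [← tb]; exact h2 b (right_mem_Icc.2 hab.le)
  have him : ∀ t ∈ Icc (0 : ℝ) 1, (γ ∘ ψ) '' Icc 0 t = γ '' Icc a (ψ t) := by
    intro t ht
    rw [image_comp]
    congr 1
    ext x
    constructor
    · rintro ⟨s, hs, rfl⟩
      have hs' : s ∈ Icc (0 : ℝ) 1 := ⟨hs.1, hs.2.trans ht.2⟩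
      refine ⟨(h1 s hs').1.1, (hm.le_iff_le (h1 s hs').1 (h1 t ht).1).1 ?_⟩
      rw [(h1 s hs').2, (h1 t ht).2]; exact hs.2
    · intro hx
      have hx' : x ∈ Icc a b := ⟨hx.1, hx.2.trans (h1 t ht).1.2⟩
      refine ⟨τ x, ⟨?_, ?_⟩, h2 x hx'⟩
      · rw [← ta]; exact hm.monotoneOn (left_mem_Icc.2 hab.le) hx' hx.1
      · rw [← (h1 t ht).2]; exact hm.monotoneOn hx' (h1 t ht).1 hx.2
  refine ⟨γ ∘ ψ, hγ.comp hψ, ⟨?_, ?_⟩, by simp [p0], by simp [p1], ?_⟩
  · intro s hs t ht e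
    have := hi (h1 s hs).1 (h1 t ht).1 e
    rw [← (h1 s hs).2, ← (h1 t ht).2, this]
  · intro t ht
    rw [him t ht, him 1 (right_mem_Icc.2 zero_le_one), p1]
    have e0 : nu {(γ ∘ ψ) 0} = φ a := by simp [hφ, p0]
    have e1 : (φ a - φ (ψ t)) / (φ a - φ b) = t := (h1 t ht).2
    rw [div_eq_iff (by linarith)] at e1
    rw [e0]
    change φ (ψ t) = (1 - t) * φ a + t * φ b
    linarith
  · rw [him 1 (right_mem_Icc.2 zero_le_one), p1]

theorem Can.arc {γ : ℝ → P} (hγ : Continuous γ) (h : Can γ) : Arc (γ '' Icc 0 1) (γ 0) (γ 1) :=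
  arc_image hγ h.1 le_rfl zero_lt_one le_rfl

theorem Can.unique {γ δ : ℝ → P} (hγ : Continuous γ) (hδ : Continuous δ) (h : Can γ) (h' : Can δ)
    (e0 : γ 0 = δ 0) (e : γ '' Icc 0 1 = δ '' Icc 0 1) : ∀ t ∈ Icc (0 : ℝ) 1, γ t = δ t := by
  intro t ht
  rcases ht.1.eq_or_lt with rfl | ht0
  · exact e0
  have a1 := arc_image hγ h.1 le_rfl ht0 ht.2
  have a2 := arc_image hδ h'.1 le_rfl ht0 ht.2
  have en : nu (γ '' Icc 0 t) = nu (δ '' Icc 0 t) := by rw [h.2 t ht, h'.2 t ht, e0, e]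
  have : γ '' Icc 0 t = δ '' Icc 0 t := by
    rcases (h.arc hγ).chain a1.cont (image_mono (Icc_subset_Icc_right ht.2)) a1.left_mem a2.cont
      (e ▸ image_mono (Icc_subset_Icc_right ht.2)) (e0 ▸ a2.left_mem) with hh | hh
    · exact nu_eq a1.cont hh en
    · exact (nu_eq a2.cont hh en.symm).symm
  rw [← this, ← e0] at a2
  exact a1.end_eq a2

end Pool.Agent.P.MP_ea3df5_lc
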